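import Pool.Agent.FQI.AffMat

/-!
# Powers of a compact set are bounded

Proof. `K ^ n` is compact (induction, `IsCompact.mul`, multiplication of matrices is continuous);
the functions `M ↦ mn (gp M)`, `M ↦ vn (up M)` are continuous, so they are bounded on it
(`IsCompact.exists_bound_of_continuousOn` or `IsCompact.bddAbove_image`).
-/

set_option autoImplicit false

namespace Pool.Agent.FQI

open Matrix

open Pointwise in
theorem isCompact_pow' (K : Set M3) (hK : IsCompact K) (n : ℕ) : IsCompact (K ^ n) := by
  induction n with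
  | zero => rw [pow_zero]; exact isCompact_singleton
  | succ n ih => rw [pow_succ]; exact ih.mul hK

open Pointwise in
theorem K_bdd (K : Set M3) (hK : IsCompact K) (n : ℕ) :
    ∃ R : ℝ, ∀ M ∈ K ^ n, mn (gp M) ≤ R ∧ vn (up M) ≤ R := by
  have hc := isCompact_pow' K hK n
  have hent : ∀ i j : Fin 3, Continuous (fun M : M3 => M i j) := fun i j =>
    (continuous_apply j).comp (continuous_apply i)
  have h1 : Continuous (fun M : M3 => mn (gp M)) := by
    have e : (fun M : M3 => mn (gp M)) =
        fun M : M3 => |M 0 0| + |M 0 1| + |M 1 0| + |M 1 1| := by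
      funext M; simp [mn, gp]
    rw [e]
    exact (((hent 0 0).abs.add (hent 0 1).abs).add (hent 1 0).abs).add (hent 1 1).abs
  have h2 : Continuous (fun M : M3 => vn (up M)) := by
    have e : (fun M : M3 => vn (up M)) = fun M : M3 => |M 0 2| + |M 1 2| := by
      funext M; simp [vn, up]
    rw [e]
    exact (hent 0 2).abs.add (hent 1 2).abs
  obtain ⟨R1, hR1⟩ := hc.exists_bound_of_continuousOn h1.continuousOn
  obtain ⟨R2, hR2⟩ := hc.exists_bound_of_continuousOn h2.continuousOn
  refine ⟨max R1 R2, fun M hM => ⟨?_, ?_⟩⟩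
  · exact ((le_abs_self _).trans (hR1 M hM)).trans (le_max_left _ _)
  · exact ((le_abs_self _).trans (hR2 M hM)).trans (le_max_right _ _)

end Pool.Agent.FQI
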