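import Pool.Agent.FQI.AffMat

/-!
# Bounded sets are contained in a power of a compact generating set

Proof of `K_big`. Let `G := {M : M3 | aff M}`, a closed subset of `M3`, and `K ^ n ⊆ G`
(`aff_of_mem_pow`), `K ^ n` compact hence closed; `K ^ n ⊆ K ^ m` for `n ≤ m` (`1 ∈ K`;
`Set.pow_subset_pow_right`), and `M ∈ K ^ n → M⁻¹ ∈ K ^ n` (induction; `(A * B)⁻¹ = B⁻¹ * A⁻¹`,
`Matrix.mul_inv_rev`; `pow_succ'`).
(1) The subtype `G` is a nonempty complete metric space (closed in a complete space), so by Baire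
(`nonempty_interior_of_iUnion_of_closed`) some `K ^ n0` (as a subset of the subtype) has nonempty
interior: there are an open set `U` of `M3` and `x0 ∈ U ∩ G` with `U ∩ G ⊆ K ^ n0`.
(2) For `M1 ∈ G` the set `W M1 := {M | x0 * M1⁻¹ * M ∈ U}` is open and contains `M1`. If
`M ∈ G ∩ W M1`, then `x0 * M1⁻¹ * M ∈ U ∩ G ⊆ K ^ n0` (`aff_mul`, `aff_inv`) and
`M = M1 * x0⁻¹ * (x0 * M1⁻¹ * M) ∈ K ^ n1 * K ^ n0 * K ^ n0` if `M1 ∈ K ^ n1`.
(3) The set `B := {M | aff M ∧ mn (gp M) ≤ R ∧ vn (up M) ≤ R}` is compact (closed, and all entries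
are bounded by `max R 1`). It is covered by the open sets `W M1`, `M1 ∈ B`; take a finite subcover
`M1, .., Mr`, `Mi ∈ K ^ (n i)`; then `B ⊆ K ^ N` with `N = (∑ i, n i) + 2 * n0`.
-/

set_option autoImplicit false

namespace Pool.Agent.FQI

open Matrix

open Pointwise in
theorem K_big (K : Set M3) (hK : IsCompact K) (h1 : (1 : M3) ∈ K) (hinv : ∀ M ∈ K, M⁻¹ ∈ K)
    (haff : ∀ M ∈ K, aff M) (hgen : ∀ M : M3, aff M → ∃ n : ℕ, M ∈ K ^ n) (R : ℝ) :
    ∃ N : ℕ, ∀ M : M3, aff M → mn (gp M) ≤ R → vn (up M) ≤ R → M ∈ K ^ N := by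
  classical
  have hdetu : ∀ M : M3, aff M → IsUnit M.det := fun M hM => by
    rw [hM.2.2.2]; exact isUnit_one
  -- closedness of the group
  have hcl : IsClosed {M : M3 | aff M} := by
    have e : {M : M3 | aff M} = {M : M3 | M 2 0 = 0} ∩ ({M : M3 | M 2 1 = 0} ∩
        ({M : M3 | M 2 2 = 1} ∩ {M : M3 | M.det = 1})) := rfl
    rw [e]
    have hc : ∀ i j, Continuous fun M : M3 => M i j := fun i j => continuous_id.matrix_elem i j
    exact (isClosed_eq (hc 2 0) continuous_const).inter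
      ((isClosed_eq (hc 2 1) continuous_const).inter
        ((isClosed_eq (hc 2 2) continuous_const).inter
          (isClosed_eq continuous_id.matrix_det continuous_const)))
  haveI : T2Space M3 := inferInstanceAs (T2Space (Fin 3 → Fin 3 → ℝ))
  haveI : LocallyCompactSpace M3 := inferInstanceAs (LocallyCompactSpace (Fin 3 → Fin 3 → ℝ))
  haveI : LocallyCompactSpace {M : M3 // aff M} :=
    hcl.isClosedEmbedding_subtypeVal.locallyCompactSpace
  haveI : Nonempty {M : M3 // aff M} := ⟨⟨1, aff_one⟩⟩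
  have hcomp : ∀ n : ℕ, IsCompact (K ^ n) := by
    intro n
    induction n with
    | zero => rw [pow_zero, ← Set.singleton_one]; exact isCompact_singleton
    | succ n ih => rw [pow_succ]; exact ih.mul hK
  have hmono : ∀ m n : ℕ, m ≤ n → K ^ m ⊆ K ^ n := fun m n h =>
    Set.pow_subset_pow_right h1 h
  have hinvn : ∀ (n : ℕ) (M : M3), M ∈ K ^ n → M⁻¹ ∈ K ^ n := by
    intro n
    induction n with
    | zero =>
      intro M hM
      rw [pow_zero, Set.mem_one] at hM ⊢
      rw [hM, inv_one]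
    | succ n ih =>
      intro M hM
      rw [pow_succ, Set.mem_mul] at hM
      obtain ⟨x, hx, y, hy, rfl⟩ := hM
      rw [Matrix.mul_inv_rev, pow_succ']
      exact Set.mul_mem_mul (hinv y hy) (ih x hx)
  -- Baire
  obtain ⟨n0, hn0⟩ := nonempty_interior_of_iUnion_of_closed
    (f := fun n : ℕ => (Subtype.val ⁻¹' (K ^ n) : Set {M : M3 // aff M}))
    (fun n => (hcomp n).isClosed.preimage continuous_subtype_val) (by
      rw [Set.eq_univ_iff_forall]
      intro M
      obtain ⟨n, hn⟩ := hgen M.1 M.2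
      exact Set.mem_iUnion.2 ⟨n, hn⟩)
  obtain ⟨x0, hx0⟩ := hn0
  obtain ⟨V0, hV0, hV0o, hxV⟩ := mem_interior.1 hx0
  obtain ⟨U, hUo, rfl⟩ := isOpen_induced_iff.1 hV0o
  have hU : ∀ M : M3, aff M → M ∈ U → M ∈ K ^ n0 := fun M hM hMU => hV0 (a := ⟨M, hM⟩) hMU
  have hx0U : x0.1 ∈ U := hxV
  have hx0K : x0.1 ∈ K ^ n0 := hU x0.1 x0.2 hx0U
  -- the compact set
  let B : Set M3 := {M | aff M ∧ mn (gp M) ≤ R ∧ vn (up M) ≤ R}
  have hBc : IsCompact B := by
    have hbox : IsCompact {M : M3 | ∀ i j, M i j ∈ Set.Icc (-(|R| + 1)) (|R| + 1)} := by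
      have e : {M : M3 | ∀ i j, M i j ∈ Set.Icc (-(|R| + 1)) (|R| + 1)} =
          (Set.univ.pi fun _ : Fin 3 => Set.univ.pi fun _ : Fin 3 =>
            Set.Icc (-(|R| + 1)) (|R| + 1) : Set (Fin 3 → Fin 3 → ℝ)) := by
        ext M
        constructor
        · intro h i _ j _
          exact h i j
        · intro h i j
          exact h i (Set.mem_univ _) j (Set.mem_univ _)
      rw [e]
      exact isCompact_univ_pi fun _ => isCompact_univ_pi fun _ => isCompact_Icc
    refine hbox.of_isClosed_subset ?_ ?_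
    · have hc : ∀ i j, Continuous fun M : M3 => M i j := fun i j => continuous_id.matrix_elem i j
      have e : B = {M : M3 | aff M} ∩ ({M : M3 | |M 0 0| + |M 0 1| + |M 1 0| + |M 1 1| ≤ R} ∩
          {M : M3 | |M 0 2| + |M 1 2| ≤ R}) := rfl
      rw [e]
      exact hcl.inter ((isClosed_le ((((hc 0 0).abs.add (hc 0 1).abs).add (hc 1 0).abs).add
        (hc 1 1).abs) continuous_const).inter
          (isClosed_le ((hc 0 2).abs.add (hc 1 2).abs) continuous_const))
    · rintro M ⟨⟨m0, m1, m2, -⟩, hg, hu⟩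
      have hRR : R ≤ |R| := le_abs_self R
      have hR0 : 0 ≤ |R| := abs_nonneg R
      have g00 : |M 0 0| ≤ R := (abs_le_mn (gp M) 0 0).trans hg
      have g01 : |M 0 1| ≤ R := (abs_le_mn (gp M) 0 1).trans hg
      have g10 : |M 1 0| ≤ R := (abs_le_mn (gp M) 1 0).trans hg
      have g11 : |M 1 1| ≤ R := (abs_le_mn (gp M) 1 1).trans hg
      have u0 : |M 0 2| ≤ R := (abs_le_vn (up M) 0).trans hu
      have u1 : |M 1 2| ≤ R := (abs_le_vn (up M) 1).trans hu
      have hb : ∀ i j, |M i j| ≤ |R| + 1 := by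
        intro i j
        fin_cases i <;> fin_cases j
        · exact g00.trans (by linarith)
        · exact g01.trans (by linarith)
        · exact u0.trans (by linarith)
        · exact g10.trans (by linarith)
        · exact g11.trans (by linarith)
        · exact u1.trans (by linarith)
        · change |M 2 0| ≤ _
          rw [m0, abs_zero]; linarith
        · change |M 2 1| ≤ _
          rw [m1, abs_zero]; linarith
        · change |M 2 2| ≤ _
          rw [m2, abs_one]; linarith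
      intro i j
      exact abs_le.1 (hb i j)
  have hp : ∃ N : ℕ, ∀ M ∈ B, M ∈ K ^ N := by
    refine hBc.induction_on (p := fun S => ∃ N : ℕ, ∀ M ∈ S, aff M → M ∈ K ^ N) ?_ ?_ ?_ ?_ |>.imp
      fun N hN M hM => hN M hM hM.1
    · exact ⟨0, fun M hM => absurd hM (Set.notMem_empty M)⟩
    · rintro s t hst ⟨N, hN⟩
      exact ⟨N, fun M hM => hN M (hst hM)⟩
    · rintro s t ⟨N, hN⟩ ⟨N', hN'⟩
      refine ⟨max N N', ?_⟩
      rintro M (hM | hM) ha
      · exact hmono _ _ (le_max_left _ _) (hN M hM ha)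
      · exact hmono _ _ (le_max_right _ _) (hN' M hM ha)
    · intro M1 hM1
      obtain ⟨n1, hn1⟩ := hgen M1 hM1.1
      have hW : IsOpen {M : M3 | x0.1 * M1⁻¹ * M ∈ U} :=
        hUo.preimage (continuous_const.matrix_mul continuous_id)
      refine ⟨{M : M3 | x0.1 * M1⁻¹ * M ∈ U}, mem_nhdsWithin_of_mem_nhds (hW.mem_nhds ?_),
        n1 + (n0 + n0), ?_⟩
      · change x0.1 * M1⁻¹ * M1 ∈ U
        rw [Matrix.mul_assoc, Matrix.nonsing_inv_mul _ (hdetu _ hM1.1), Matrix.mul_one]
        exact hx0U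
      · intro M hM ha
        have h2 : x0.1 * M1⁻¹ * M ∈ K ^ n0 :=
          hU _ (aff_mul (aff_mul x0.2 (aff_inv hM1.1)) ha) hM
        have e : M = M1 * (x0.1⁻¹ * (x0.1 * M1⁻¹ * M)) := by
          calc M = M1 * M1⁻¹ * M := by
                rw [Matrix.mul_nonsing_inv _ (hdetu _ hM1.1), Matrix.one_mul]
            _ = M1 * (x0.1⁻¹ * x0.1) * M1⁻¹ * M := by
                rw [Matrix.nonsing_inv_mul _ (hdetu _ x0.2), Matrix.mul_one]
            _ = _ := by simp only [Matrix.mul_assoc]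
        rw [e, pow_add, pow_add]
        exact Set.mul_mem_mul hn1 (Set.mul_mem_mul (hinvn n0 _ hx0K) h2)
  obtain ⟨N, hN⟩ := hp
  exact ⟨N, fun M ha hg hu => hN M ⟨ha, hg, hu⟩⟩

end Pool.Agent.FQI
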