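import Pool.Agent.FQI.Norm

/-!
# The counting lemma (pure)

`X = (s, y, z)`: for every index `(i, j, k)` with `i < L`, `j < L`, `k < L ^ 2` we are given real
numbers `s`, `y`, `x` (think: `s = q/r`, `y = t b 1`, `x = t b 0` of the element `b = b (i, j, k)`),
with `|s - i M| ≤ D`, `|y - j M| ≤ D`, `|(x - i M * y) - k M| ≤ D`.

Claim: for `P ≥ 1`, `M ≥ 1`, `D ≥ 0` and `L` large (depending on `P`, `M`, `D`), if every set of
indices whose members satisfy: `⌊s / P²⌋` is the same integer `c`, and the numbers `y` differ by at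
most `1 / P`, and the numbers `x - (c P²) * y` differ by at most `P`, has at most `N` elements, then
`P ^ 2 ≤ 64 * N * M ^ 3`.

Proof of `count`. Map the index `(i, j, k)` to
`(c, d, e) = (⌊s / P²⌋, ⌊P y⌋, ⌊(x - c P² y) / P⌋) ∈ ℤ³`. A fibre of this map satisfies the
hypothesis of the claim (two reals with the same floor of `P y` differ by at most `1 / P`, etc.), so
it has at most `N` elements. The image: `s ∈ [-D, L M + D]`, so `c` takes at most
`(L M + 2 D) / P² + 2` values, which is `≤ 2 L M / P²` for `L` large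
(`L M ≥ 2 D + 2 P²`); `P y ∈ [-P D, P (L M + D)]`, at most `P (L M + 2 D) + 2 ≤ 2 P L M` values for
`d`, if `L M P ≥ 2 P D + 2`; and
`x - c P² y = (x - i M y) + (i M - c P²) y` with `|i M - c P²| ≤ |i M - s| + |s - c P²| ≤ D + P²`,
`|y| ≤ L M + D`, so `|x - c P² y| ≤ L² M + D + (D + P²)(L M + D) ≤ 2 L² M` for `L` large, and `e` takes
at most `4 L² M / P + 2 ≤ 5 L² M / P` values. Altogether
`L⁴ ≤ N * (2 L M / P²) (2 P L M) (5 L² M / P) = 20 N M³ L⁴ / P²`, so `P² ≤ 20 N M³ ≤ 64 N M³`.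
(`Finset.card_le_mul_card_image` or `Finset.card_le_mul_card_image_of_maps_to`; the index set is
`Finset.range L ×ˢ Finset.range L ×ˢ Finset.range (L ^ 2)`, the target a product of three
`Finset.Icc` in `ℤ`, `Int.card_Icc`.)
-/

set_option autoImplicit false

namespace Pool.Agent.FQI

open Matrix

private theorem card_Icc_floor (A B : ℝ) (h : A ≤ B) :
    ((Finset.Icc ⌊A⌋ ⌊B⌋).card : ℝ) ≤ B - A + 2 := by
  rw [Int.card_Icc]
  have h1 : ⌊A⌋ ≤ ⌊B⌋ := Int.floor_le_floor h
  have h2 : (((⌊B⌋ + 1 - ⌊A⌋).toNat : ℤ) : ℝ) = ((⌊B⌋ + 1 - ⌊A⌋ : ℤ) : ℝ) := by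
    rw [Int.toNat_of_nonneg (by omega)]
  have h3 : (((⌊B⌋ + 1 - ⌊A⌋).toNat : ℕ) : ℝ) = (((⌊B⌋ + 1 - ⌊A⌋).toNat : ℤ) : ℝ) := by
    push_cast; rfl
  rw [h3, h2]
  push_cast
  have h4 := Int.floor_le B
  have h5 := Int.lt_floor_add_one A
  linarith

theorem count (P M D : ℝ) (N : ℕ) (hP : 1 ≤ P) (hM : 1 ≤ M) (hD : 0 ≤ D)
    (hP2 : 64 * N * M ^ 3 < P ^ 2) :
    ∃ L : ℕ, ∀ s y x : ℕ × ℕ × ℕ → ℝ,
      (∀ i j k, i < L → j < L → k < L ^ 2 → |s (i, j, k) - i * M| ≤ D ∧
        |y (i, j, k) - j * M| ≤ D ∧ |(x (i, j, k) - i * M * y (i, j, k)) - k * M| ≤ D) →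
      ¬ (∀ (c : ℤ) (T : Finset (ℕ × ℕ × ℕ)),
        (∀ m ∈ T, m.1 < L ∧ m.2.1 < L ∧ m.2.2 < L ^ 2 ∧ ⌊s m / P ^ 2⌋ = c) →
        (∀ m ∈ T, ∀ m' ∈ T, |y m' - y m| ≤ 1 / P ∧
          |(x m' - c * P ^ 2 * y m') - (x m - c * P ^ 2 * y m)| ≤ P) →
        T.card ≤ N) := by
  have hP0 : 0 < P := by linarith
  have hM0 : 0 < M := by linarith
  set K : ℝ := D + P ^ 2 with hK
  have hPP : P ≤ P ^ 2 := by nlinarith
  have hP21 : 1 ≤ P ^ 2 := by nlinarith
  have hK1 : 1 ≤ K := by linarith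
  have hKD : D ≤ K := by linarith
  have hKP : P ^ 2 ≤ K := by linarith
  refine ⟨⌈4 * K⌉₊, ?_⟩
  set L : ℕ := ⌈4 * K⌉₊ with hL
  have hLK : 4 * K ≤ (L : ℝ) := Nat.le_ceil _
  have hL0 : (0 : ℝ) < L := by linarith
  have hKK : K ≤ K ^ 2 := by nlinarith
  have hL2K : 16 * K ^ 2 ≤ (L : ℝ) ^ 2 := by nlinarith
  have hLM : (L : ℝ) ≤ L * M := by nlinarith
  have hL2M : (L : ℝ) ^ 2 ≤ (L : ℝ) ^ 2 * M := by nlinarith [sq_nonneg (L : ℝ)]
  intro s y x hsyx hT
  set f : ℕ × ℕ × ℕ → ℤ × ℤ × ℤ := fun m =>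
    (⌊s m / P ^ 2⌋, ⌊P * y m⌋, ⌊(x m - (⌊s m / P ^ 2⌋ : ℝ) * P ^ 2 * y m) / P⌋) with hf
  set I : Finset (ℕ × ℕ × ℕ) :=
    Finset.range L ×ˢ Finset.range L ×ˢ Finset.range (L ^ 2) with hI
  set E : ℝ := 2 * (L : ℝ) ^ 2 * M with hE
  set J : Finset (ℤ × ℤ × ℤ) := Finset.Icc ⌊-D / P ^ 2⌋ ⌊(L * M + D) / P ^ 2⌋ ×ˢ
    Finset.Icc ⌊-(P * D)⌋ ⌊P * (L * M + D)⌋ ×ˢ Finset.Icc ⌊-E / P⌋ ⌊E / P⌋ with hJ
  have hmaps : ∀ m ∈ I, f m ∈ J := by
    rintro ⟨i, j, k⟩ hm
    rw [hI, Finset.mem_product, Finset.mem_product, Finset.mem_range, Finset.mem_range,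
      Finset.mem_range] at hm
    obtain ⟨hi, hj, hk⟩ := hm
    simp only at hi hj hk
    obtain ⟨h1, h2, h3⟩ := hsyx i j k hi hj hk
    have hi' : (i : ℝ) ≤ L := by exact_mod_cast hi.le
    have hj' : (j : ℝ) ≤ L := by exact_mod_cast hj.le
    have hk' : (k : ℝ) ≤ (L : ℝ) ^ 2 := by exact_mod_cast hk.le
    have hi0 : (0 : ℝ) ≤ i := Nat.cast_nonneg _
    have hj0 : (0 : ℝ) ≤ j := Nat.cast_nonneg _
    have hk0 : (0 : ℝ) ≤ k := Nat.cast_nonneg _
    have hiM : (i : ℝ) * M ≤ L * M := mul_le_mul_of_nonneg_right hi' hM0.le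
    have hjM : (j : ℝ) * M ≤ L * M := mul_le_mul_of_nonneg_right hj' hM0.le
    have hkM : (k : ℝ) * M ≤ (L : ℝ) ^ 2 * M := mul_le_mul_of_nonneg_right hk' hM0.le
    have hiM0 : 0 ≤ (i : ℝ) * M := by positivity
    have hjM0 : 0 ≤ (j : ℝ) * M := by positivity
    have hkM0 : 0 ≤ (k : ℝ) * M := by positivity
    rw [abs_le] at h1 h2
    have hPs : 0 < P ^ 2 := by positivity
    rw [hJ, hf]
    simp only [Finset.mem_product, Finset.mem_Icc]
    set sm := s (i, j, k) with hsm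
    set ym := y (i, j, k) with hym
    set xm := x (i, j, k) with hxm
    set c : ℤ := ⌊sm / P ^ 2⌋ with hc
    refine ⟨⟨?_, ?_⟩, ⟨?_, ?_⟩, ?_, ?_⟩
    · apply Int.floor_le_floor
      apply div_le_div_of_nonneg_right _ hPs.le
      linarith [h1.1]
    · apply Int.floor_le_floor
      apply div_le_div_of_nonneg_right _ hPs.le
      linarith [h1.2]
    · apply Int.floor_le_floor
      have : P * (-D) ≤ P * ym := mul_le_mul_of_nonneg_left (by linarith [h2.1]) hP0.le
      linarith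
    · apply Int.floor_le_floor
      exact mul_le_mul_of_nonneg_left (by linarith [h2.2]) hP0.le
    all_goals
      have hcP : |(i : ℝ) * M - c * P ^ 2| ≤ K := by
        have h4 : (c : ℝ) * P ^ 2 ≤ sm := by
          have := Int.floor_le (sm / P ^ 2)
          rw [← hc] at this
          rwa [le_div_iff₀ hPs] at this
        have h5 : sm < c * P ^ 2 + P ^ 2 := by
          have := Int.lt_floor_add_one (sm / P ^ 2)
          rw [← hc, div_lt_iff₀ hPs] at this
          linarith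
        rw [abs_le]
        constructor
        · linarith [h1.1, h1.2]
        · linarith [h1.1, h1.2]
      have hy : |ym| ≤ L * M + D := by
        rw [abs_le]
        constructor
        · linarith [h2.1]
        · linarith [h2.2]
      have hxE : |xm - (c : ℝ) * P ^ 2 * ym| ≤ E := by
        have e1 : xm - (c : ℝ) * P ^ 2 * ym =
            (xm - i * M * ym - k * M) + k * M + (i * M - c * P ^ 2) * ym := by ring
        rw [e1]
        have a1 := abs_add_le ((xm - i * M * ym - k * M) + k * M) ((i * M - c * P ^ 2) * ym)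
        have a2 := abs_add_le (xm - i * M * ym - k * M) (k * M)
        rw [abs_of_nonneg hkM0] at a2
        have a3 : |((i : ℝ) * M - c * P ^ 2) * ym| ≤ K * (L * M + D) := by
          rw [abs_mul]
          exact mul_le_mul hcP hy (abs_nonneg _) (by linarith)
        have a4 : D + K * (L * M + D) ≤ (L : ℝ) ^ 2 * M := by
          have b1 : K * (L * M) ≤ (L : ℝ) ^ 2 * M / 4 := by
            have : K * (L * M) = (4 * K) * (L * M) / 4 := by ring
            rw [this]
            apply div_le_div_of_nonneg_right _ (by norm_num)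
            have : (L : ℝ) ^ 2 * M = L * (L * M) := by ring
            rw [this]
            exact mul_le_mul_of_nonneg_right hLK (by positivity)
          have b2 : K * D ≤ (L : ℝ) ^ 2 * M / 16 := by
            have : K * D ≤ K ^ 2 := by nlinarith
            linarith
          have b3 : D ≤ (L : ℝ) ^ 2 * M / 16 := by linarith
          have b4 : 0 ≤ (L : ℝ) ^ 2 * M := by positivity
          nlinarith
        rw [hE]
        linarith
      rw [abs_le] at hxE
    · apply Int.floor_le_floor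
      exact div_le_div_of_nonneg_right hxE.1 hP0.le
    · apply Int.floor_le_floor
      exact div_le_div_of_nonneg_right hxE.2 hP0.le
  have hfib : ∀ b ∈ J, (I.filter (fun m => f m = b)).card ≤ N := by
    rintro ⟨c, d, e⟩ -
    apply hT c
    · rintro ⟨i, j, k⟩ hm
      rw [Finset.mem_filter, hI, Finset.mem_product, Finset.mem_product, Finset.mem_range,
        Finset.mem_range, Finset.mem_range] at hm
      obtain ⟨⟨hi, hj, hk⟩, hb⟩ := hm
      exact ⟨hi, hj, hk, congrArg Prod.fst hb⟩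
    · intro m hm m' hm'
      rw [Finset.mem_filter] at hm hm'
      have b1 := hm.2
      have b2 := hm'.2
      rw [hf] at b1 b2
      simp only [Prod.mk.injEq] at b1 b2
      obtain ⟨c1, d1, e1⟩ := b1
      obtain ⟨c2, d2, e2⟩ := b2
      rw [c1] at e1
      rw [c2] at e2
      have hd := Int.abs_sub_lt_one_of_floor_eq_floor (d2.trans d1.symm)
      have he := Int.abs_sub_lt_one_of_floor_eq_floor (e2.trans e1.symm)
      constructor
      · rw [← mul_sub, abs_mul, abs_of_pos hP0] at hd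
        rw [le_div_iff₀ hP0]
        linarith
      · rw [← sub_div, abs_div, abs_of_pos hP0, div_lt_one hP0] at he
        exact he.le
  have hcard := Finset.card_le_mul_card_image_of_maps_to hmaps N hfib
  have hIcard : I.card = L ^ 4 := by
    rw [hI, Finset.card_product, Finset.card_product, Finset.card_range, Finset.card_range]
    ring
  have hPs : 0 < P ^ 2 := by positivity
  have hJcard : (J.card : ℝ) ≤ (2 * (L * M) / P ^ 2) * ((2 * P * (L * M)) *
      (5 * ((L : ℝ) ^ 2 * M) / P)) := by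
    rw [hJ, Finset.card_product, Finset.card_product]
    push_cast
    have hLM2 : 2 * K ≤ L * M := by linarith
    have c1 : ((Finset.Icc ⌊-D / P ^ 2⌋ ⌊(L * M + D) / P ^ 2⌋).card : ℝ) ≤
        2 * (L * M) / P ^ 2 := by
      refine (card_Icc_floor _ _ ?_).trans ?_
      · apply div_le_div_of_nonneg_right _ hPs.le
        have : 0 ≤ (L : ℝ) * M := by positivity
        linarith
      · rw [← sub_div, div_add' _ _ _ hPs.ne']
        apply div_le_div_of_nonneg_right _ hPs.le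
        linarith
    have c2 : ((Finset.Icc ⌊-(P * D)⌋ ⌊P * (L * M + D)⌋).card : ℝ) ≤ 2 * P * (L * M) := by
      refine (card_Icc_floor _ _ ?_).trans ?_
      · have : 0 ≤ P * ((L : ℝ) * M) := by positivity
        have : 0 ≤ P * D := by positivity
        nlinarith
      · have : P * (2 * K) ≤ P * (L * M) := mul_le_mul_of_nonneg_left hLM2 hP0.le
        nlinarith
    have c3 : ((Finset.Icc ⌊-E / P⌋ ⌊E / P⌋).card : ℝ) ≤ 5 * ((L : ℝ) ^ 2 * M) / P := by
      have hE0 : 0 ≤ E := by positivity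
      refine (card_Icc_floor _ _ ?_).trans ?_
      · apply div_le_div_of_nonneg_right _ hP0.le
        linarith
      · rw [← sub_div, div_add' _ _ _ hP0.ne']
        apply div_le_div_of_nonneg_right _ hP0.le
        rw [hE]
        linarith
    have d1 : (0 : ℝ) ≤ ((Finset.Icc ⌊-(P * D)⌋ ⌊P * (L * M + D)⌋).card : ℝ) :=
      Nat.cast_nonneg _
    have d2 : (0 : ℝ) ≤ ((Finset.Icc ⌊-E / P⌋ ⌊E / P⌋).card : ℝ) := Nat.cast_nonneg _
    apply mul_le_mul c1 _ (by positivity) (by positivity)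
    exact mul_le_mul c2 c3 d2 (by positivity)
  have hfin : (L : ℝ) ^ 4 ≤ N * ((2 * (L * M) / P ^ 2) * ((2 * P * (L * M)) *
      (5 * ((L : ℝ) ^ 2 * M) / P))) := by
    have h1 : ((L ^ 4 : ℕ) : ℝ) ≤ ((N * J.card : ℕ) : ℝ) := by
      rw [← hIcard]; exact_mod_cast hcard
    push_cast at h1
    exact h1.trans (mul_le_mul_of_nonneg_left hJcard (Nat.cast_nonneg _))
  have heq : N * ((2 * (L * M) / P ^ 2) * ((2 * P * (L * M)) *
      (5 * ((L : ℝ) ^ 2 * M) / P))) = (20 * N * M ^ 3 * (L : ℝ) ^ 4) / P ^ 2 := by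
    field_simp
    ring
  rw [heq, le_div_iff₀ hPs] at hfin
  have hL4 : (0 : ℝ) < (L : ℝ) ^ 4 := by positivity
  have h20 : P ^ 2 ≤ 20 * N * M ^ 3 := by
    have : (L : ℝ) ^ 4 * P ^ 2 ≤ (L : ℝ) ^ 4 * (20 * N * M ^ 3) := by linarith
    exact le_of_mul_le_mul_left this hL4
  have hNM : 0 ≤ (N : ℝ) * M ^ 3 := by positivity
  nlinarith

end Pool.Agent.FQI
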