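import Pool.Agent.FQI.Cell
import Pool.Agent.FQI.Count

/-!
# A triangular `QuasiCoc` does not exist

Proof of `no_borel`. `R` from `net`; `K := R ^ 2` (`≥ 1`), `N` from `cell_card Q hT K`,
`M := 3 * R + 1`, `far` gives `θ` with
`P := |(ρ θ) 0 0|`, `P ≥ 1`, `P ^ 2 > 64 * N * M ^ 3` (take `T = 64 * N * M ^ 3 + 2`); `D0` from
`right_mul Q hT θ`. For `(i, j, k)` choose by `net` with `x = i M`, `w2 = j M`,
`w1 = i M * (j M) + k M` an element `a (i, j, k)`; `b (i,j,k) := a (i,j,k) * θ`.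
(1) `a` is injective on triples (hence so is `b`): if `a (i,j,k) = a (i',j',k')` then
`|i M - i' M| ≤ 2 R < M` so `i = i'`; `|j M - j' M| ≤ 2 R` so `j = j'`; and
`|t 0 - i M t 1 - k M| ≤ R` (as `(t 0 - w1) - x (t 1 - w2) = t 0 - x t 1 - k M`), the same for `k'`,
so `k = k'`.
(2) With `s = q b / r b`, `y = t b 1`, `x = t b 0`: by `right_mul`,
`|s - q a / r a| ≤ |p a / r a| D0 ≤ R² D0`, so `|s - i M| ≤ R + R² D0`. Let
`v := (ρ a)⁻¹ (t b - t a)`, `vn v ≤ D0`, so `t b - t a = ρ a v = ![p v0 + q v1, r v1]`: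
`|y - t a 1| ≤ R D0`, `|y - j M| ≤ R + R D0`; and
`(t b 0 - t a 0) - i M (t b 1 - t a 1) = p v0 + (q - i M r) v1`, where
`|q - i M r| = |r| |q/r - i M| ≤ R²`, so it is at most `R D0 + R² D0`; with
`|t a 0 - i M t a 1 - k M| ≤ R` we get `|x - i M y - k M| ≤ R + R D0 + R² D0`. So the hypotheses of
`count` hold with `D := R + R D0 + R² D0`.
(3) Cells: let `T` be a finite set of triples as in `count` with the integer `c`; then
`T.image b` satisfies the hypotheses of `cell_card` with `s0 = c P²`: `|p b| = |p a| P` lies between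
`P / R ≥ P / K` and `R P ≤ K P`; `|s - c P²| ≤ P² ≤ K P²` (floor); the other conditions are the same.
`b` is injective, so `T.card = (T.image b).card ≤ N`. This contradicts `count`.
-/

set_option autoImplicit false

namespace Pool.Agent.FQI

open Matrix

variable {Γ : Type} [Group Γ]

theorem no_borel (Q : QuasiCoc Γ) (hT : ∀ a, (Q.ρ a) 1 0 = 0) : False := by
  classical
  obtain ⟨R, hR, hnet⟩ := net Q hT
  have hR0 : 0 < R := by linarith
  have hRR : R ≤ R ^ 2 := by nlinarith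
  obtain ⟨N, hN⟩ := cell_card Q hT (R ^ 2) (by nlinarith)
  set M : ℝ := 3 * R + 1 with hM
  have hM1 : 1 ≤ M := by rw [hM]; linarith
  obtain ⟨θ, hθ⟩ := far Q hT (64 * N * M ^ 3 + 2)
  set P : ℝ := |(Q.ρ θ) 0 0| with hP
  have hNM : 0 ≤ 64 * (N : ℝ) * M ^ 3 := by positivity
  have hP1 : 1 ≤ P := by linarith
  have hP0 : 0 < P := by linarith
  have hP2 : 64 * (N : ℝ) * M ^ 3 < P ^ 2 := by nlinarith
  obtain ⟨D0, hD0, hright⟩ := right_mul Q hT θ
  set D : ℝ := R + R * D0 + R ^ 2 * D0 with hD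
  have hDnn : 0 ≤ D := by rw [hD]; positivity
  obtain ⟨L, hL⟩ := count P M D N hP1 hM1 hDnn hP2
  -- the choice of `a`
  choose a ha using fun m : ℕ × ℕ × ℕ => hnet ((m.1 : ℝ) * M)
    ((m.1 : ℝ) * M * ((m.2.1 : ℝ) * M) + (m.2.2 : ℝ) * M) ((m.2.1 : ℝ) * M)
  -- third coordinate
  have ha3 : ∀ m : ℕ × ℕ × ℕ,
      |Q.t (a m) 0 - (m.1 : ℝ) * M * Q.t (a m) 1 - (m.2.2 : ℝ) * M| ≤ R := by
    intro m
    have h := (ha m).2.2.2.2.2.2
    have e : (Q.t (a m) 0 - ((m.1 : ℝ) * M * ((m.2.1 : ℝ) * M) + (m.2.2 : ℝ) * M)) -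
        (m.1 : ℝ) * M * (Q.t (a m) 1 - (m.2.1 : ℝ) * M) =
        Q.t (a m) 0 - (m.1 : ℝ) * M * Q.t (a m) 1 - (m.2.2 : ℝ) * M := by ring
    rwa [e] at h
  -- integers with close multiples are equal
  have hint : ∀ (i i' : ℕ) (z : ℝ), |z - (i : ℝ) * M| ≤ R → |z - (i' : ℝ) * M| ≤ R → i = i' := by
    intro i i' z h h'
    have h1 : |((i : ℤ) - (i' : ℤ) : ℝ) * M| ≤ 2 * R := by
      have e : (((i : ℤ) : ℝ) - ((i' : ℤ) : ℝ)) * M = (z - (i' : ℝ) * M) - (z - (i : ℝ) * M) := by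
        push_cast; ring
      rw [e]
      exact (abs_sub _ _).trans (by linarith)
    by_contra hne
    have hne' : ((i : ℤ) - (i' : ℤ)) ≠ 0 := by
      intro h0
      exact hne (by omega)
    have h2 : (1 : ℝ) ≤ |((i : ℤ) : ℝ) - ((i' : ℤ) : ℝ)| := by
      have := Int.one_le_abs hne'
      exact_mod_cast this
    rw [abs_mul, abs_of_pos (by linarith : 0 < M)] at h1
    have h3 : M ≤ |((i : ℤ) : ℝ) - ((i' : ℤ) : ℝ)| * M := by nlinarith
    rw [hM] at h3 h1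
    linarith
  have hainj : Function.Injective a := by
    intro m m' hmm
    have h1 : m.1 = m'.1 := by
      apply hint _ _ ((Q.ρ (a m)) 0 1 / (Q.ρ (a m)) 1 1) (ha m).2.2.2.2.1
      rw [hmm]; exact (ha m').2.2.2.2.1
    have h2 : m.2.1 = m'.2.1 := by
      apply hint _ _ (Q.t (a m) 1) (ha m).2.2.2.2.2.1
      rw [hmm]; exact (ha m').2.2.2.2.2.1
    have h3 : m.2.2 = m'.2.2 := by
      apply hint _ _ (Q.t (a m) 0 - (m.1 : ℝ) * M * Q.t (a m) 1) (ha3 m)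
      have := ha3 m'
      rw [hmm, h1]; exact this
    exact Prod.ext h1 (Prod.ext h2 h3)
  set b : ℕ × ℕ × ℕ → Γ := fun m => a m * θ with hb
  have hbinj : Function.Injective b := fun m m' h => hainj (mul_right_cancel h)
  -- estimates for `b`
  have habsp : ∀ m, |(Q.ρ (b m)) 0 0| = |(Q.ρ (a m)) 0 0| * P := by
    intro m
    have e : (Q.ρ (b m)) 0 0 = (Q.ρ (a m)) 0 0 * (Q.ρ θ) 0 0 := by
      rw [hb]
      simp only [map_mul, Matrix.mul_apply, Fin.sum_univ_two]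
      rw [hT θ]; ring
    rw [e, abs_mul]
  have hratio : ∀ m, |(Q.ρ (a m)) 0 0 / (Q.ρ (a m)) 1 1| ≤ R ^ 2 := by
    intro m
    rw [abs_div, div_le_iff₀ (lt_of_lt_of_le (by positivity) (ha m).2.2.1)]
    have h1 := (ha m).2.1
    have h2 := (ha m).2.2.1
    have h3 : R ^ 2 * (1 / R) ≤ R ^ 2 * |(Q.ρ (a m)) 1 1| :=
      mul_le_mul_of_nonneg_left h2 (by positivity)
    have e : R ^ 2 * (1 / R) = R := by field_simp
    linarith
  have hs : ∀ m : ℕ × ℕ × ℕ, |(Q.ρ (b m)) 0 1 / (Q.ρ (b m)) 1 1 - (m.1 : ℝ) * M| ≤ D := by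
    intro m
    have h1 := (hright (a m)).1
    have h2 := (ha m).2.2.2.2.1
    have h3 : |(Q.ρ (a m)) 0 0 / (Q.ρ (a m)) 1 1| * D0 ≤ R ^ 2 * D0 :=
      mul_le_mul_of_nonneg_right (hratio m) hD0
    have e : (Q.ρ (b m)) 0 1 / (Q.ρ (b m)) 1 1 - (m.1 : ℝ) * M =
        ((Q.ρ (a m * θ)) 0 1 / (Q.ρ (a m * θ)) 1 1 - (Q.ρ (a m)) 0 1 / (Q.ρ (a m)) 1 1) +
        ((Q.ρ (a m)) 0 1 / (Q.ρ (a m)) 1 1 - (m.1 : ℝ) * M) := by rw [hb]; ring
    rw [e]
    refine (abs_add_le _ _).trans ?_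
    have h4 : 0 ≤ R * D0 := by positivity
    rw [hD]
    linarith
  -- the vector `v`
  have hvec : ∀ m : ℕ × ℕ × ℕ, ∃ v0 v1 : ℝ, |v0| ≤ D0 ∧ |v1| ≤ D0 ∧
      Q.t (b m) 0 - Q.t (a m) 0 = (Q.ρ (a m)) 0 0 * v0 + (Q.ρ (a m)) 0 1 * v1 ∧
      Q.t (b m) 1 - Q.t (a m) 1 = (Q.ρ (a m)) 1 1 * v1 := by
    intro m
    set v : V := (Q.ρ (a m))⁻¹ *ᵥ (Q.t (a m * θ) - Q.t (a m)) with hv
    have hvD : vn v ≤ D0 := (hright (a m)).2
    have e : Q.t (a m * θ) - Q.t (a m) = Q.ρ (a m) *ᵥ v := by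
      rw [hv, Matrix.mulVec_mulVec, mul_inv_self_of (Q.det_ρ _), Matrix.one_mulVec]
    refine ⟨v 0, v 1, (abs_le_vn v 0).trans hvD, (abs_le_vn v 1).trans hvD, ?_, ?_⟩
    · have := congrFun e 0
      simp only [Pi.sub_apply, Matrix.mulVec, dotProduct, Fin.sum_univ_two] at this
      exact this
    · have := congrFun e 1
      simp only [Pi.sub_apply, Matrix.mulVec, dotProduct, Fin.sum_univ_two] at this
      rw [hT (a m), zero_mul, zero_add] at this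
      exact this
  have hy : ∀ m : ℕ × ℕ × ℕ, |Q.t (b m) 1 - (m.2.1 : ℝ) * M| ≤ D := by
    intro m
    obtain ⟨v0, v1, h0, h1, _, e1⟩ := hvec m
    have h2 := (ha m).2.2.2.2.2.1
    have h3 := (ha m).2.2.2.1
    have e : Q.t (b m) 1 - (m.2.1 : ℝ) * M =
        (Q.ρ (a m)) 1 1 * v1 + (Q.t (a m) 1 - (m.2.1 : ℝ) * M) := by rw [← e1]; ring
    rw [e]
    refine (abs_add_le _ _).trans ?_
    rw [abs_mul]
    have h4 : |(Q.ρ (a m)) 1 1| * |v1| ≤ R * D0 := mul_le_mul h3 h1 (abs_nonneg _) hR0.le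
    have h5 : 0 ≤ R ^ 2 * D0 := by positivity
    rw [hD]
    linarith
  have hx : ∀ m : ℕ × ℕ × ℕ,
      |(Q.t (b m) 0 - (m.1 : ℝ) * M * Q.t (b m) 1) - (m.2.2 : ℝ) * M| ≤ D := by
    intro m
    obtain ⟨v0, v1, h0, h1, e0, e1⟩ := hvec m
    have h2 := ha3 m
    have hp := (ha m).2.1
    have hr1 := (ha m).2.2.1
    have hr := (ha m).2.2.2.1
    have hq := (ha m).2.2.2.2.1
    have hrne : (Q.ρ (a m)) 1 1 ≠ 0 := by
      intro h
      rw [h, abs_zero] at hr1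
      have : 0 < 1 / R := by positivity
      linarith
    have e : (Q.t (b m) 0 - (m.1 : ℝ) * M * Q.t (b m) 1) - (m.2.2 : ℝ) * M =
        (Q.ρ (a m)) 0 0 * v0 +
        (Q.ρ (a m)) 1 1 * ((Q.ρ (a m)) 0 1 / (Q.ρ (a m)) 1 1 - (m.1 : ℝ) * M) * v1 +
        (Q.t (a m) 0 - (m.1 : ℝ) * M * Q.t (a m) 1 - (m.2.2 : ℝ) * M) := by
      have h3 : (Q.ρ (a m)) 1 1 * ((Q.ρ (a m)) 0 1 / (Q.ρ (a m)) 1 1 - (m.1 : ℝ) * M) =
          (Q.ρ (a m)) 0 1 - (m.1 : ℝ) * M * (Q.ρ (a m)) 1 1 := by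
        field_simp
      rw [h3]
      linear_combination e0 - (m.1 : ℝ) * M * e1
    rw [e]
    refine (abs_add_le _ _).trans ?_
    have h4 : |(Q.ρ (a m)) 0 0 * v0 + (Q.ρ (a m)) 1 1 *
        ((Q.ρ (a m)) 0 1 / (Q.ρ (a m)) 1 1 - (m.1 : ℝ) * M) * v1| ≤ R * D0 + R ^ 2 * D0 := by
      refine (abs_add_le _ _).trans ?_
      rw [abs_mul, abs_mul, abs_mul]
      have h5 : |(Q.ρ (a m)) 0 0| * |v0| ≤ R * D0 := mul_le_mul hp h0 (abs_nonneg _) hR0.le
      have h6 : |(Q.ρ (a m)) 1 1| * |(Q.ρ (a m)) 0 1 / (Q.ρ (a m)) 1 1 - (m.1 : ℝ) * M| ≤ R ^ 2 := by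
        have := mul_le_mul hr hq (abs_nonneg _) hR0.le
        nlinarith
      have h7 : |(Q.ρ (a m)) 1 1| * |(Q.ρ (a m)) 0 1 / (Q.ρ (a m)) 1 1 - (m.1 : ℝ) * M| * |v1| ≤
          R ^ 2 * D0 := mul_le_mul h6 h1 (abs_nonneg _) (by positivity)
      linarith
    rw [hD]
    linarith
  -- contradiction
  apply hL (fun m => (Q.ρ (b m)) 0 1 / (Q.ρ (b m)) 1 1) (fun m => Q.t (b m) 1)
    (fun m => Q.t (b m) 0)
  · intro i j k _ _ _
    exact ⟨hs (i, j, k), hy (i, j, k), hx (i, j, k)⟩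
  · intro c T hT1 hT2
    have hcard : (T.image b).card = T.card := Finset.card_image_of_injective _ hbinj
    rw [← hcard]
    apply hN P (c * P ^ 2) (T.image b) hP1
    · intro z hz
      obtain ⟨m, hm, rfl⟩ := Finset.mem_image.mp hz
      have hp1 := (ha m).1
      have hp2 := (ha m).2.1
      refine ⟨?_, ?_, ?_⟩
      · rw [habsp m]
        have h1 : P / R ^ 2 ≤ (1 / R) * P := by
          rw [div_le_iff₀ (by positivity)]
          have e : 1 / R * P * R ^ 2 = P * R := by field_simp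
          rw [e]
          nlinarith
        exact h1.trans (mul_le_mul_of_nonneg_right hp1 hP0.le)
      · rw [habsp m]
        exact mul_le_mul_of_nonneg_right (hp2.trans hRR) hP0.le
      · have hfl := (hT1 m hm).2.2.2
        rw [Int.floor_eq_iff] at hfl
        obtain ⟨h1, h2⟩ := hfl
        have hP2' : 0 < P ^ 2 := by positivity
        rw [le_div_iff₀ hP2'] at h1
        rw [div_lt_iff₀ hP2'] at h2
        rw [abs_le]
        have h3 : P ^ 2 ≤ R ^ 2 * P ^ 2 := by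
          have : 1 ≤ R ^ 2 := by nlinarith
          nlinarith
        constructor <;> nlinarith
    · intro z hz z' hz'
      obtain ⟨m, hm, rfl⟩ := Finset.mem_image.mp hz
      obtain ⟨m', hm', rfl⟩ := Finset.mem_image.mp hz'
      exact hT2 m hm m' hm'

end Pool.Agent.FQI
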