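import Pool.Agent.FQI.QBasic

/-!
# Change of basis

Proof of `tri`. `n := e 0 ^ 2 + e 1 ^ 2 > 0`, `P := !![e 0, -(e 1) / n; e 1, e 0 / n]`, `det P = 1`,
`P *ᵥ ![1, 0] = e`. Put `ρ' a := P⁻¹ * ρ a * P` (a monoid homomorphism), `t' a := P⁻¹ *ᵥ t a`.
`ρ' a *ᵥ ![1, 0] = P⁻¹ (c • e) = c • ![1, 0]`, so `(ρ' a) 1 0 = 0`. The determinant is unchanged.
With `p := mn P = mn P⁻¹ ≥ 1`:
`mn (ρ s) ≤ p² mn (ρ' s)`, `vn (t s) ≤ p * vn (t' s)`, which gives `fin` and (with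
`(ρ' a)⁻¹ (t' (a s) - t' a) - t' s = P⁻¹ ((ρ a)⁻¹ (t (a s) - t a) - t s)`) `q`.
`cob`: for `w`, `h` apply `Q.cob` to `P *ᵥ w`, `P * h * P⁻¹` (determinant one):
`(P h P⁻¹)⁻¹ ρ a = P (h⁻¹ ρ' a) P⁻¹`, so `mn (h⁻¹ ρ' a) ≤ p² R`;
`(P h P⁻¹)⁻¹ (t a - P w) = P h⁻¹ (t' a - w)`, so `vn (h⁻¹ (t' a - w)) ≤ p R ≤ p² R`.
-/

set_option autoImplicit false

namespace Pool.Agent.FQI

open Matrix

variable {Γ : Type} [Group Γ]

theorem tri (Q : QuasiCoc Γ) (e : V) (he : e ≠ 0)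
    (H : ∀ a, ∃ c : ℝ, Q.ρ a *ᵥ e = c • e) :
    ∃ Q' : QuasiCoc Γ, ∀ a, (Q'.ρ a) 1 0 = 0 := by
  set n : ℝ := e 0 ^ 2 + e 1 ^ 2 with hn
  have hn0 : n ≠ 0 := by
    intro h0
    apply he
    have h1 := sq_nonneg (e 0)
    have h2 := sq_nonneg (e 1)
    have e0 : e 0 = 0 := by
      have : e 0 ^ 2 = 0 := by linarith
      exact pow_eq_zero_iff (two_ne_zero) |>.mp this
    have e1 : e 1 = 0 := by
      have : e 1 ^ 2 = 0 := by linarith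
      exact pow_eq_zero_iff (two_ne_zero) |>.mp this
    ext i
    fin_cases i
    · exact e0
    · exact e1
  set P : M2 := !![e 0, -(e 1) / n; e 1, e 0 / n] with hPdef
  have hdet : P.det = 1 := by
    rw [hPdef, Matrix.det_fin_two_of]
    have : e 0 * (e 0 / n) - -e 1 / n * e 1 = (e 0 ^ 2 + e 1 ^ 2) / n := by ring
    rw [this, ← hn, div_self hn0]
  have hPabs : |P.det| = 1 := abs_det_of_det hdet
  have hPP : P⁻¹ * P = 1 := inv_mul_self_of hPabs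
  have hPP' : P * P⁻¹ = 1 := mul_inv_self_of hPabs
  have hPe : P *ᵥ ![1, 0] = e := by
    ext i
    fin_cases i <;> simp [hPdef, Matrix.mulVec, dotProduct, Fin.sum_univ_two]
  have hPe' : P⁻¹ *ᵥ e = ![1, 0] := by
    rw [← hPe, Matrix.mulVec_mulVec, hPP, Matrix.one_mulVec]
  set p : ℝ := mn P with hp
  have hp1 : 1 ≤ p := one_le_mn' hdet
  have hp0 : 0 ≤ p := by linarith
  have hpi : mn P⁻¹ = p := mn_inv' hdet
  have hback : ∀ A : M2, A = P * (P⁻¹ * A * P) * P⁻¹ := by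
    intro A
    calc A = (P * P⁻¹) * A * (P * P⁻¹) := by rw [hPP', one_mul, mul_one]
      _ = _ := by simp only [Matrix.mul_assoc]
  have hinv : ∀ A : M2, (P⁻¹ * A * P)⁻¹ = P⁻¹ * A⁻¹ * P := by
    intro A
    rw [Matrix.mul_inv_rev, Matrix.mul_inv_rev, inv_inv_of hPabs, Matrix.mul_assoc]
  have hinv' : ∀ A : M2, (P * A * P⁻¹)⁻¹ = P * A⁻¹ * P⁻¹ := by
    intro A
    rw [Matrix.mul_inv_rev, Matrix.mul_inv_rev, inv_inv_of hPabs, Matrix.mul_assoc]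
  have hb1 : ∀ (A : M2) (R : ℝ), mn (P⁻¹ * A * P) ≤ R → mn A ≤ p * R * p := by
    intro A R hA
    rw [hback A]
    calc mn (P * (P⁻¹ * A * P) * P⁻¹) ≤ mn (P * (P⁻¹ * A * P)) * mn P⁻¹ := mn_mul_le _ _
      _ ≤ (mn P * mn (P⁻¹ * A * P)) * mn P⁻¹ :=
          mul_le_mul_of_nonneg_right (mn_mul_le _ _) (mn_nonneg _)
      _ ≤ p * R * p := by
          rw [hpi]
          exact mul_le_mul_of_nonneg_right (mul_le_mul_of_nonneg_left hA hp0) hp0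
  have hb2 : ∀ (A : M2) (R : ℝ), mn A ≤ R → mn (P⁻¹ * A * P) ≤ p * R * p := by
    intro A R hA
    calc mn (P⁻¹ * A * P) ≤ mn (P⁻¹ * A) * mn P := mn_mul_le _ _
      _ ≤ (mn P⁻¹ * mn A) * mn P :=
          mul_le_mul_of_nonneg_right (mn_mul_le _ _) (mn_nonneg _)
      _ ≤ p * R * p := by
          rw [hpi]
          exact mul_le_mul_of_nonneg_right (mul_le_mul_of_nonneg_left hA hp0) hp0
  have hb3 : ∀ (v : V) (R : ℝ), vn (P⁻¹ *ᵥ v) ≤ R → vn v ≤ p * R := by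
    intro v R hv
    have : v = P *ᵥ (P⁻¹ *ᵥ v) := by
      rw [Matrix.mulVec_mulVec, hPP', Matrix.one_mulVec]
    rw [this]
    exact (vn_mulVec_le _ _).trans (mul_le_mul_of_nonneg_left hv hp0)
  have hb4 : ∀ (v : V) (R : ℝ), vn v ≤ R → vn (P⁻¹ *ᵥ v) ≤ p * R := by
    intro v R hv
    refine (vn_mulVec_le _ _).trans ?_
    rw [hpi]
    exact mul_le_mul_of_nonneg_left hv hp0
  let ρ' : Γ →* M2 :=
    { toFun := fun a => P⁻¹ * Q.ρ a * P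
      map_one' := by
        show P⁻¹ * Q.ρ 1 * P = 1
        rw [map_one, Matrix.mul_one, hPP]
      map_mul' := by
        intro a b
        show P⁻¹ * Q.ρ (a * b) * P = P⁻¹ * Q.ρ a * P * (P⁻¹ * Q.ρ b * P)
        rw [map_mul]
        calc P⁻¹ * (Q.ρ a * Q.ρ b) * P = P⁻¹ * Q.ρ a * 1 * (Q.ρ b * P) := by
              simp only [Matrix.mul_assoc, Matrix.one_mul]
          _ = P⁻¹ * Q.ρ a * (P * P⁻¹) * (Q.ρ b * P) := by rw [hPP']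
          _ = _ := by simp only [Matrix.mul_assoc] }
  have hρ' : ∀ a, ρ' a = P⁻¹ * Q.ρ a * P := fun a => rfl
  refine ⟨{ ρ := ρ', t := fun a => P⁻¹ *ᵥ Q.t a, det_ρ := ?_, q := ?_, fin := ?_, cob := ?_ }, ?_⟩
  · intro a
    rw [hρ']
    exact abs_det_mul (abs_det_mul (abs_det_inv hPabs) (Q.det_ρ a)) hPabs
  · intro R
    obtain ⟨C, hC⟩ := Q.q (p * R * p)
    refine ⟨p * C, ?_⟩
    intro a s hs
    rw [hρ'] at hs
    have h1 := hC a s (hb1 _ _ hs)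
    have e1 : (ρ' a)⁻¹ *ᵥ (P⁻¹ *ᵥ Q.t (a * s) - P⁻¹ *ᵥ Q.t a) - P⁻¹ *ᵥ Q.t s =
        P⁻¹ *ᵥ ((Q.ρ a)⁻¹ *ᵥ (Q.t (a * s) - Q.t a) - Q.t s) := by
      have e3 : P⁻¹ * (Q.ρ a)⁻¹ * P * P⁻¹ = P⁻¹ * (Q.ρ a)⁻¹ := by
        rw [Matrix.mul_assoc, hPP', Matrix.mul_one]
      rw [hρ', hinv, ← Matrix.mulVec_sub, Matrix.mulVec_mulVec, e3, ← Matrix.mulVec_mulVec,
        ← Matrix.mulVec_sub]
    show vn ((ρ' a)⁻¹ *ᵥ (P⁻¹ *ᵥ Q.t (a * s) - P⁻¹ *ᵥ Q.t a) - P⁻¹ *ᵥ Q.t s) ≤ p * C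
    rw [e1]
    exact hb4 _ _ h1
  · intro R
    refine (Q.fin (max (p * R * p) (p * R))).subset ?_
    rintro s ⟨h1, h2⟩
    rw [hρ'] at h1
    exact ⟨(hb1 _ _ h1).trans (le_max_left _ _), (hb3 _ _ h2).trans (le_max_right _ _)⟩
  · obtain ⟨R, hR⟩ := Q.cob
    refine ⟨p * R * p, ?_⟩
    intro w h hh
    have hh' : (P * h * P⁻¹).det = 1 := by
      rw [Matrix.det_mul, Matrix.det_mul, hdet, hh, det_inv_of hdet]; norm_num
    obtain ⟨a, ha⟩ := hR (P *ᵥ w) (P * h * P⁻¹) hh'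
    have hR0 : 0 ≤ R := NR_nonneg ha
    refine ⟨a, ?_, ?_⟩
    · have e1 : h⁻¹ * ρ' a = P⁻¹ * ((P * h * P⁻¹)⁻¹ * Q.ρ a) * P := by
        rw [hρ', hinv']
        calc h⁻¹ * (P⁻¹ * Q.ρ a * P) = 1 * h⁻¹ * P⁻¹ * Q.ρ a * P := by
              simp only [Matrix.mul_assoc, Matrix.one_mul]
          _ = (P⁻¹ * P) * h⁻¹ * P⁻¹ * Q.ρ a * P := by rw [hPP]
          _ = _ := by simp only [Matrix.mul_assoc]
      rw [e1]
      exact hb2 _ _ ha.1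
    · have e1 : h⁻¹ *ᵥ (P⁻¹ *ᵥ Q.t a - w) =
          P⁻¹ *ᵥ ((P * h * P⁻¹)⁻¹ *ᵥ (Q.t a - P *ᵥ w)) := by
        have e2 : P⁻¹ *ᵥ Q.t a - w = P⁻¹ *ᵥ (Q.t a - P *ᵥ w) := by
          rw [Matrix.mulVec_sub, Matrix.mulVec_mulVec, hPP, Matrix.one_mulVec]
        rw [e2, hinv', Matrix.mulVec_mulVec, Matrix.mulVec_mulVec]
        congr 1
        calc h⁻¹ * P⁻¹ = 1 * h⁻¹ * P⁻¹ := by rw [Matrix.one_mul]
          _ = (P⁻¹ * P) * h⁻¹ * P⁻¹ := by rw [hPP]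
          _ = _ := by simp only [Matrix.mul_assoc]
      show vn (h⁻¹ *ᵥ (P⁻¹ *ᵥ Q.t a - w)) ≤ p * R * p
      rw [e1]
      refine (hb4 _ _ ha.2).trans ?_
      have : 0 ≤ p * R := mul_nonneg hp0 hR0
      nlinarith
  · intro a
    show (ρ' a) 1 0 = 0
    obtain ⟨c, hc⟩ := H a
    have e1 : ρ' a *ᵥ ![1, 0] = c • ![1, 0] := by
      rw [hρ', ← Matrix.mulVec_mulVec, hPe, ← Matrix.mulVec_mulVec, hc, Matrix.mulVec_smul, hPe']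
    have e2 := congrFun e1 1
    simpa [Matrix.mulVec, dotProduct, Fin.sum_univ_two] using e2

end Pool.Agent.FQI
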