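import Pool.Agent.FQI.Case2
import Pool.Agent.FQI.Tri
import Pool.Agent.FQI.NoBorel

/-!
# There is no `QuasiCoc` (complete, assembled by helper55)
-/

set_option autoImplicit false

namespace Pool.Agent.FQI

open Matrix

variable {Γ : Type} [Group Γ]

theorem no_quasiCoc (Q : QuasiCoc Γ) : False := by
  obtain ⟨e, he, H⟩ := common_line Q
  obtain ⟨Q', hQ'⟩ := tri Q e he H
  exact no_borel Q' hQ'

end Pool.Agent.FQI
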