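import Pool.Agent.FQI.Quasi
import Pool.Agent.FQI.NoQuasi
import Pool.Agent.FQI.KBdd
import Pool.Agent.FQI.KBig

/-!
# The final theorem (complete, assembled by helper55)
-/

set_option autoImplicit false

namespace Pool.Agent.FQI

open Matrix

open Pointwise in
/-- No group `Γ` admits a quasi-isometry to `ℝ² ⋊ SL₂(ℝ)` whose left translations coarsely preserve
the `ℝ²` fibres. -/
theorem final (Γ : Type) (_ : Group Γ) (S : Finset Γ) (K : Set M3) (f : Γ → M3) (L C : ℕ)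
    (hS : ∀ g : Γ, ∃ n : ℕ, g ∈ ((S : Set Γ) ^ n))
    (hK : IsCompact K) (h1 : (1 : M3) ∈ K) (hinv : ∀ M ∈ K, M⁻¹ ∈ K)
    (haff : ∀ M ∈ K, aff M) (hgen : ∀ M : M3, aff M → ∃ n : ℕ, M ∈ K ^ n)
    (hf : ∀ a, aff (f a))
    (q1 : ∀ (a b : Γ) (n : ℕ), a⁻¹ * b ∈ ((S : Set Γ) ^ n) → (f a)⁻¹ * f b ∈ K ^ (L * n + C))
    (q2 : ∀ (a b : Γ) (n : ℕ), (f a)⁻¹ * f b ∈ K ^ n → a⁻¹ * b ∈ ((S : Set Γ) ^ (L * n + C)))
    (q3 : ∀ M : M3, aff M → ∃ a : Γ, (f a)⁻¹ * M ∈ K ^ C)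
    (fp : ∀ n : ℕ, ∃ m : ℕ, ∀ γ a b : Γ, (∃ v : V, (f a)⁻¹ * f b * mk3 v 1 ∈ K ^ n) →
      ∃ v : V, (f (γ * a))⁻¹ * f (γ * b) * mk3 v 1 ∈ K ^ m) : False := by
  classical
  have hdet1 : (1 : M2).det = 1 := Matrix.det_one
  have hd : ∀ a, (gp (f a)).det = 1 := fun a => det_gp (hf a)
  have hgp : ∀ a b, gp ((f a)⁻¹ * f b) = (gp (f a))⁻¹ * gp (f b) :=
    fun a b => gp_inv_mul (hf a) (hf b)
  have hup : ∀ a b, up ((f a)⁻¹ * f b) = (gp (f a))⁻¹ *ᵥ (up (f b) - up (f a)) :=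
    fun a b => up_inv_mul (hf a) (hf b)
  refine Nonempty.elim (quasiCoc_of_fibQI (Γ := Γ)
    ⟨fun a => up (f a), fun a => gp (f a), hd, ?_, ?_, ?_, ?_⟩) no_quasiCoc
  · intro s
    obtain ⟨n, hn⟩ := hS s
    obtain ⟨R, hR⟩ := K_bdd K hK (L * n + C)
    refine ⟨R, fun a => ?_⟩
    have h := hR _ (q1 a (a * s) n (by rwa [inv_mul_cancel_left]))
    rw [hgp, hup] at h
    exact h
  · intro R
    obtain ⟨N, hN⟩ := K_big K hK h1 hinv haff hgen R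
    refine ⟨S ^ (L * N + C), fun a b h => ?_⟩
    have h2 : (f a)⁻¹ * f b ∈ K ^ N := by
      refine hN _ (aff_mul (aff_inv (hf a)) (hf b)) ?_ ?_
      · rw [hgp]; exact h.1
      · rw [hup]; exact h.2
    have h3 := q2 a b N h2
    rw [← Finset.coe_pow] at h3
    exact h3
  · obtain ⟨R, hR⟩ := K_bdd K hK C
    refine ⟨R * R, fun w h hh => ?_⟩
    obtain ⟨a, ha⟩ := q3 (mk3 w h) (aff_mk3 w h hh)
    refine ⟨a, NR_symm (hd a) hh ?_⟩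
    have h4 := hR _ ha
    rw [gp_inv_mul (hf a) (aff_mk3 w h hh), up_inv_mul (hf a) (aff_mk3 w h hh), gp_mk3,
      up_mk3] at h4
    exact h4
  · intro R
    obtain ⟨N, hN⟩ := K_big K hK h1 hinv haff hgen (max R 0)
    obtain ⟨m, hm⟩ := fp N
    obtain ⟨R', hR'⟩ := K_bdd K hK m
    refine ⟨R', fun γ a b h => ?_⟩
    have hab : aff ((f a)⁻¹ * f b) := aff_mul (aff_inv (hf a)) (hf b)
    obtain ⟨v, hv⟩ := hm γ a b ⟨-((gp ((f a)⁻¹ * f b))⁻¹ *ᵥ up ((f a)⁻¹ * f b)), by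
      refine hN _ (aff_mul hab (aff_mk3 _ _ hdet1)) ?_ ?_
      · rw [gp_mul (aff_mk3 _ _ hdet1), gp_mk3, Matrix.mul_one, hgp]
        exact h.trans (le_max_left _ _)
      · rw [up_mul (aff_mk3 _ _ hdet1), up_mk3, Matrix.mulVec_neg, Matrix.mulVec_mulVec,
          mul_inv_self_of (abs_det_of_det (det_gp hab)), Matrix.one_mulVec, neg_add_cancel,
          vn_zero]
        exact le_max_right _ _⟩
    have h5 := (hR' _ hv).1
    rw [gp_mul (aff_mk3 _ _ hdet1), gp_mk3, Matrix.mul_one, hgp] at h5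
    exact h5

end Pool.Agent.FQI
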