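import Pool.Agent.FQI.Norm

/-!
# The affine group as `3 × 3` matrices
-/

set_option autoImplicit false

namespace Pool.Agent.FQI

open Matrix

abbrev M3 := Matrix (Fin 3) (Fin 3) ℝ

/-- `M` is an element of `ℝ² ⋊ SL₂(ℝ)`, written as a `3 × 3` matrix. -/
def aff (M : M3) : Prop := M 2 0 = 0 ∧ M 2 1 = 0 ∧ M 2 2 = 1 ∧ M.det = 1

/-- linear part -/
def gp (M : M3) : M2 := !![M 0 0, M 0 1; M 1 0, M 1 1]

/-- translation part -/
def up (M : M3) : V := ![M 0 2, M 1 2]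

/-- the matrix with given parts -/
def mk3 (w : V) (h : M2) : M3 := !![h 0 0, h 0 1, w 0; h 1 0, h 1 1, w 1; 0, 0, 1]

theorem det_gp {M : M3} (h : aff M) : (gp M).det = 1 := by
  obtain ⟨h0, h1, h2, h3⟩ := h
  rw [Matrix.det_fin_three] at h3
  rw [h0, h1, h2] at h3
  rw [Matrix.det_fin_two]
  simp only [gp, Matrix.of_apply, Matrix.cons_val', Matrix.cons_val_zero, Matrix.cons_val_one,
    Matrix.cons_val_fin_one]
  linarith

theorem gp_mk3 (w : V) (h : M2) : gp (mk3 w h) = h := by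
  ext i j
  fin_cases i <;> fin_cases j <;> simp [gp, mk3]

theorem up_mk3 (w : V) (h : M2) : up (mk3 w h) = w := by
  ext i
  fin_cases i <;> simp [up, mk3]

theorem aff_mk3 (w : V) (h : M2) (hh : h.det = 1) : aff (mk3 w h) := by
  refine ⟨by simp [mk3], by simp [mk3], by simp [mk3], ?_⟩
  rw [Matrix.det_fin_two] at hh
  rw [Matrix.det_fin_three]
  simp [mk3]
  linarith

theorem mk3_gp_up {M : M3} (h : aff M) : mk3 (up M) (gp M) = M := by
  obtain ⟨h0, h1, h2, h3⟩ := h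
  ext i j
  fin_cases i <;> fin_cases j <;> simp [gp, mk3, up, h0, h1, h2]

theorem gp_mul {A B : M3} (hB : aff B) : gp (A * B) = gp A * gp B := by
  obtain ⟨h0, h1, h2, h3⟩ := hB
  ext i j
  fin_cases i <;> fin_cases j <;>
    simp [gp, Matrix.mul_apply, Fin.sum_univ_succ, h0, h1, h2]

theorem up_mul {A B : M3} (hB : aff B) : up (A * B) = gp A *ᵥ up B + up A := by
  obtain ⟨h0, h1, h2, h3⟩ := hB
  ext i
  fin_cases i <;>
    simp [gp, up, Matrix.mul_apply, Matrix.mulVec, dotProduct, Fin.sum_univ_succ, h0, h1, h2] <;>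
    ring

theorem aff_mul {A B : M3} (hA : aff A) (hB : aff B) : aff (A * B) := by
  obtain ⟨h0, h1, h2, h3⟩ := hA
  obtain ⟨k0, k1, k2, k3⟩ := hB
  refine ⟨?_, ?_, ?_, ?_⟩
  · simp [Matrix.mul_apply, Fin.sum_univ_succ, h0, h1, h2, k0]
  · simp [Matrix.mul_apply, Fin.sum_univ_succ, h0, h1, h2, k1]
  · simp [Matrix.mul_apply, Fin.sum_univ_succ, h0, h1, h2, k2]
  · rw [Matrix.det_mul, h3, k3, one_mul]

theorem aff_one : aff (1 : M3) := by
  refine ⟨by simp, by simp, by simp, by simp⟩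

theorem mk3_mul (w w' : V) (h h' : M2) : mk3 w h * mk3 w' h' = mk3 (h *ᵥ w' + w) (h * h') := by
  ext i j
  fin_cases i <;> fin_cases j <;>
    simp [mk3, Matrix.mul_apply, Matrix.mulVec, dotProduct, Fin.sum_univ_succ] <;> ring

theorem mk3_one : mk3 0 1 = 1 := by
  ext i j
  fin_cases i <;> fin_cases j <;> simp [mk3]

theorem inv_mk3 (w : V) (h : M2) (hh : h.det = 1) :
    (mk3 w h)⁻¹ = mk3 (-(h⁻¹ *ᵥ w)) h⁻¹ := by
  refine Matrix.inv_eq_left_inv ?_
  rw [mk3_mul, inv_mul_self_of (abs_det_of_det hh), ← sub_eq_add_neg, sub_self, mk3_one]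

theorem aff_inv {A : M3} (hA : aff A) : aff A⁻¹ := by
  rw [← mk3_gp_up hA, inv_mk3 _ _ (det_gp hA)]
  exact aff_mk3 _ _ (det_inv_of (det_gp hA))

theorem gp_inv {A : M3} (hA : aff A) : gp A⁻¹ = (gp A)⁻¹ := by
  conv_lhs => rw [← mk3_gp_up hA]
  rw [inv_mk3 _ _ (det_gp hA), gp_mk3]

theorem up_inv {A : M3} (hA : aff A) : up A⁻¹ = -((gp A)⁻¹ *ᵥ up A) := by
  conv_lhs => rw [← mk3_gp_up hA]
  rw [inv_mk3 _ _ (det_gp hA), up_mk3]

theorem gp_inv_mul {A B : M3} (hA : aff A) (hB : aff B) :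
    gp (A⁻¹ * B) = (gp A)⁻¹ * gp B := by
  rw [gp_mul hB, gp_inv hA]

theorem up_inv_mul {A B : M3} (hA : aff A) (hB : aff B) :
    up (A⁻¹ * B) = (gp A)⁻¹ *ᵥ (up B - up A) := by
  rw [up_mul hB, gp_inv hA, up_inv hA, Matrix.mulVec_sub, sub_eq_add_neg]

open Pointwise in
theorem aff_of_mem_pow {K : Set M3} (hK : ∀ M ∈ K, aff M) (n : ℕ) :
    ∀ M ∈ K ^ n, aff M := by
  induction n with
  | zero =>
    intro M hM
    rw [pow_zero, Set.mem_one] at hM
    rw [hM]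
    exact aff_one
  | succ n ih =>
    intro M hM
    rw [pow_succ, Set.mem_mul] at hM
    obtain ⟨x, hx, y, hy, rfl⟩ := hM
    exact aff_mul (ih x hx) (hK y hy)

end Pool.Agent.FQI
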