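import Pool.Agent.FQI.ShFib

/-!
# The quasi-cocycle identity

Proofs. `H1 : vn ((g a)⁻¹ *ᵥ (sh Q γ v a - A γ *ᵥ v)) ≤ C`,
`H2 : mn ((g a)⁻¹ * A γ * g (γ⁻¹ * a)) ≤ C`.
* `gA_near`: `a = γ` in `H2`: `mn ((g γ)⁻¹ * A γ * g 1) ≤ C`, so
  `mn ((g γ)⁻¹ * A γ) ≤ C * mn ((g 1)⁻¹) = C * mn (g 1)`.
* `q_of`: given `a`, `s` with `mn (A s) ≤ R`. Put `w := u s - u 1`. Then
  `F Q a w a = a * pt Q (u 1 + w) (g 1) = a * pt Q (u s) (g 1)` (as `a⁻¹ * a = 1`).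
  `mn (g s) ≤ mn (A s) * mn ((A s)⁻¹ * g s) ≤ R * C'` (`gA_near`, `mn_inv_mul_comm`), so
  `mn ((g 1)⁻¹ * g s)` is bounded and by `near_of_NR` (`NR_of_mn`) `pt Q (u s) (g 1)` is near `s`;
  `near_left` for `a`: `F Q a w a` is `R1`-near `a * s`. With `F_fib`:
  `vn ((g a)⁻¹ *ᵥ (u (a * s) - u (F Q a w a)))` is bounded. By `H1` (`γ = a`, `v = w`, point `a`):
  `vn ((g a)⁻¹ *ᵥ (u (F Q a w a) - u a - A a *ᵥ w)) ≤ C`. Add: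
  `vn ((g a)⁻¹ *ᵥ (u (a * s) - u a - A a *ᵥ w))` is bounded, and by `gA_near`, `vn_change`:
  `vn ((A a)⁻¹ *ᵥ (u (a * s) - u a) - w)` is bounded (`(A a)⁻¹ *ᵥ (A a *ᵥ w) = w`).
-/

set_option autoImplicit false

namespace Pool.Agent.FQI

open Matrix

variable {Γ : Type} [Group Γ]

theorem gA_near (Q : FibQI Γ) (A : Γ → M2) (C : ℝ)
    (H2 : ∀ γ a, mn ((Q.g a)⁻¹ * A γ * Q.g (γ⁻¹ * a)) ≤ C) :
    ∃ C' : ℝ, ∀ γ, mn ((Q.g γ)⁻¹ * A γ) ≤ C' := by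
  refine ⟨C * mn (Q.g 1), fun γ => ?_⟩
  have h1 := H2 γ γ
  rw [inv_mul_cancel] at h1
  have hd := abs_det_of_det (Q.det_g 1)
  have e : (Q.g γ)⁻¹ * A γ = ((Q.g γ)⁻¹ * A γ * Q.g 1) * (Q.g 1)⁻¹ := by
    rw [Matrix.mul_assoc, mul_inv_self_of hd, Matrix.mul_one]
  rw [e]
  refine (mn_mul_le _ _).trans ?_
  rw [mn_inv hd]
  exact mul_le_mul_of_nonneg_right h1 (mn_nonneg _)

theorem q_of (Q : FibQI Γ) (A : Γ → M2) (C : ℝ) (hA : ∀ γ, |(A γ).det| = 1)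
    (H1 : ∀ γ v a, vn ((Q.g a)⁻¹ *ᵥ (sh Q γ v a - A γ *ᵥ v)) ≤ C)
    (H2 : ∀ γ a, mn ((Q.g a)⁻¹ * A γ * Q.g (γ⁻¹ * a)) ≤ C) (R : ℝ) :
    ∃ C' : ℝ, ∀ a s, mn (A s) ≤ R →
      vn ((A a)⁻¹ *ᵥ (Q.u (a * s) - Q.u a) - (Q.u s - Q.u 1)) ≤ C' := by
  obtain ⟨C1, hC1⟩ := gA_near Q A C H2
  obtain ⟨R3, hR3⟩ := near_of_NR Q (mn (Q.g 1) * (R * C1))
  obtain ⟨R4, hR4⟩ := near_left Q R3
  obtain ⟨Rf, hRf⟩ := F_fib Q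
  have hC1' : ∀ γ, mn ((A γ)⁻¹ * Q.g γ) ≤ C1 := by
    intro γ
    rw [mn_inv_mul_comm (hA γ) (abs_det_of_det (Q.det_g γ))]
    exact hC1 γ
  have hC10 : 0 ≤ C1 := (mn_nonneg _).trans (hC1 1)
  refine ⟨C1 * (Rf * R4 + C), fun a s hs => ?_⟩
  have hR0 : 0 ≤ R := (mn_nonneg _).trans hs
  -- the size of `g s`
  have hgs : mn (Q.g s) ≤ R * C1 := by
    have e : Q.g s = A s * ((A s)⁻¹ * Q.g s) := by
      rw [← Matrix.mul_assoc, mul_inv_self_of (hA s), Matrix.one_mul]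
    rw [e]
    exact (mn_mul_le _ _).trans (mul_le_mul hs (hC1' s) (mn_nonneg _) hR0)
  have h1s : mn ((Q.g 1)⁻¹ * Q.g s) ≤ mn (Q.g 1) * (R * C1) := by
    refine (mn_mul_le _ _).trans ?_
    rw [mn_inv' (Q.det_g 1)]
    exact mul_le_mul_of_nonneg_left hgs (mn_nonneg _)
  have hFa : F Q a (Q.u s - Q.u 1) a = a * pt Q (Q.u s) (Q.g 1) := by
    unfold F
    rw [inv_mul_cancel, add_sub_cancel]
  have hnear : near Q R4 (F Q a (Q.u s - Q.u 1) a) (a * s) := by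
    rw [hFa]
    exact hR4 a _ _ (hR3 _ _ _ (Q.det_g 1) (NR_of_mn h1s))
  set w : V := Q.u s - Q.u 1 with hw
  set f : Γ := F Q a w a with hf
  have h2 : vn ((Q.g a)⁻¹ *ᵥ (Q.u (a * s) - Q.u f)) ≤ Rf * R4 := by
    refine (vn_change (h' := Q.g f) (abs_det_of_det (Q.det_g f)) _).trans ?_
    have h3 : mn ((Q.g a)⁻¹ * Q.g f) ≤ Rf := hRf a w a
    exact mul_le_mul h3 hnear.2 (vn_nonneg _) ((mn_nonneg _).trans h3)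
  have h4 : vn ((Q.g a)⁻¹ *ᵥ (sh Q a w a - A a *ᵥ w)) ≤ C := H1 a w a
  have h5 : vn ((Q.g a)⁻¹ *ᵥ (Q.u (a * s) - Q.u a - A a *ᵥ w)) ≤ Rf * R4 + C := by
    have e : Q.u (a * s) - Q.u a - A a *ᵥ w =
        (Q.u (a * s) - Q.u f) + (sh Q a w a - A a *ᵥ w) := by
      unfold sh
      rw [← hf]
      abel
    rw [e, Matrix.mulVec_add]
    exact (vn_add_le _ _).trans (add_le_add h2 h4)
  have h6 : (A a)⁻¹ *ᵥ (Q.u (a * s) - Q.u a) - w =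
      (A a)⁻¹ *ᵥ (Q.u (a * s) - Q.u a - A a *ᵥ w) := by
    rw [Matrix.mulVec_sub (A a)⁻¹ (Q.u (a * s) - Q.u a) (A a *ᵥ w), Matrix.mulVec_mulVec,
      inv_mul_self_of (hA a), Matrix.one_mulVec]
  rw [h6]
  refine (vn_change (h' := Q.g a) (abs_det_of_det (Q.det_g a)) _).trans ?_
  exact mul_le_mul (hC1' a) h5 (vn_nonneg _) hC10

end Pool.Agent.FQI
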