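import Pool.Agent.FQI.Norm

/-!
# Two backward steps in `SL₂(ℝ)`

Proof of `back_comm`. Multiply `H` out: `α β α⁻¹ β⁻¹` commutes with `α`, hence so does
`α⁻¹ (α β α⁻¹ β⁻¹) = β α⁻¹ β⁻¹` and its inverse `γ := β α β⁻¹`. Let `ν := α - (tr α / 2) • 1`
(traceless), `ν² = D • 1` with `D = (tr α)² / 4 - 1 ≠ 0` (as `det α = 1`, `tr α ≠ ± 2`);
`ν' := β ν β⁻¹ = γ - (tr α / 2) • 1` is traceless and commutes with `ν`. Two commuting traceless
`2 × 2` matrices with `ν ≠ 0` are proportional: `ν' = c • ν` (compare entries: for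
`ν = !![p, q; r, -p]`, `ν' = !![x, y; z, -x]` commutation says `q z = r y`, `p y = q x`, `r x = p z`).
Squaring, `D = c² D`, so `c = ± 1`. If `c = 1` then `β ν = ν β` and `β` commutes with
`α`. If `c = -1` then `β ν = - ν β`; multiply by `ν` on the right: `D • β = β ν ν = - ν β ν`,
take traces: `D * tr β = - tr (ν β ν) = - tr (β ν ν) = - D * tr β`, so `tr β = 0`, contradiction.
(Alternatively: everything can be done by coordinates, `nlinarith`/`linear_combination`.)

Proof of `back_eig`. `α β α⁻¹ β⁻¹ e = c e`, so `β α⁻¹ β⁻¹ e = c α⁻¹ e = c e` (`α⁻¹ e = e`). Put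
`x := β⁻¹ e ≠ 0`: `α⁻¹ x = c β⁻¹ e = c x`, i.e. `x` is an eigenvector of `α` (`c ≠ 0` because `α⁻¹` is
invertible, `α x = c⁻¹ x`). As `det α = 1`, `tr α = 2`, the characteristic polynomial is
`(X - 1)²`, so `c = 1`, `α x = x`. If `x` and `e` were linearly independent, `α = 1`, contradiction.
So `β⁻¹ e = x = c' e` with `c' ≠ 0`, and `β e = c'⁻¹ e`.
-/

set_option autoImplicit false

namespace Pool.Agent.FQI

open Matrix

/-- Two commuting traceless matrices, the first one nonzero, are proportional. -/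
theorem prop_of_comm (p q r x y z : ℝ) (h1 : q * z = r * y) (h2 : p * y = q * x)
    (h3 : r * x = p * z) (h0 : p ≠ 0 ∨ q ≠ 0 ∨ r ≠ 0) :
    ∃ c : ℝ, x = c * p ∧ y = c * q ∧ z = c * r := by
  rcases h0 with h | h | h
  · refine ⟨x / p, by field_simp, ?_, ?_⟩
    · field_simp; linarith
    · field_simp; linarith
  · refine ⟨y / q, ?_, by field_simp, ?_⟩
    · field_simp; linarith
    · field_simp; linarith
  · refine ⟨z / r, ?_, ?_, by field_simp⟩
    · field_simp; linarith
    · field_simp; linarith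

theorem back_comm (α β : M2) (hα : α.det = 1) (hβ : β.det = 1) (h1 : α.trace ≠ 2)
    (h2 : α.trace ≠ -2) (h3 : β.trace ≠ 0) (H : Commute (α * β * α⁻¹ * β⁻¹) α) :
    Commute β α := by
  have hα' := abs_det_of_det hα
  have hβ' := abs_det_of_det hβ
  have ai : α⁻¹ * α = 1 := inv_mul_self_of hα'
  have ia : α * α⁻¹ = 1 := mul_inv_self_of hα'
  have bi : β⁻¹ * β = 1 := inv_mul_self_of hβ'
  have ib : β * β⁻¹ = 1 := mul_inv_self_of hβ'
  -- `γ := β α β⁻¹` commutes with `α`
  have hc1 : Commute (β * α⁻¹ * β⁻¹) α := by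
    have e : β * α⁻¹ * β⁻¹ = α⁻¹ * (α * β * α⁻¹ * β⁻¹) := by
      simp only [← Matrix.mul_assoc]
      rw [ai, Matrix.one_mul]
    have hc : Commute α⁻¹ α := by
      show α⁻¹ * α = α * α⁻¹
      rw [ai, ia]
    rw [e]
    exact hc.mul_left H
  have hc2 : Commute (β * α * β⁻¹) α := by
    have e1 : (β * α * β⁻¹) * (β * α⁻¹ * β⁻¹) = 1 := by
      calc (β * α * β⁻¹) * (β * α⁻¹ * β⁻¹) = β * α * (β⁻¹ * β) * α⁻¹ * β⁻¹ := by
            simp only [Matrix.mul_assoc]
        _ = 1 := by rw [bi, Matrix.mul_one, Matrix.mul_assoc β, ia, Matrix.mul_one, ib]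
    have e2 : (β * α⁻¹ * β⁻¹) * (β * α * β⁻¹) = 1 := by
      calc (β * α⁻¹ * β⁻¹) * (β * α * β⁻¹) = β * α⁻¹ * (β⁻¹ * β) * α * β⁻¹ := by
            simp only [Matrix.mul_assoc]
        _ = 1 := by rw [bi, Matrix.mul_one, Matrix.mul_assoc β, ai, Matrix.mul_one, ib]
    set g := β * α * β⁻¹ with hg
    set k := β * α⁻¹ * β⁻¹ with hk
    show g * α = α * g
    have h := hc1.eq
    calc g * α = g * α * (k * g) := by rw [e2, Matrix.mul_one]
      _ = g * (α * k) * g := by simp only [Matrix.mul_assoc]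
      _ = g * (k * α) * g := by rw [h]
      _ = (g * k) * α * g := by simp only [Matrix.mul_assoc]
      _ = α * g := by rw [e1, Matrix.one_mul]
  have hgb : β * α * β⁻¹ * β = β * α := by
    rw [Matrix.mul_assoc, bi, Matrix.mul_one]
  set γ := β * α * β⁻¹ with hγ
  have htr : γ.trace = α.trace := by
    rw [hγ, Matrix.trace_mul_comm, ← Matrix.mul_assoc, bi, Matrix.one_mul]
  have hdet : γ.det = 1 := by
    rw [hγ, Matrix.det_mul, Matrix.det_mul, hα, hβ, det_inv_of hβ]; norm_num
  -- coordinates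
  rw [Matrix.trace_fin_two] at htr h1 h2 h3
  rw [Matrix.trace_fin_two] at htr
  rw [Matrix.det_fin_two] at hα hdet
  have hcomm := hc2.eq
  have c00 := congrFun (congrFun hcomm 0) 0
  have c01 := congrFun (congrFun hcomm 0) 1
  have c10 := congrFun (congrFun hcomm 1) 0
  simp only [Matrix.mul_apply, Fin.sum_univ_two] at c00 c01 c10
  have g00 := congrFun (congrFun hgb 0) 0
  have g01 := congrFun (congrFun hgb 0) 1
  have g10 := congrFun (congrFun hgb 1) 0
  have g11 := congrFun (congrFun hgb 1) 1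
  simp only [Matrix.mul_apply, Fin.sum_univ_two] at g00 g01 g10 g11
  set a := α 0 0
  set b := α 0 1
  set c := α 1 0
  set d := α 1 1
  have hD : (a + d) ^ 2 / 4 - 1 ≠ 0 := by
    intro h
    have h' : (a + d - 2) * (a + d + 2) = 0 := by linear_combination 4 * h
    rcases mul_eq_zero.mp h' with h' | h'
    · exact h1 (by linarith)
    · exact h2 (by linarith)
  have hne : (a - d) / 2 ≠ 0 ∨ b ≠ 0 ∨ c ≠ 0 := by
    by_contra hcon
    push Not at hcon
    obtain ⟨hp, hq, hr⟩ := hcon
    apply hD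
    have had : a = d := by linarith
    rw [hq, had] at hα
    rw [had]
    linear_combination hα
  obtain ⟨t, tx, ty, tz⟩ := prop_of_comm ((a - d) / 2) b c ((γ 0 0 - γ 1 1) / 2) (γ 0 1) (γ 1 0)
    (by linear_combination -c00) (by linear_combination (-1/2) * c01)
    (by linear_combination (-1/2) * c10) hne
  have hsq : ((a - d) / 2) ^ 2 + b * c = (a + d) ^ 2 / 4 - 1 := by linear_combination -hα
  have hsq' : ((γ 0 0 - γ 1 1) / 2) ^ 2 + γ 0 1 * γ 1 0 = (a + d) ^ 2 / 4 - 1 := by
    have : (γ 0 0 + γ 1 1) = a + d := htr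
    rw [← this]
    linear_combination -hdet
  have ht2 : t ^ 2 = 1 := by
    rw [tx, ty, tz] at hsq'
    have : (t ^ 2 - 1) * ((a + d) ^ 2 / 4 - 1) = 0 := by
      linear_combination hsq' - t ^ 2 * hsq
    rcases mul_eq_zero.mp this with h | h
    · linarith
    · exact absurd h hD
  have ht : t = 1 ∨ t = -1 := by
    have : (t - 1) * (t + 1) = 0 := by linear_combination ht2
    rcases mul_eq_zero.mp this with h | h
    · left; linarith
    · right; linarith
  rcases ht with ht | ht
  · -- `γ = α`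
    have hγα : γ = α := by
      rw [ht] at tx ty tz
      ext i j
      fin_cases i <;> fin_cases j
      · show γ 0 0 = a
        linarith
      · show γ 0 1 = b
        linarith
      · show γ 1 0 = c
        linarith
      · show γ 1 1 = d
        linarith
    show β * α = α * β
    rw [← hgb, hγα]
  · exfalso
    rw [ht] at tx ty tz
    have e00 : γ 0 0 = d := by linarith
    have e11 : γ 1 1 = a := by linarith
    have e01 : γ 0 1 = -b := by linarith
    have e10 : γ 1 0 = -c := by linarith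
    rw [e00, e01] at g00 g01
    rw [e10, e11] at g10 g11
    apply h3
    -- `g00 : d β00 - b β10 = β00 a + β01 c`
    -- `g11 : -c β01 + a β11 = β10 b + β11 d`
    -- `g01 : d β01 - b β11 = β00 b + β01 d`
    -- `g10 : -c β00 + a β10 = β10 a + β11 c`
    have k1 : b * (β 0 0 + β 1 1) = 0 := by linear_combination -g01
    have k2 : c * (β 0 0 + β 1 1) = 0 := by linear_combination -g10
    have k3 : (a - d) * (β 0 0 + β 1 1) = 0 := by linear_combination g11 - g00
    rcases hne with h | h | h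
    · have : a - d ≠ 0 := by
        intro h'; apply h; rw [h']; norm_num
      exact (mul_eq_zero.mp k3).resolve_left this
    · exact (mul_eq_zero.mp k1).resolve_left h
    · exact (mul_eq_zero.mp k2).resolve_left h

theorem back_eig (α β : M2) (hα : α.det = 1) (hβ : β.det = 1) (h1 : α.trace = 2) (h2 : α ≠ 1)
    (e : V) (he : e ≠ 0) (hαe : α *ᵥ e = e) (H : ∃ c : ℝ, (α * β * α⁻¹ * β⁻¹) *ᵥ e = c • e) :
    ∃ c : ℝ, β *ᵥ e = c • e := by
  obtain ⟨c, hc⟩ := H
  have hα' := abs_det_of_det hα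
  have hβ' := abs_det_of_det hβ
  have ai : α⁻¹ * α = 1 := inv_mul_self_of hα'
  have ia : α * α⁻¹ = 1 := mul_inv_self_of hα'
  have bi : β⁻¹ * β = 1 := inv_mul_self_of hβ'
  have ib : β * β⁻¹ = 1 := mul_inv_self_of hβ'
  have hie : α⁻¹ *ᵥ e = e := by
    conv_lhs => rw [← hαe]
    rw [Matrix.mulVec_mulVec, ai, Matrix.one_mulVec]
  set x := β⁻¹ *ᵥ e with hx
  have hbx : β *ᵥ x = e := by rw [hx, Matrix.mulVec_mulVec, ib, Matrix.one_mulVec]
  have hx1 : α⁻¹ *ᵥ x = c • x := by
    have h := congrArg (fun w => β⁻¹ *ᵥ (α⁻¹ *ᵥ w)) hc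
    simp only [Matrix.mulVec_mulVec, Matrix.mulVec_smul] at h
    have e1 : β⁻¹ * (α⁻¹ * (α * β * α⁻¹ * β⁻¹)) = α⁻¹ * β⁻¹ := by
      calc β⁻¹ * (α⁻¹ * (α * β * α⁻¹ * β⁻¹)) = β⁻¹ * ((α⁻¹ * α) * β * α⁻¹ * β⁻¹) := by
            simp only [Matrix.mul_assoc]
        _ = (β⁻¹ * β) * α⁻¹ * β⁻¹ := by rw [ai, Matrix.one_mul]; simp only [Matrix.mul_assoc]
        _ = α⁻¹ * β⁻¹ := by rw [bi, Matrix.one_mul]
    rw [e1, ← Matrix.mulVec_mulVec, ← Matrix.mulVec_mulVec, hie] at h
    exact h
  have hx2 : x = c • (α *ᵥ x) := by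
    have h := congrArg (fun w => α *ᵥ w) hx1
    simp only [Matrix.mulVec_mulVec, Matrix.mulVec_smul] at h
    rw [ia, Matrix.one_mulVec] at h
    exact h
  -- coordinates
  have a0 := congrFun hαe 0
  have a1 := congrFun hαe 1
  have b0 := congrFun hx2 0
  have b1 := congrFun hx2 1
  simp only [Matrix.mulVec, dotProduct, Fin.sum_univ_two, Pi.smul_apply, smul_eq_mul] at a0 a1 b0 b1
  rw [Matrix.det_fin_two] at hα
  rw [Matrix.trace_fin_two] at h1
  -- `w := det (x, e)`; `det (α x, α e) = det (x, e)`, so `w = c w`.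
  by_cases hw : x 0 * e 1 - x 1 * e 0 = 0
  · -- `x` is proportional to `e`
    have hex : e 0 ≠ 0 ∨ e 1 ≠ 0 := by
      by_contra hcon
      push Not at hcon
      apply he
      ext i
      fin_cases i
      · exact hcon.1
      · exact hcon.2
    have hprop : ∃ t : ℝ, x = t • e := by
      rcases hex with h | h
      · refine ⟨x 0 / e 0, ?_⟩
        ext i
        fin_cases i
        · simp [h]
        · simp only [Fin.mk_one, Pi.smul_apply, smul_eq_mul]
          field_simp
          linarith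
      · refine ⟨x 1 / e 1, ?_⟩
        ext i
        fin_cases i
        · simp only [Fin.zero_eta, Pi.smul_apply, smul_eq_mul]
          field_simp
          linarith
        · simp [h]
    obtain ⟨t, htt⟩ := hprop
    have ht0 : t ≠ 0 := by
      intro h
      rw [h, zero_smul] at htt
      rw [htt, Matrix.mulVec_zero] at hbx
      exact he hbx.symm
    refine ⟨t⁻¹, ?_⟩
    rw [htt, Matrix.mulVec_smul] at hbx
    rw [← hbx, smul_smul, inv_mul_cancel₀ ht0, one_smul, hbx]
    -- goal: β e = β e (after rewriting)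
  · exfalso
    have hcw : (x 0 * e 1 - x 1 * e 0) = c * (x 0 * e 1 - x 1 * e 0) := by
      have k : (α 0 0 * x 0 + α 0 1 * x 1) * (α 1 0 * e 0 + α 1 1 * e 1) -
          (α 1 0 * x 0 + α 1 1 * x 1) * (α 0 0 * e 0 + α 0 1 * e 1) =
          (x 0 * e 1 - x 1 * e 0) := by
        linear_combination (x 0 * e 1 - x 1 * e 0) * hα
      rw [a0, a1] at k
      linear_combination c * k + e 1 * b0 - e 0 * b1
    have hc1 : c = 1 := by
      have : (c - 1) * (x 0 * e 1 - x 1 * e 0) = 0 := by linear_combination -hcw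
      rcases mul_eq_zero.mp this with h | h
      · linarith
      · exact absurd h hw
    rw [hc1] at b0 b1
    -- `(α - 1)` kills `x` and `e`, which are independent
    apply h2
    have z00 : (α 0 0 - 1) * (x 0 * e 1 - x 1 * e 0) = 0 := by
      linear_combination x 1 * 0 + e 1 * (-b0) - x 1 * a0
    have z01 : α 0 1 * (x 0 * e 1 - x 1 * e 0) = 0 := by
      linear_combination x 0 * a0 + e 0 * b0
    have z10 : α 1 0 * (x 0 * e 1 - x 1 * e 0) = 0 := by
      linear_combination -e 1 * b1 - x 1 * a1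
    have z11 : (α 1 1 - 1) * (x 0 * e 1 - x 1 * e 0) = 0 := by
      linear_combination x 0 * a1 + e 0 * b1
    ext i j
    fin_cases i <;> fin_cases j
    · show α 0 0 = 1
      have := (mul_eq_zero.mp z00).resolve_right hw
      linarith
    · show α 0 1 = 0
      exact (mul_eq_zero.mp z01).resolve_right hw
    · show α 1 0 = 0
      exact (mul_eq_zero.mp z10).resolve_right hw
    · show α 1 1 = 1
      have := (mul_eq_zero.mp z11).resolve_right hw
      linarith

end Pool.Agent.FQI
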