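import Pool.Agent.FQI.Iter
import Pool.Agent.FQI.Back

/-!
# Elements near the identity

Proof of `near_comm`. Take `ε` from `iter_comm`. For an element `x` with `mn (ρ x - 1) ≤ ε ≤ 1/8`:
the entries of `ρ x` differ from those of `1` by at most `1/8` (`abs_le_mn`), so
`|tr (ρ x) - 2| ≤ 1/4` (in particular `tr ≠ 0`, `tr ≠ -2`) and
`det (ρ x) ≥ (7/8)² - (1/8)² > 0`, so `det (ρ x) = 1` (`Q.det_ρ`).
Given `a`, `b`, put `b_m := f^[m] b`, `n` with `ρ b_n = 1`. `ρ b_{m+1} = ρ a ρ b_m (ρ a)⁻¹ (ρ b_m)⁻¹`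
(`rho_inv`). First claim: `ρ b_n = 1` commutes with `ρ a`; by descending induction (`back_comm`)
`ρ b_m` commutes with `ρ a` for `m = n, n-1, .., 0`. Second claim: the same with `back_eig`
(`ρ b_n e = 1 • e`).
-/

set_option autoImplicit false

namespace Pool.Agent.FQI

open Matrix

variable {Γ : Type} [Group Γ]

theorem near_comm (Q : QuasiCoc Γ) :
    ∃ ε : ℝ, 0 < ε ∧ ε ≤ 1 / 8 ∧
      (∀ a, mn (Q.ρ a - 1) ≤ ε → (Q.ρ a).det = 1 ∧ 0 < (Q.ρ a).trace) ∧
      (∀ a b, mn (Q.ρ a - 1) ≤ ε → mn (Q.ρ b - 1) ≤ ε → (Q.ρ a).trace ≠ 2 →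
        Commute (Q.ρ b) (Q.ρ a)) ∧
      (∀ a b, mn (Q.ρ a - 1) ≤ ε → mn (Q.ρ b - 1) ≤ ε → (Q.ρ a).trace = 2 → Q.ρ a ≠ 1 →
        ∀ e : V, e ≠ 0 → Q.ρ a *ᵥ e = e → ∃ c : ℝ, Q.ρ b *ᵥ e = c • e) := by
  obtain ⟨ε, hε0, hε1, hit⟩ := iter_comm Q
  have hent : ∀ a, mn (Q.ρ a - 1) ≤ ε → (Q.ρ a).det = 1 ∧ 0 < (Q.ρ a).trace := by
    intro a ha
    have h00 := (abs_le_mn (Q.ρ a - 1) 0 0).trans (ha.trans hε1)
    have h01 := (abs_le_mn (Q.ρ a - 1) 0 1).trans (ha.trans hε1)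
    have h10 := (abs_le_mn (Q.ρ a - 1) 1 0).trans (ha.trans hε1)
    have h11 := (abs_le_mn (Q.ρ a - 1) 1 1).trans (ha.trans hε1)
    simp only [Matrix.sub_apply, Matrix.one_apply_eq, ne_eq, zero_ne_one, not_false_eq_true,
      Matrix.one_apply_ne, one_ne_zero, sub_zero] at h00 h01 h10 h11
    rw [abs_le] at h00 h01 h10 h11
    have hdet : (Q.ρ a).det = Q.ρ a 0 0 * Q.ρ a 1 1 - Q.ρ a 0 1 * Q.ρ a 1 0 :=
      Matrix.det_fin_two _
    have hpos : 0 < (Q.ρ a).det := by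
      rw [hdet]
      have h1 : (7 / 8 : ℝ) * (7 / 8) ≤ Q.ρ a 0 0 * Q.ρ a 1 1 :=
        mul_le_mul (by linarith) (by linarith) (by norm_num) (by linarith)
      have h2 : |Q.ρ a 0 1 * Q.ρ a 1 0| ≤ 1 / 8 * (1 / 8) := by
        rw [abs_mul]
        exact mul_le_mul (abs_le.mpr h01) (abs_le.mpr h10) (abs_nonneg _) (by norm_num)
      have h3 := (abs_le.mp h2).2
      linarith
    refine ⟨?_, ?_⟩
    · have h := Q.det_ρ a
      rwa [abs_of_pos hpos] at h
    · rw [Matrix.trace_fin_two]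
      linarith
  refine ⟨ε, hε0, hε1, hent, ?_, ?_⟩
  · intro a b ha hb htr
    obtain ⟨⟨n, hn⟩, hall⟩ := hit a b ha hb
    set f : Γ → Γ := fun x => a * x * a⁻¹ * x⁻¹ with hf
    have hrho : ∀ m, Q.ρ (f^[m + 1] b) =
        Q.ρ a * Q.ρ (f^[m] b) * (Q.ρ a)⁻¹ * (Q.ρ (f^[m] b))⁻¹ := by
      intro m
      rw [Function.iterate_succ_apply']
      simp only [hf, map_mul, rho_inv]
    have hA := hent a ha
    have key : ∀ k, k ≤ n → Commute (Q.ρ (f^[n - k] b)) (Q.ρ a) := by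
      intro k
      induction k with
      | zero =>
        intro _
        rw [Nat.sub_zero, hn]
        exact Commute.one_left _
      | succ k ih =>
        intro hk
        have h1 := ih (by omega)
        have hB := hent _ (hall (n - (k + 1)))
        apply back_comm (Q.ρ a) (Q.ρ (f^[n - (k + 1)] b)) hA.1 hB.1 htr
          (by have := hA.2; intro h; rw [h] at this; linarith) (ne_of_gt hB.2)
        rw [← hrho]
        have e : n - (k + 1) + 1 = n - k := by omega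
        rw [e]
        exact h1
    have h := key n le_rfl
    rwa [Nat.sub_self] at h
  · intro a b ha hb htr hne e he hae
    obtain ⟨⟨n, hn⟩, hall⟩ := hit a b ha hb
    set f : Γ → Γ := fun x => a * x * a⁻¹ * x⁻¹ with hf
    have hrho : ∀ m, Q.ρ (f^[m + 1] b) =
        Q.ρ a * Q.ρ (f^[m] b) * (Q.ρ a)⁻¹ * (Q.ρ (f^[m] b))⁻¹ := by
      intro m
      rw [Function.iterate_succ_apply']
      simp only [hf, map_mul, rho_inv]
    have hA := hent a ha
    have key : ∀ k, k ≤ n → ∃ c : ℝ, Q.ρ (f^[n - k] b) *ᵥ e = c • e := by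
      intro k
      induction k with
      | zero =>
        intro _
        rw [Nat.sub_zero, hn]
        exact ⟨1, by rw [Matrix.one_mulVec, one_smul]⟩
      | succ k ih =>
        intro hk
        have h1 := ih (by omega)
        have hB := hent _ (hall (n - (k + 1)))
        apply back_eig (Q.ρ a) (Q.ρ (f^[n - (k + 1)] b)) hA.1 hB.1 htr hne e he hae
        rw [← hrho]
        have e' : n - (k + 1) + 1 = n - k := by omega
        rw [e']
        exact h1
    have h := key n le_rfl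
    rwa [Nat.sub_self] at h

end Pool.Agent.FQI
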