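import Pool.Agent.FQI.Norm

/-!
# Conjugates of a nonzero traceless matrix are unbounded

Proof. `ν = !![p, q; r, -p]`. If `q ≠ 0` take `h = !![1/T, 0; 0, T]`: `h⁻¹ ν h` has entry `(0,1)` equal
to `T² q`. If `r ≠ 0` take `h = !![T, 0; 0, 1/T]`, entry `(1,0)` is `T² r`. If `q = r = 0`, then
`p ≠ 0`, `h = !![1, T; 0, 1]`, `h⁻¹ ν h` has entry `(0,1)` equal to `2 T p`. Use `abs_le_mn`.
-/

set_option autoImplicit false

namespace Pool.Agent.FQI

open Matrix

theorem conj_unbounded (ν : M2) (hν : ν ≠ 0) (ht : ν.trace = 0) (M : ℝ) :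
    ∃ h : M2, h.det = 1 ∧ M < mn (h⁻¹ * ν * h) := by
  have hinv : ∀ a b c d : ℝ, a * d - b * c = 1 →
      (!![a, b; c, d] : M2)⁻¹ = !![d, -b; -c, a] := by
    intro a b c d h
    refine Matrix.inv_eq_left_inv ?_
    ext i j
    fin_cases i <;> fin_cases j <;> simp [Matrix.mul_apply, Fin.sum_univ_two] <;> linarith
  rw [Matrix.trace_fin_two] at ht
  have h11 : ν 1 1 = - ν 0 0 := by linarith
  by_cases hq : ν 0 1 = 0
  · by_cases hr : ν 1 0 = 0
    · have hp : ν 0 0 ≠ 0 := by
        intro hp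
        apply hν
        ext i j
        fin_cases i <;> fin_cases j <;> simp [hp, hq, hr, h11]
      refine ⟨!![1, (|M| + 1) / (2 * |ν 0 0|); 0, 1], by simp [Matrix.det_fin_two], ?_⟩
      rw [hinv 1 _ 0 1 (by ring)]
      have hp' : 0 < |ν 0 0| := abs_pos.mpr hp
      set T := (|M| + 1) / (2 * |ν 0 0|) with hT
      have hT0 : 0 ≤ T := by positivity
      have e : ((!![1, -T; -0, 1] : M2) * ν * !![1, T; 0, 1]) 0 1 = 2 * T * ν 0 0 := by
        simp only [Matrix.mul_apply, Fin.sum_univ_two]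
        simp [hq, hr, h11]
        ring
      have h1 := abs_le_mn ((!![1, -T; -0, 1] : M2) * ν * !![1, T; 0, 1]) 0 1
      rw [e, abs_mul, abs_mul, abs_of_nonneg hT0] at h1
      have h2 : |(2 : ℝ)| * T * |ν 0 0| = |M| + 1 := by
        rw [hT, abs_of_pos (by norm_num : (0 : ℝ) < 2)]
        field_simp
      rw [h2] at h1
      have := le_abs_self M
      linarith
    · have hr' : 0 < |ν 1 0| := abs_pos.mpr hr
      set T := max 1 ((|M| + 1) / |ν 1 0|) with hT
      have hT1 : 1 ≤ T := le_max_left _ _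
      have hT0 : T ≠ 0 := by positivity
      refine ⟨!![T, 0; 0, 1 / T], by simp [Matrix.det_fin_two, hT0], ?_⟩
      rw [hinv T 0 0 (1 / T) (by field_simp; ring)]
      have e : ((!![1 / T, -0; -0, T] : M2) * ν * !![T, 0; 0, 1 / T]) 1 0 = T * T * ν 1 0 := by
        simp only [Matrix.mul_apply, Fin.sum_univ_two]
        simp
        field_simp
      have h1 := abs_le_mn ((!![1 / T, -0; -0, T] : M2) * ν * !![T, 0; 0, 1 / T]) 1 0
      rw [e, abs_mul, abs_mul, abs_of_pos (by positivity : 0 < T)] at h1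
      have h2 : (|M| + 1) / |ν 1 0| ≤ T := le_max_right _ _
      rw [div_le_iff₀ hr'] at h2
      have h3 : T * |ν 1 0| ≤ T * T * |ν 1 0| := by
        apply mul_le_mul_of_nonneg_right _ hr'.le
        nlinarith
      have := le_abs_self M
      linarith
  · have hq' : 0 < |ν 0 1| := abs_pos.mpr hq
    set T := max 1 ((|M| + 1) / |ν 0 1|) with hT
    have hT1 : 1 ≤ T := le_max_left _ _
    have hT0 : T ≠ 0 := by positivity
    refine ⟨!![1 / T, 0; 0, T], by simp [Matrix.det_fin_two, hT0], ?_⟩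
    rw [hinv (1 / T) 0 0 T (by field_simp; ring)]
    have e : ((!![T, -0; -0, 1 / T] : M2) * ν * !![1 / T, 0; 0, T]) 0 1 = T * T * ν 0 1 := by
      simp only [Matrix.mul_apply, Fin.sum_univ_two]
      simp
      field_simp
    have h1 := abs_le_mn ((!![T, -0; -0, 1 / T] : M2) * ν * !![1 / T, 0; 0, T]) 0 1
    rw [e, abs_mul, abs_mul, abs_of_pos (by positivity : 0 < T)] at h1
    have h2 : (|M| + 1) / |ν 0 1| ≤ T := le_max_right _ _
    rw [div_le_iff₀ hq'] at h2
    have h3 : T * |ν 0 1| ≤ T * T * |ν 0 1| := by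
      apply mul_le_mul_of_nonneg_right _ hq'.le
      nlinarith
    have := le_abs_self M
    linarith

end Pool.Agent.FQI
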