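import Pool.Agent.FQI.NearId
import Pool.Agent.FQI.BackIter
import Pool.Agent.FQI.Conj

/-!
# All elements near the identity are unipotent

Proof of `trace_two`. Take `ε` from `near_comm` and suppose there is `a0` with
`mn (ρ a0 - 1) ≤ ε` and `tr (ρ a0) ≠ 2`. Let `α = ρ a0` (`det α = 1`, `tr α > 0`), `τ = tr α`,
`ν = α - (τ / 2) • 1`: traceless, `ν² = D • 1`, `D = τ² / 4 - 1 ≠ 0`, so `ν ≠ 0`.
(1) If `mn (ρ b - 1) ≤ ε`, `ρ b` commutes with `α`, hence with `ν`, hence (`2 × 2` matrices,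
`ν ≠ 0` traceless) `ρ b = x • 1 + y • ν`.
(2) Let `γ : Γ`. Choose by `near_id` an element `b` with `ρ b ≠ 1`,
`mn (ρ b - 1) ≤ ε / (mn (ρ γ))² ≤ ε` (`mn (ρ γ) ≥ 1`). Then
`mn (ρ (γ b γ⁻¹) - 1) = mn (ρ γ (ρ b - 1) (ρ γ)⁻¹) ≤ ε`, so both `ρ b = x + y ν` and
`ρ (γ b γ⁻¹) = x + y (ρ γ ν (ρ γ)⁻¹)` commute with `ν`. `y ≠ 0`: otherwise `ρ b = x • 1`, `x² = 1`
(`det = 1`) and `|x - 1| ≤ 1/8` force `ρ b = 1`. So `ν' := ρ γ ν (ρ γ)⁻¹` commutes with `ν` and is
traceless, so `ν' = c • ν` and `c² = 1`; hence `mn (ρ γ * ν * (ρ γ)⁻¹) = mn ν` for all `γ`.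
(3) Let `R` be the constant of `Q.cob`; `conj_unbounded` with `M = R² * mn ν` gives `h`, choose `a`
with `mn (h⁻¹ * ρ a) ≤ R`, `B := h⁻¹ * ρ a`. `h⁻¹ ν h = B ((ρ a)⁻¹ ν (ρ a)) B⁻¹`, and
`(ρ a)⁻¹ ν (ρ a) = ρ a⁻¹ * ν * (ρ a⁻¹)⁻¹` has norm `mn ν` by (2) for `γ = a⁻¹`; `mn B⁻¹ = mn B ≤ R`.
So `mn (h⁻¹ ν h) ≤ R² * mn ν`, contradiction.
-/

set_option autoImplicit false

namespace Pool.Agent.FQI

open Matrix

variable {Γ : Type} [Group Γ]

/-- The centralizer of a nonzero traceless matrix. -/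
theorem case1_cent (ν B : M2) (hν : ν ≠ 0) (ht : ν.trace = 0) (hc : Commute B ν) :
    ∃ y : ℝ, B = (B.trace / 2) • (1 : M2) + y • ν := by
  have hc' : B * ν = ν * B := hc
  have h11 : ν 1 1 = -ν 0 0 := by
    rw [Matrix.trace_fin_two] at ht
    linarith
  have c00 := congrFun (congrFun hc' 0) 0
  have c01 := congrFun (congrFun hc' 0) 1
  have c10 := congrFun (congrFun hc' 1) 0
  simp only [Matrix.mul_apply, Fin.sum_univ_two, h11] at c00 c01 c10
  -- `s = (B00 - B11)/2`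
  have key : ∃ y : ℝ, (B 0 0 - B 1 1) / 2 = y * ν 0 0 ∧ B 0 1 = y * ν 0 1 ∧ B 1 0 = y * ν 1 0 := by
    by_cases p : ν 0 0 = 0
    · by_cases q : ν 0 1 = 0
      · have r : ν 1 0 ≠ 0 := by
          intro r
          apply hν
          ext i j
          fin_cases i <;> fin_cases j
          · exact p
          · exact q
          · exact r
          · change ν 1 1 = 0
            rw [h11, p, neg_zero]
        refine ⟨B 1 0 / ν 1 0, ?_, ?_, ?_⟩
        · have : (B 0 0 - B 1 1) * ν 1 0 = 0 := by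
            rw [p] at c10
            linarith
          rw [p]
          rcases mul_eq_zero.1 this with h | h
          · rw [h]; simp
          · exact absurd h r
        · have : B 0 1 * ν 1 0 = 0 := by
            rw [p, q] at c00
            linarith
          rw [q]
          rcases mul_eq_zero.1 this with h | h
          · rw [h]; simp
          · exact absurd h r
        · field_simp
      · refine ⟨B 0 1 / ν 0 1, ?_, ?_, ?_⟩
        · field_simp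
          linarith
        · field_simp
        · field_simp
          linarith
    · refine ⟨(B 0 0 - B 1 1) / 2 / ν 0 0, ?_, ?_, ?_⟩
      · field_simp
      · field_simp
        linarith
      · field_simp
        linarith
  obtain ⟨y, y0, y1, y2⟩ := key
  refine ⟨y, ?_⟩
  ext i j
  fin_cases i <;> fin_cases j
  · change B 0 0 = (B.trace / 2) * (1 : M2) 0 0 + y * ν 0 0
    rw [← y0, Matrix.trace_fin_two, Matrix.one_apply_eq]
    ring
  · change B 0 1 = (B.trace / 2) * (1 : M2) 0 1 + y * ν 0 1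
    rw [← y1, Matrix.one_apply_ne (by decide)]
    ring
  · change B 1 0 = (B.trace / 2) * (1 : M2) 1 0 + y * ν 1 0
    rw [← y2, Matrix.one_apply_ne (by decide)]
    ring
  · change B 1 1 = (B.trace / 2) * (1 : M2) 1 1 + y * ν 1 1
    rw [h11, Matrix.trace_fin_two, Matrix.one_apply_eq]
    linarith

theorem case1_rho_inv (Q : QuasiCoc Γ) (a : Γ) : (Q.ρ a)⁻¹ = Q.ρ a⁻¹ := by
  refine Matrix.inv_eq_left_inv ?_
  rw [← map_mul, inv_mul_cancel, map_one]

/-- conjugates of elements very near the identity -/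
theorem case1_conj (Q : QuasiCoc Γ) (γ b : Γ) (ε : ℝ)
    (hb : mn (Q.ρ b - 1) ≤ ε / (mn (Q.ρ γ)) ^ 2) (hε : 0 < ε) :
    mn (Q.ρ b - 1) ≤ ε ∧ mn (Q.ρ (γ * b * γ⁻¹) - 1) ≤ ε := by
  have h1 : 1 ≤ mn (Q.ρ γ) := one_le_mn (Q.det_ρ γ)
  have h2 : 1 ≤ (mn (Q.ρ γ)) ^ 2 := one_le_pow₀ h1
  constructor
  · exact hb.trans (div_le_self hε.le h2)
  · have e : Q.ρ (γ * b * γ⁻¹) - 1 = Q.ρ γ * (Q.ρ b - 1) * (Q.ρ γ)⁻¹ := by
      rw [map_mul, map_mul, ← case1_rho_inv, Matrix.mul_sub, Matrix.sub_mul, Matrix.mul_one,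
        mul_inv_self_of (Q.det_ρ γ)]
    rw [e]
    have i1 := mn_mul_le (Q.ρ γ * (Q.ρ b - 1)) (Q.ρ γ)⁻¹
    have i2 := mn_mul_le (Q.ρ γ) (Q.ρ b - 1)
    rw [mn_inv (Q.det_ρ γ)] at i1
    have h0 : 0 ≤ mn (Q.ρ γ) := by linarith
    calc mn (Q.ρ γ * (Q.ρ b - 1) * (Q.ρ γ)⁻¹)
        ≤ mn (Q.ρ γ * (Q.ρ b - 1)) * mn (Q.ρ γ) := i1
      _ ≤ (mn (Q.ρ γ) * mn (Q.ρ b - 1)) * mn (Q.ρ γ) := mul_le_mul_of_nonneg_right i2 h0
      _ = (mn (Q.ρ γ)) ^ 2 * mn (Q.ρ b - 1) := by ring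
      _ ≤ (mn (Q.ρ γ)) ^ 2 * (ε / (mn (Q.ρ γ)) ^ 2) :=
          mul_le_mul_of_nonneg_left hb (by positivity)
      _ = ε := by
          have : (mn (Q.ρ γ)) ^ 2 ≠ 0 := by positivity
          field_simp

theorem trace_two (Q : QuasiCoc Γ) :
    ∃ ε : ℝ, 0 < ε ∧ ∀ a, mn (Q.ρ a - 1) ≤ ε → (Q.ρ a).trace = 2 := by
  obtain ⟨ε, hε, hε8, hdt, hcomm, -⟩ := near_comm Q
  refine ⟨ε, hε, fun a0 ha0 => ?_⟩
  by_contra htr
  obtain ⟨hd0, ht0⟩ := hdt a0 ha0
  set α := Q.ρ a0 with hα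
  set τ := α.trace with hτ
  set ν : M2 := α - (τ / 2) • (1 : M2) with hνdef
  have hνt : ν.trace = 0 := by
    rw [hνdef, Matrix.trace_sub, Matrix.trace_smul, Matrix.trace_one, ← hτ]
    simp
  have hνdet : ν.det = 1 - τ ^ 2 / 4 := by
    have e : ν.det = α.det - τ ^ 2 / 4 := by
      rw [hτ, hνdef, Matrix.det_fin_two, Matrix.det_fin_two, hτ, Matrix.trace_fin_two]
      simp only [Matrix.sub_apply, Matrix.smul_apply, Matrix.one_apply_eq, smul_eq_mul, mul_one,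
        Matrix.one_apply_ne (show (0 : Fin 2) ≠ 1 by decide),
        Matrix.one_apply_ne (show (1 : Fin 2) ≠ 0 by decide), mul_zero, sub_zero]
      ring
    rw [e, hd0]
  have hνdet0 : ν.det ≠ 0 := by
    rw [hνdet]
    intro h0
    have h1 : (τ - 2) * (τ + 2) = 0 := by nlinarith
    rcases mul_eq_zero.1 h1 with h | h
    · exact htr (by linarith)
    · linarith
  have hν0 : ν ≠ 0 := by
    intro h0
    rw [h0] at hνdet0
    exact hνdet0 Matrix.det_zero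
  have hcν : ∀ b, mn (Q.ρ b - 1) ≤ ε → Commute (Q.ρ b) ν := by
    intro b hb
    have h1 := hcomm a0 b ha0 hb htr
    rw [hνdef]
    refine Commute.sub_right h1 ?_
    exact ((Commute.one_right _).smul_right _)
  have hconj : ∀ γ, mn (Q.ρ γ * ν * (Q.ρ γ)⁻¹) = mn ν := by
    intro γ
    have h1 : 1 ≤ mn (Q.ρ γ) := one_le_mn (Q.det_ρ γ)
    obtain ⟨b, hb1, hb⟩ := near_id Q (ε / (mn (Q.ρ γ)) ^ 2) (by positivity)
    obtain ⟨hbε, hbc⟩ := case1_conj Q γ b ε hb hε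
    obtain ⟨y, hy⟩ := case1_cent ν (Q.ρ b) hν0 hνt (hcν b hbε)
    set x := (Q.ρ b).trace / 2 with hx
    obtain ⟨hbd, hbt⟩ := hdt b hbε
    have hy0 : y ≠ 0 := by
      intro h0
      rw [h0, zero_smul, add_zero] at hy
      have hd : (Q.ρ b).det = x ^ 2 := by
        rw [hy, Matrix.det_smul, Matrix.det_one, Fintype.card_fin, mul_one]
      rw [hbd] at hd
      have hxpos : 0 < x := by
        rw [hx]
        linarith
      have hx1 : x = 1 := by nlinarith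
      rw [hx1, one_smul] at hy
      exact hb1 hy
    set ν' := Q.ρ γ * ν * (Q.ρ γ)⁻¹ with hν'
    have hform : Q.ρ (γ * b * γ⁻¹) = x • (1 : M2) + y • ν' := by
      rw [map_mul, map_mul, ← case1_rho_inv, hy, hν', Matrix.mul_add, Matrix.add_mul,
        Matrix.mul_smul, Matrix.smul_mul, Matrix.mul_one, mul_inv_self_of (Q.det_ρ γ),
        Matrix.mul_smul, Matrix.smul_mul]
    have hc1 := hcν _ hbc
    rw [hform] at hc1
    have hc2 : Commute (y • ν') ν := by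
      have h2 : Commute (x • (1 : M2)) ν := (Commute.one_left _).smul_left _
      have h3 := hc1.sub_left h2
      rwa [add_sub_cancel_left] at h3
    have hc3 : Commute ν' ν := by
      have h2 := hc2.smul_left y⁻¹
      rwa [smul_smul, inv_mul_cancel₀ hy0, one_smul] at h2
    obtain ⟨c, hc⟩ := case1_cent ν ν' hν0 hνt hc3
    have hν't : ν'.trace = 0 := by
      rw [hν', Matrix.trace_mul_comm, ← Matrix.mul_assoc, inv_mul_self_of (Q.det_ρ γ),
        Matrix.one_mul, hνt]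
    rw [hν't, zero_div, zero_smul, zero_add] at hc
    have hd1 : ν'.det = ν.det := by
      have := mul_inv_self_of (Q.det_ρ γ)
      have e2 := congrArg Matrix.det this
      rw [Matrix.det_mul, Matrix.det_one] at e2
      rw [hν', Matrix.det_mul, Matrix.det_mul]
      calc (Q.ρ γ).det * ν.det * ((Q.ρ γ)⁻¹).det = ν.det * ((Q.ρ γ).det * ((Q.ρ γ)⁻¹).det) := by
            ring
        _ = ν.det := by rw [e2, mul_one]
    have hd2 : ν'.det = c ^ 2 * ν.det := by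
      rw [hc, Matrix.det_smul, Fintype.card_fin]
    have hc1' : c ^ 2 = 1 := by
      have h5 : (c ^ 2 - 1) * ν.det = 0 := by
        rw [sub_mul, one_mul, ← hd2, hd1, sub_self]
      rcases mul_eq_zero.1 h5 with h | h
      · linarith
      · exact absurd h hνdet0
    have habs : |c| = 1 := by
      rw [← sq_abs] at hc1'
      have := abs_nonneg c
      nlinarith
    rw [hc, mn_smul, habs, one_mul]
  obtain ⟨R, hR⟩ := Q.cob
  obtain ⟨h, hh, hM⟩ := conj_unbounded ν hν0 hνt (R * mn ν * R)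
  obtain ⟨a, ha, -⟩ := hR 0 h hh
  have hah : |h.det| = 1 := abs_det_of_det hh
  have e : h⁻¹ * ν * h = (h⁻¹ * Q.ρ a) * (Q.ρ a⁻¹ * ν * (Q.ρ a⁻¹)⁻¹) * (h⁻¹ * Q.ρ a)⁻¹ := by
    have e1 : Q.ρ a * Q.ρ a⁻¹ = 1 := by rw [← map_mul, mul_inv_cancel, map_one]
    have e2 : (Q.ρ a⁻¹)⁻¹ = Q.ρ a := by rw [case1_rho_inv, inv_inv]
    have e3 : (h⁻¹ * Q.ρ a)⁻¹ = Q.ρ a⁻¹ * h := by
      rw [Matrix.mul_inv_rev, case1_rho_inv, inv_inv_of hah]
    rw [e2, e3]
    calc h⁻¹ * ν * h = h⁻¹ * 1 * ν * 1 * h := by rw [Matrix.mul_one, Matrix.mul_one]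
      _ = h⁻¹ * (Q.ρ a * Q.ρ a⁻¹) * ν * (Q.ρ a * Q.ρ a⁻¹) * h := by rw [e1]
      _ = _ := by simp only [Matrix.mul_assoc]
  have hb0 : |(h⁻¹ * Q.ρ a).det| = 1 := abs_det_mul (abs_det_inv hah) (Q.det_ρ a)
  have hR0 : 0 ≤ R := (mn_nonneg _).trans ha
  have hle : mn (h⁻¹ * ν * h) ≤ R * mn ν * R := by
    rw [e]
    refine (mn_mul_le _ _).trans ?_
    rw [mn_inv hb0]
    refine mul_le_mul ?_ ha (mn_nonneg _) (by have := mn_nonneg ν; positivity)
    refine (mn_mul_le _ _).trans ?_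
    rw [hconj]
    exact mul_le_mul_of_nonneg_right ha (mn_nonneg _)
  linarith

end Pool.Agent.FQI
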