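import Pool.Agent.FQI.Case1

/-!
# A common invariant line

Proof of `common_line`. `ε` = minimum of those of `near_comm` and `trace_two`. By `near_id` choose
`a0` with `ρ a0 ≠ 1`, `mn (ρ a0 - 1) ≤ ε`; `det (ρ a0) = 1`, `tr (ρ a0) = 2`, so `det (ρ a0 - 1) =
1 - tr + 1 = 0` and there is `e ≠ 0` with `ρ a0 e = e` (`Matrix.exists_mulVec_eq_zero_iff`).
(1) If `mn (ρ b - 1) ≤ ε`, then `ρ b e = c • e` (`near_comm`), and since `det (ρ b) = 1`,
`tr (ρ b) = 2` (characteristic polynomial `(X-1)²`), `c = 1`: `ρ b e = e`.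
(2) Let `γ : Γ` and choose `b` with `ρ b ≠ 1`, `mn (ρ b - 1) ≤ ε / (mn (ρ γ))²`, so that
`mn (ρ b - 1) ≤ ε` and `mn (ρ (γ b γ⁻¹) - 1) ≤ ε`. By (1), `ρ b e = e` and `ρ (γ b γ⁻¹) e = e`, i.e.
`ρ b x = x` for `x := (ρ γ)⁻¹ e`. Since `ρ b ≠ 1`, `x` and `e` are linearly dependent, and both are
nonzero: `(ρ γ)⁻¹ e = c • e`, `c ≠ 0`, so `ρ γ e = c⁻¹ • e`.
-/

set_option autoImplicit false

namespace Pool.Agent.FQI

open Matrix

variable {Γ : Type} [Group Γ]

theorem common_line (Q : QuasiCoc Γ) :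
    ∃ e : V, e ≠ 0 ∧ ∀ a, ∃ c : ℝ, Q.ρ a *ᵥ e = c • e := by
  obtain ⟨ε1, hε1, hε8, hdt, hcomm, hline⟩ := near_comm Q
  obtain ⟨ε2, hε2, htr⟩ := trace_two Q
  have hε : 0 < min ε1 ε2 := lt_min hε1 hε2
  obtain ⟨a0, ha1, ha⟩ := near_id Q (min ε1 ε2) hε
  have hdtm : ∀ b, mn (Q.ρ b - 1) ≤ min ε1 ε2 → (Q.ρ b).det = 1 ∧ (Q.ρ b).trace = 2 :=
    fun b hb => ⟨(hdt b (hb.trans (min_le_left _ _))).1, htr b (hb.trans (min_le_right _ _))⟩
  have hdetc : ∀ (A : M2) (c : ℝ), A.det = 1 → A.trace = 2 →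
      (A - c • (1 : M2)).det = (c - 1) ^ 2 := by
    intro A c h1 h2
    have e : (A - c • (1 : M2)).det = A.det - c * A.trace + c ^ 2 := by
      rw [Matrix.det_fin_two, Matrix.det_fin_two, Matrix.trace_fin_two]
      simp only [Matrix.sub_apply, Matrix.smul_apply, Matrix.one_apply_eq, smul_eq_mul, mul_one,
        Matrix.one_apply_ne (show (0 : Fin 2) ≠ 1 by decide),
        Matrix.one_apply_ne (show (1 : Fin 2) ≠ 0 by decide), mul_zero, sub_zero]
      ring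
    rw [e, h1, h2]
    ring
  obtain ⟨e, he0, he⟩ : ∃ e : V, e ≠ 0 ∧ (Q.ρ a0 - 1) *ᵥ e = 0 := by
    apply Matrix.exists_mulVec_eq_zero_iff.2
    have := hdetc (Q.ρ a0) 1 (hdtm a0 ha).1 (hdtm a0 ha).2
    rw [one_smul] at this
    rw [this]
    ring
  have he' : Q.ρ a0 *ᵥ e = e := by
    rw [Matrix.sub_mulVec, Matrix.one_mulVec, sub_eq_zero] at he
    exact he
  have hfix : ∀ b, mn (Q.ρ b - 1) ≤ min ε1 ε2 → Q.ρ b *ᵥ e = e := by
    intro b hb
    obtain ⟨c, hc⟩ := hline a0 b (ha.trans (min_le_left _ _)) (hb.trans (min_le_left _ _))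
      (hdtm a0 ha).2 ha1 e he0 he'
    have h0 : (Q.ρ b - c • (1 : M2)) *ᵥ e = 0 := by
      rw [Matrix.sub_mulVec, Matrix.smul_mulVec, Matrix.one_mulVec, hc, sub_self]
    have h1 : (Q.ρ b - c • (1 : M2)).det = 0 :=
      Matrix.exists_mulVec_eq_zero_iff.1 ⟨e, he0, h0⟩
    rw [hdetc _ c (hdtm b hb).1 (hdtm b hb).2] at h1
    have h2 : c = 1 := by
      have := pow_eq_zero_iff (two_ne_zero) |>.1 h1
      linarith
    rw [hc, h2, one_smul]
  have hinv : ∀ γ, ∃ c : ℝ, Q.ρ γ⁻¹ *ᵥ e = c • e := by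
    intro γ
    have h1 : 1 ≤ mn (Q.ρ γ) := one_le_mn (Q.det_ρ γ)
    obtain ⟨b, hb1, hb⟩ := near_id Q (min ε1 ε2 / (mn (Q.ρ γ)) ^ 2) (by positivity)
    obtain ⟨hbε, hbc⟩ := case1_conj Q γ b _ hb hε
    have f1 := hfix b hbε
    have f2 := hfix _ hbc
    set x : V := Q.ρ γ⁻¹ *ᵥ e with hx
    have f3 : Q.ρ b *ᵥ x = x := by
      have g1 : Q.ρ γ⁻¹ *ᵥ (Q.ρ (γ * b * γ⁻¹) *ᵥ e) = x := by rw [f2]
      rw [Matrix.mulVec_mulVec, ← map_mul] at g1
      have g2 : γ⁻¹ * (γ * b * γ⁻¹) = b * γ⁻¹ := by group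
      rw [g2, map_mul, ← Matrix.mulVec_mulVec] at g1
      exact g1
    -- the vectors `x`, `e` are dependent
    have hdep : x 0 * e 1 - x 1 * e 0 = 0 := by
      by_contra hne
      apply hb1
      have z1 : (Q.ρ b - 1) *ᵥ e = 0 := by
        rw [Matrix.sub_mulVec, Matrix.one_mulVec, f1, sub_self]
      have z2 : (Q.ρ b - 1) *ᵥ x = 0 := by
        rw [Matrix.sub_mulVec, Matrix.one_mulVec, f3, sub_self]
      have z3 : (Q.ρ b - 1) = 0 := by
        ext i j
        have w1 := congrFun z1 i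
        have w2 := congrFun z2 i
        simp only [Matrix.mulVec, dotProduct, Fin.sum_univ_two, Pi.zero_apply] at w1 w2
        have v0 : (Q.ρ b - 1) i 0 * (x 0 * e 1 - x 1 * e 0) = 0 := by
          linear_combination e 1 * w2 - x 1 * w1
        have v1 : (Q.ρ b - 1) i 1 * (x 0 * e 1 - x 1 * e 0) = 0 := by
          linear_combination x 0 * w1 - e 0 * w2
        have v0' := (mul_eq_zero.1 v0).resolve_right hne
        have v1' := (mul_eq_zero.1 v1).resolve_right hne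
        fin_cases j
        · exact v0'
        · exact v1'
      exact sub_eq_zero.1 z3
    by_cases e00 : e 0 = 0
    · have e10 : e 1 ≠ 0 := by
        intro h
        apply he0
        ext i
        fin_cases i
        · exact e00
        · exact h
      refine ⟨x 1 / e 1, ?_⟩
      ext i
      fin_cases i
      · change x 0 = x 1 / e 1 * e 0
        rw [e00, mul_zero, sub_zero] at hdep
        rw [e00, mul_zero]
        exact (mul_eq_zero.1 hdep).resolve_right e10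
      · change x 1 = x 1 / e 1 * e 1
        field_simp
    · refine ⟨x 0 / e 0, ?_⟩
      ext i
      fin_cases i
      · change x 0 = x 0 / e 0 * e 0
        field_simp
      · change x 1 = x 0 / e 0 * e 1
        field_simp
        linarith
  refine ⟨e, he0, fun a => ?_⟩
  have := hinv a⁻¹
  rwa [inv_inv] at this

end Pool.Agent.FQI
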