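import Pool.Agent.FQI.QBasic

/-!
# The elements of a triangular `QuasiCoc`

Write `p a = (ρ a) 0 0`, `q a = (ρ a) 0 1`, `r a = (ρ a) 1 1`; `(ρ a) 1 0 = 0`, so
`|p a * r a| = |det (ρ a)| = 1`.

Proofs. Let `R0 ≥ 1` be the constant of `Q.cob`.
* `net`: `h = !![1, x; 0, 1]`, `h⁻¹ = !![1, -x; 0, 1]`, `w = ![w1, w2]`. `Q.cob` gives `a` with
  `B := h⁻¹ * ρ a = !![p, q - x r; 0, r]`, so `|p|, |q - x r|, |r| ≤ R0`, hence `|p| = 1/|r| ≥ 1/R0`,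
  `|r| ≥ 1/R0`, `|q / r - x| ≤ R0 * R0`; and
  `h⁻¹ (t a - w) = ![(t a 0 - w1) - x (t a 1 - w2), t a 1 - w2]` has both entries `≤ R0`. Take
  `R = R0 * R0` (`≥ R0 ≥ 1`, `1/R ≤ 1/R0`).
* `far`: `h = !![T', 0; 0, 1/T']` with `T' = max 1 (R0 * T)`; `Q.cob` gives `θ` with
  `mn (h⁻¹ * ρ θ) ≤ R0`, and `(h⁻¹ * ρ θ) 1 1 = T' * r`, so `|T' * r| ≤ R0`, `|r| ≤ R0 / T'` and
  `|p| = 1 / |r| ≥ T' / R0 ≥ T`.
* `right_mul`: `ρ (a * θ) = ρ a * ρ θ = !![p p', p q' + q r'; 0, r r']` (with `'` for `θ`), so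
  `q (a θ) / r (a θ) - q a / r a = (p a / r a) * (q' / r')`. `Q.q (mn (ρ θ))` with `s = θ`:
  `vn ((ρ a)⁻¹ (t (a θ) - t a) - t θ) ≤ C`, so `vn ((ρ a)⁻¹ (t (a θ) - t a)) ≤ C + vn (t θ)`.
  `D := max |q' / r'| (C + vn (t θ))`.
-/

set_option autoImplicit false

namespace Pool.Agent.FQI

open Matrix

variable {Γ : Type} [Group Γ]

theorem abs_p_mul_r (Q : QuasiCoc Γ) (hT : ∀ a, (Q.ρ a) 1 0 = 0) (a : Γ) :
    |(Q.ρ a) 0 0| * |(Q.ρ a) 1 1| = 1 := by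
  have h := Q.det_ρ a
  rw [Matrix.det_fin_two, hT, mul_zero, sub_zero, abs_mul] at h
  exact h

theorem net (Q : QuasiCoc Γ) (hT : ∀ a, (Q.ρ a) 1 0 = 0) :
    ∃ R : ℝ, 1 ≤ R ∧ ∀ x w1 w2 : ℝ, ∃ a : Γ,
      1 / R ≤ |(Q.ρ a) 0 0| ∧ |(Q.ρ a) 0 0| ≤ R ∧ 1 / R ≤ |(Q.ρ a) 1 1| ∧ |(Q.ρ a) 1 1| ≤ R ∧
      |(Q.ρ a) 0 1 / (Q.ρ a) 1 1 - x| ≤ R ∧ |Q.t a 1 - w2| ≤ R ∧
      |(Q.t a 0 - w1) - x * (Q.t a 1 - w2)| ≤ R := by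
  obtain ⟨R0, hR0⟩ := Q.cob
  have h1 : 1 ≤ R0 := by
    obtain ⟨a, ha⟩ := hR0 0 1 (by simp)
    exact (one_le_mn_inv_mul (by simp) (Q.det_ρ a)).trans ha.1
  have h2 : R0 ≤ R0 * R0 := by nlinarith
  refine ⟨R0 * R0, by nlinarith, fun x w1 w2 => ?_⟩
  have hdet : (!![1, x; 0, 1] : M2).det = 1 := by simp [Matrix.det_fin_two]
  have hinv : (!![1, x; 0, 1] : M2)⁻¹ = !![1, -x; 0, 1] := by
    apply Matrix.inv_eq_left_inv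
    ext i j
    fin_cases i <;> fin_cases j <;> simp [Matrix.mul_apply, Fin.sum_univ_two]
  obtain ⟨a, ha1, ha2⟩ := hR0 ![w1, w2] _ hdet
  rw [hinv] at ha1 ha2
  have e00 : ((!![1, -x; 0, 1] : M2) * Q.ρ a) 0 0 = Q.ρ a 0 0 := by
    simp [Matrix.mul_apply, Fin.sum_univ_two, hT]
  have e01 : ((!![1, -x; 0, 1] : M2) * Q.ρ a) 0 1 = Q.ρ a 0 1 - x * Q.ρ a 1 1 := by
    simp [Matrix.mul_apply, Fin.sum_univ_two]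
    ring
  have e11 : ((!![1, -x; 0, 1] : M2) * Q.ρ a) 1 1 = Q.ρ a 1 1 := by
    simp [Matrix.mul_apply, Fin.sum_univ_two]
  have b00 := (abs_le_mn ((!![1, -x; 0, 1] : M2) * Q.ρ a) 0 0).trans ha1
  have b01 := (abs_le_mn ((!![1, -x; 0, 1] : M2) * Q.ρ a) 0 1).trans ha1
  have b11 := (abs_le_mn ((!![1, -x; 0, 1] : M2) * Q.ρ a) 1 1).trans ha1
  rw [e00] at b00
  rw [e01] at b01
  rw [e11] at b11
  have f0 : ((!![1, -x; 0, 1] : M2) *ᵥ (Q.t a - ![w1, w2])) 0 =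
      (Q.t a 0 - w1) - x * (Q.t a 1 - w2) := by
    simp [Matrix.mulVec, dotProduct, Fin.sum_univ_two]
    ring
  have f1 : ((!![1, -x; 0, 1] : M2) *ᵥ (Q.t a - ![w1, w2])) 1 = Q.t a 1 - w2 := by
    simp [Matrix.mulVec, dotProduct, Fin.sum_univ_two]
  have c0 := (abs_le_vn ((!![1, -x; 0, 1] : M2) *ᵥ (Q.t a - ![w1, w2])) 0).trans ha2
  have c1 := (abs_le_vn ((!![1, -x; 0, 1] : M2) *ᵥ (Q.t a - ![w1, w2])) 1).trans ha2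
  rw [f0] at c0
  rw [f1] at c1
  have hpr := abs_p_mul_r Q hT a
  have hp0 : 0 < |(Q.ρ a) 0 0| := by
    rcases (abs_nonneg ((Q.ρ a) 0 0)).lt_or_eq with h | h
    · exact h
    · rw [← h, zero_mul] at hpr
      exact absurd hpr (by norm_num)
  have hr0 : 0 < |(Q.ρ a) 1 1| := by
    rcases (abs_nonneg ((Q.ρ a) 1 1)).lt_or_eq with h | h
    · exact h
    · rw [← h, mul_zero] at hpr
      exact absurd hpr (by norm_num)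
  have hRR : 0 < R0 * R0 := by nlinarith
  have hr : (Q.ρ a) 1 1 ≠ 0 := abs_pos.1 hr0
  refine ⟨a, ?_, b00.trans h2, ?_, b11.trans h2, ?_, c1.trans h2, c0.trans h2⟩
  · rw [div_le_iff₀ hRR]
    nlinarith
  · rw [div_le_iff₀ hRR]
    nlinarith
  · have e : (Q.ρ a) 0 1 / (Q.ρ a) 1 1 - x = ((Q.ρ a) 0 1 - x * (Q.ρ a) 1 1) / (Q.ρ a) 1 1 := by
      field_simp
    rw [e, abs_div, div_le_iff₀ hr0]
    have h3 : R0 ≤ R0 * R0 * |(Q.ρ a) 1 1| := by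
      have h4 : 1 ≤ R0 * |(Q.ρ a) 1 1| := by nlinarith
      nlinarith
    exact b01.trans h3

theorem far (Q : QuasiCoc Γ) (hT : ∀ a, (Q.ρ a) 1 0 = 0) (T : ℝ) :
    ∃ θ, T ≤ |(Q.ρ θ) 0 0| := by
  obtain ⟨R0, hR0⟩ := Q.cob
  have h1 : 1 ≤ R0 := by
    obtain ⟨a, ha⟩ := hR0 0 1 (by simp)
    exact (one_le_mn_inv_mul (by simp) (Q.det_ρ a)).trans ha.1
  obtain ⟨T', hT1, hT2⟩ : ∃ T' : ℝ, 1 ≤ T' ∧ R0 * T ≤ T' :=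
    ⟨max 1 (R0 * T), le_max_left _ _, le_max_right _ _⟩
  have hT0 : T' ≠ 0 := by linarith
  have hdet : (!![T', 0; 0, 1 / T'] : M2).det = 1 := by
    rw [Matrix.det_fin_two]
    simp [hT0]
  have hinv : (!![T', 0; 0, 1 / T'] : M2)⁻¹ = !![1 / T', 0; 0, T'] := by
    apply Matrix.inv_eq_left_inv
    ext i j
    fin_cases i <;> fin_cases j <;> simp [Matrix.mul_apply, Fin.sum_univ_two, hT0]
  obtain ⟨θ, ha1, -⟩ := hR0 0 _ hdet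
  rw [hinv] at ha1
  have e11 : ((!![1 / T', 0; 0, T'] : M2) * Q.ρ θ) 1 1 = T' * Q.ρ θ 1 1 := by
    simp [Matrix.mul_apply, Fin.sum_univ_two]
  have b11 := (abs_le_mn ((!![1 / T', 0; 0, T'] : M2) * Q.ρ θ) 1 1).trans ha1
  rw [e11, abs_mul, abs_of_pos (by linarith : (0 : ℝ) < T')] at b11
  have hpr := abs_p_mul_r Q hT θ
  refine ⟨θ, ?_⟩
  have hp0 := abs_nonneg ((Q.ρ θ) 0 0)
  have h3 : T' * |(Q.ρ θ) 1 1| * |(Q.ρ θ) 0 0| ≤ R0 * |(Q.ρ θ) 0 0| :=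
    mul_le_mul_of_nonneg_right b11 hp0
  have h4 : T' * |(Q.ρ θ) 1 1| * |(Q.ρ θ) 0 0| = T' := by
    rw [mul_assoc, mul_comm (|(Q.ρ θ) 1 1|), hpr, mul_one]
  rw [h4] at h3
  have h5 : R0 * T ≤ R0 * |(Q.ρ θ) 0 0| := hT2.trans h3
  exact le_of_mul_le_mul_left h5 (by linarith)

theorem right_mul (Q : QuasiCoc Γ) (hT : ∀ a, (Q.ρ a) 1 0 = 0) (θ : Γ) :
    ∃ D : ℝ, 0 ≤ D ∧ ∀ a,
      |(Q.ρ (a * θ)) 0 1 / (Q.ρ (a * θ)) 1 1 - (Q.ρ a) 0 1 / (Q.ρ a) 1 1| ≤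
        |(Q.ρ a) 0 0 / (Q.ρ a) 1 1| * D ∧
      vn ((Q.ρ a)⁻¹ *ᵥ (Q.t (a * θ) - Q.t a)) ≤ D := by
  obtain ⟨C, hC⟩ := Q.q (mn (Q.ρ θ))
  refine ⟨max |(Q.ρ θ) 0 1 / (Q.ρ θ) 1 1| (C + vn (Q.t θ)),
    (abs_nonneg _).trans (le_max_left _ _), fun a => ⟨?_, ?_⟩⟩
  · have hr : ∀ b, (Q.ρ b) 1 1 ≠ 0 := by
      intro b h0
      have h := abs_p_mul_r Q hT b
      rw [h0, abs_zero, mul_zero] at h
      exact absurd h (by norm_num)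
    have e01 : (Q.ρ (a * θ)) 0 1 = Q.ρ a 0 0 * Q.ρ θ 0 1 + Q.ρ a 0 1 * Q.ρ θ 1 1 := by
      rw [map_mul]
      simp [Matrix.mul_apply, Fin.sum_univ_two]
    have e11 : (Q.ρ (a * θ)) 1 1 = Q.ρ a 1 1 * Q.ρ θ 1 1 := by
      rw [map_mul]
      simp [Matrix.mul_apply, Fin.sum_univ_two, hT]
    have e : (Q.ρ (a * θ)) 0 1 / (Q.ρ (a * θ)) 1 1 - (Q.ρ a) 0 1 / (Q.ρ a) 1 1 =
        (Q.ρ a) 0 0 / (Q.ρ a) 1 1 * ((Q.ρ θ) 0 1 / (Q.ρ θ) 1 1) := by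
      rw [e01, e11]
      have h1 := hr a
      have h2 := hr θ
      field_simp
      ring
    rw [e, abs_mul]
    exact mul_le_mul_of_nonneg_left (le_max_left _ _) (abs_nonneg _)
  · have h1 := hC a θ le_rfl
    have h2 := vn_sub_le' ((Q.ρ a)⁻¹ *ᵥ (Q.t (a * θ) - Q.t a)) (Q.t θ) 0
    rw [sub_zero, sub_zero] at h2
    exact (h2.trans (by linarith)).trans (le_max_right _ _)

end Pool.Agent.FQI
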