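import Pool.Agent.FQI.NearCard
import Pool.Agent.FQI.Net

/-!
# Uniform bound for the number of elements in a cell

A cell of size `P ≥ 1` with reference slope `s0`: the elements `b` with `P / K ≤ |p b| ≤ K * P`
(so `|r b| = 1 / |p b|` is between `1 / (K P)` and `K / P`), `|q b / r b - s0| ≤ K * P ^ 2`, whose
coordinates `t b 1` and `t b 0 - s0 * t b 1` lie in intervals of length `1 / P` and `P`.

Proof of `cell_card`. Let `b`, `c ∈ T`; `p, q, r` (for `b`), `p', q', r'` (for `c`), `s = q / r`,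
`s' = q' / r'`. `(ρ b)⁻¹ = !![1/p, -q/(p r); 0, 1/r]`, so
`(ρ b)⁻¹ * ρ c = !![p'/p, (q' - s r')/p; 0, r'/r]`: `|p'/p| ≤ K²`, `|r'/r| ≤ K²`,
`|(q' - s r')/p| = |r'| |s' - s| / |p| ≤ (K/P) * (2 K P²) / (P/K) = 2 K³`. So
`mn ((ρ b)⁻¹ * ρ c) ≤ 2 K² + 2 K³`. With `x = t c - t b`:
`(ρ b)⁻¹ x = ![(x 0 - s * x 1) / p, x 1 / r]`, `|x 1 / r| ≤ (1/P) * (K P) = K`,
`|x 0 - s x 1| ≤ |x 0 - s0 x 1| + |s0 - s| |x 1| ≤ P + K P² / P = (1 + K) P`, so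
`|(x 0 - s x 1) / p| ≤ (1 + K) K`. All bounds are independent of `P`, `s0`. If `T` is empty the card
is `0`; otherwise fix `b ∈ T` and apply `near_card` with the constant `4 K³ + 4 K ^ 2 + ..`.
-/

set_option autoImplicit false

namespace Pool.Agent.FQI

open Matrix

variable {Γ : Type} [Group Γ]

private theorem cell_inv (A : M2) (h : A 1 0 = 0) (hp : A 0 0 ≠ 0) (hr : A 1 1 ≠ 0) :
    A⁻¹ = !![1 / A 0 0, -(A 0 1) / (A 0 0 * A 1 1); 0, 1 / A 1 1] := by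
  apply Matrix.inv_eq_left_inv
  ext i j
  fin_cases i <;> fin_cases j <;> simp [Matrix.mul_apply, Fin.sum_univ_two, h, hp, hr]
  field_simp
  ring

private theorem cell_pair (A B : M2) (hA : A 1 0 = 0) (hB : B 1 0 = 0)
    (dA : |A 0 0| * |A 1 1| = 1) (dB : |B 0 0| * |B 1 1| = 1) (K P s0 : ℝ) (hK : 1 ≤ K)
    (hP : 1 ≤ P) (a1 : P / K ≤ |A 0 0|) (a2 : |A 0 0| ≤ K * P)
    (a3 : |A 0 1 / A 1 1 - s0| ≤ K * P ^ 2) (b1 : P / K ≤ |B 0 0|) (b2 : |B 0 0| ≤ K * P)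
    (b3 : |B 0 1 / B 1 1 - s0| ≤ K * P ^ 2) (x : V) (x1 : |x 1| ≤ 1 / P)
    (x0 : |x 0 - s0 * x 1| ≤ P) :
    mn (A⁻¹ * B) ≤ 2 * K ^ 2 + 2 * K ^ 3 + (2 * K + K ^ 2) ∧
      vn (A⁻¹ *ᵥ x) ≤ 2 * K ^ 2 + 2 * K ^ 3 + (2 * K + K ^ 2) := by
  have hK0 : 0 < K := by linarith
  have hP0 : 0 < P := by linarith
  have hPK : 0 < P / K := by positivity
  have hp : 0 < |A 0 0| := lt_of_lt_of_le hPK a1
  have hp' : 0 < |B 0 0| := lt_of_lt_of_le hPK b1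
  have hr : 0 < |A 1 1| := by
    rcases (abs_nonneg (A 1 1)).lt_or_eq with h | h
    · exact h
    · rw [← h, mul_zero] at dA
      exact absurd dA (by norm_num)
  have hr' : 0 < |B 1 1| := by
    rcases (abs_nonneg (B 1 1)).lt_or_eq with h | h
    · exact h
    · rw [← h, mul_zero] at dB
      exact absurd dB (by norm_num)
  have np : A 0 0 ≠ 0 := abs_pos.1 hp
  have nr : A 1 1 ≠ 0 := abs_pos.1 hr
  have nr' : B 1 1 ≠ 0 := abs_pos.1 hr'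
  -- inverses
  have ip : 1 / |A 0 0| ≤ K / P := by
    rw [div_le_div_iff₀ hp hP0]
    rw [div_le_iff₀ hK0] at a1
    linarith
  have ir : 1 / |A 1 1| = |A 0 0| := by
    rw [div_eq_iff hr.ne', dA]
  have ir' : |B 1 1| ≤ K / P := by
    have h1 : |B 1 1| = 1 / |B 0 0| := by
      rw [eq_div_iff hp'.ne', mul_comm, dB]
    rw [h1, div_le_div_iff₀ hp' hP0]
    rw [div_le_iff₀ hK0] at b1
    linarith
  have ip0 : 0 ≤ 1 / |A 0 0| := by positivity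
  have hKP : 0 ≤ K / P := by positivity
  rw [cell_inv A hA np nr]
  have m00 : |B 0 0| * (1 / |A 0 0|) ≤ K ^ 2 := by
    calc |B 0 0| * (1 / |A 0 0|) ≤ (K * P) * (K / P) :=
          mul_le_mul b2 ip ip0 (by positivity)
      _ = K ^ 2 := by field_simp
  have m11 : |B 1 1| * (1 / |A 1 1|) ≤ K ^ 2 := by
    rw [ir]
    calc |B 1 1| * |A 0 0| ≤ (K / P) * (K * P) := mul_le_mul ir' a2 hp.le hKP
      _ = K ^ 2 := by field_simp
  have hs : |B 0 1 / B 1 1 - A 0 1 / A 1 1| ≤ 2 * K * P ^ 2 := by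
    have h1 : B 0 1 / B 1 1 - A 0 1 / A 1 1 = (B 0 1 / B 1 1 - s0) - (A 0 1 / A 1 1 - s0) := by ring
    rw [h1]
    have h2 := abs_sub (B 0 1 / B 1 1 - s0) (A 0 1 / A 1 1 - s0)
    linarith
  have m01 : |B 1 1| * |B 0 1 / B 1 1 - A 0 1 / A 1 1| * (1 / |A 0 0|) ≤ 2 * K ^ 3 := by
    calc |B 1 1| * |B 0 1 / B 1 1 - A 0 1 / A 1 1| * (1 / |A 0 0|) ≤
          ((K / P) * (2 * K * P ^ 2)) * (K / P) :=
          mul_le_mul (mul_le_mul ir' hs (abs_nonneg _) hKP) ip ip0 (by positivity)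
      _ = 2 * K ^ 3 := by field_simp
  have v1 : |x 1| * (1 / |A 1 1|) ≤ K := by
    rw [ir]
    calc |x 1| * |A 0 0| ≤ (1 / P) * (K * P) := mul_le_mul x1 a2 hp.le (by positivity)
      _ = K := by field_simp
  have v0 : |x 0 - A 0 1 / A 1 1 * x 1| * (1 / |A 0 0|) ≤ (1 + K) * K := by
    have h1 : x 0 - A 0 1 / A 1 1 * x 1 = (x 0 - s0 * x 1) - (A 0 1 / A 1 1 - s0) * x 1 := by ring
    have h2 := abs_sub (x 0 - s0 * x 1) ((A 0 1 / A 1 1 - s0) * x 1)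
    have h3 : |(A 0 1 / A 1 1 - s0) * x 1| ≤ (K * P ^ 2) * (1 / P) := by
      rw [abs_mul]
      exact mul_le_mul a3 x1 (abs_nonneg _) (by positivity)
    have h4 : (K * P ^ 2) * (1 / P) = K * P := by field_simp
    have h5 : |x 0 - A 0 1 / A 1 1 * x 1| ≤ (1 + K) * P := by
      rw [h1]
      rw [h4] at h3
      linarith
    calc |x 0 - A 0 1 / A 1 1 * x 1| * (1 / |A 0 0|) ≤ ((1 + K) * P) * (K / P) :=
          mul_le_mul h5 ip ip0 (by positivity)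
      _ = (1 + K) * K := by field_simp
  constructor
  · have e : mn (!![1 / A 0 0, -(A 0 1) / (A 0 0 * A 1 1); 0, 1 / A 1 1] * B) =
        |B 0 0| * (1 / |A 0 0|) + |B 1 1| * |B 0 1 / B 1 1 - A 0 1 / A 1 1| * (1 / |A 0 0|) +
          0 + |B 1 1| * (1 / |A 1 1|) := by
      unfold mn
      have g00 : (!![1 / A 0 0, -(A 0 1) / (A 0 0 * A 1 1); 0, 1 / A 1 1] * B) 0 0 =
          B 0 0 * (1 / A 0 0) := by
        simp [Matrix.mul_apply, Fin.sum_univ_two, hB]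
        ring
      have g01 : (!![1 / A 0 0, -(A 0 1) / (A 0 0 * A 1 1); 0, 1 / A 1 1] * B) 0 1 =
          B 1 1 * (B 0 1 / B 1 1 - A 0 1 / A 1 1) * (1 / A 0 0) := by
        simp [Matrix.mul_apply, Fin.sum_univ_two]
        field_simp
        ring
      have g10 : (!![1 / A 0 0, -(A 0 1) / (A 0 0 * A 1 1); 0, 1 / A 1 1] * B) 1 0 = 0 := by
        simp [Matrix.mul_apply, Fin.sum_univ_two, hB]
      have g11 : (!![1 / A 0 0, -(A 0 1) / (A 0 0 * A 1 1); 0, 1 / A 1 1] * B) 1 1 =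
          B 1 1 * (1 / A 1 1) := by
        simp [Matrix.mul_apply, Fin.sum_univ_two]
        ring
      rw [g00, g01, g10, g11]
      simp only [abs_mul, abs_div, abs_one, abs_zero]
    rw [e]
    have hKK : 0 ≤ 2 * K + K ^ 2 := by positivity
    linarith
  · have e : vn (!![1 / A 0 0, -(A 0 1) / (A 0 0 * A 1 1); 0, 1 / A 1 1] *ᵥ x) =
        |x 0 - A 0 1 / A 1 1 * x 1| * (1 / |A 0 0|) + |x 1| * (1 / |A 1 1|) := by
      unfold vn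
      have g0 : (!![1 / A 0 0, -(A 0 1) / (A 0 0 * A 1 1); 0, 1 / A 1 1] *ᵥ x) 0 =
          (x 0 - A 0 1 / A 1 1 * x 1) * (1 / A 0 0) := by
        simp [Matrix.mulVec, dotProduct, Fin.sum_univ_two]
        field_simp
        ring
      have g1 : (!![1 / A 0 0, -(A 0 1) / (A 0 0 * A 1 1); 0, 1 / A 1 1] *ᵥ x) 1 =
          x 1 * (1 / A 1 1) := by
        simp [Matrix.mulVec, dotProduct, Fin.sum_univ_two]
        ring
      rw [g0, g1]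
      simp only [abs_mul, abs_div, abs_one]
    rw [e]
    have hKK : 0 ≤ 2 * K ^ 2 + 2 * K ^ 3 := by positivity
    nlinarith

theorem cell_card (Q : QuasiCoc Γ) (hT : ∀ a, (Q.ρ a) 1 0 = 0) (K : ℝ) (hK : 1 ≤ K) :
    ∃ N : ℕ, ∀ (P s0 : ℝ) (T : Finset Γ), 1 ≤ P →
      (∀ b ∈ T, P / K ≤ |(Q.ρ b) 0 0| ∧ |(Q.ρ b) 0 0| ≤ K * P ∧
        |(Q.ρ b) 0 1 / (Q.ρ b) 1 1 - s0| ≤ K * P ^ 2) →
      (∀ b ∈ T, ∀ c ∈ T, |Q.t c 1 - Q.t b 1| ≤ 1 / P ∧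
        |(Q.t c 0 - s0 * Q.t c 1) - (Q.t b 0 - s0 * Q.t b 1)| ≤ P) →
      T.card ≤ N := by
  obtain ⟨N, hN⟩ := near_card Q (2 * K ^ 2 + 2 * K ^ 3 + (2 * K + K ^ 2))
  refine ⟨N, fun P s0 T hP h1 h2 => ?_⟩
  rcases T.eq_empty_or_nonempty with rfl | ⟨b, hb⟩
  · simp
  refine hN b T fun c hc => ?_
  obtain ⟨a1, a2, a3⟩ := h1 b hb
  obtain ⟨b1, b2, b3⟩ := h1 c hc
  obtain ⟨x1, x0⟩ := h2 b hb c hc
  refine cell_pair (Q.ρ b) (Q.ρ c) (hT b) (hT c) (abs_p_mul_r Q hT b) (abs_p_mul_r Q hT c) K P s0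
    hK hP a1 a2 a3 b1 b2 b3 (Q.t c - Q.t b) ?_ ?_
  · rw [Pi.sub_apply]
    exact x1
  · rw [Pi.sub_apply, Pi.sub_apply]
    have e : Q.t c 0 - Q.t b 0 - s0 * (Q.t c 1 - Q.t b 1) =
        (Q.t c 0 - s0 * Q.t c 1) - (Q.t b 0 - s0 * Q.t b 1) := by ring
    rw [e]
    exact x0

end Pool.Agent.FQI
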