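import Pool.Agent.FQI.QBasic

/-!
# Commutators of elements near the identity

Proofs.
* `comm_mat`: `A B A⁻¹ B⁻¹ - 1 = (A B - B A) A⁻¹ B⁻¹
  = ((A - 1)(B - 1) - (B - 1)(A - 1)) A⁻¹ B⁻¹`, and `mn A⁻¹ = mn A ≤ mn 1 + 1/8 = 17/8`, the same for
  `B`; `2 * (17/8)² ≤ 10`.
* `comm_t`: let `α = mn (ρ a - 1)`, `β = mn (ρ b - 1)` (`≤ 1/8`). All matrices `ρ` of the words
  `a, b, a⁻¹, b⁻¹, a b, a b a⁻¹, a b a⁻¹ b⁻¹` have `mn ≤ 3 ^ 4 = 81`. With `t_mul Q 81` three times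
  and `t_inv Q 81` (the bounded errors are multiplied by matrices of norm `≤ 81`):
  `t (a b a⁻¹ b⁻¹) = t a + ρ a (t b) + ρ (a b) (t a⁻¹) + ρ (a b a⁻¹) (t b⁻¹) + O(1)
   = t a + ρ a (t b) - ρ (a b a⁻¹) (t a) - ρ (a b a⁻¹ b⁻¹) (t b) + O(1)
   = (1 - ρ (a b a⁻¹)) (t a) + (ρ a - ρ (a b a⁻¹ b⁻¹)) (t b) + O(1)`.
  `mn (1 - ρ (a b a⁻¹)) = mn (ρ a (1 - ρ b) (ρ a)⁻¹) ≤ 9 β`,
  `mn (ρ a - ρ (a b a⁻¹ b⁻¹)) ≤ α + 10 α β ≤ 3 α`. So `C = max 9 (the constant O(1))`.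
-/

set_option autoImplicit false

namespace Pool.Agent.FQI

open Matrix

theorem mn_le_three {A : M2} (h : mn (A - 1) ≤ 1 / 8) : mn A ≤ 17 / 8 := by
  have e : A = (A - 1) + 1 := by abel
  have h1 := mn_add_le (A - 1) 1
  rw [← e, mn_one] at h1
  linarith

theorem comm_mat (A B : M2) (hA : |A.det| = 1) (hB : |B.det| = 1) (h1 : mn (A - 1) ≤ 1 / 8)
    (h2 : mn (B - 1) ≤ 1 / 8) :
    mn (A * B * A⁻¹ * B⁻¹ - 1) ≤ 10 * mn (A - 1) * mn (B - 1) := by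
  have e : A * B * A⁻¹ * B⁻¹ - 1 =
      (((A - 1) * (B - 1) - (B - 1) * (A - 1)) * A⁻¹) * B⁻¹ := by
    have e1 : (A - 1) * (B - 1) - (B - 1) * (A - 1) = A * B - B * A := by noncomm_ring
    have e2 : B * A * A⁻¹ * B⁻¹ = 1 := by
      rw [Matrix.mul_assoc B, mul_inv_self_of hA, Matrix.mul_one, mul_inv_self_of hB]
    rw [e1, Matrix.sub_mul, Matrix.sub_mul, e2]
  have a := mn_nonneg (A - 1)
  have b := mn_nonneg (B - 1)
  have hA' : mn A⁻¹ ≤ 17 / 8 := by rw [mn_inv hA]; exact mn_le_three h1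
  have hB' : mn B⁻¹ ≤ 17 / 8 := by rw [mn_inv hB]; exact mn_le_three h2
  have k1 : mn ((A - 1) * (B - 1) - (B - 1) * (A - 1)) ≤ 2 * (mn (A - 1) * mn (B - 1)) := by
    have := mn_sub_le ((A - 1) * (B - 1)) ((B - 1) * (A - 1))
    have k3 := mn_mul_le (A - 1) (B - 1)
    have k4 := mn_mul_le (B - 1) (A - 1)
    nlinarith
  have k2 : mn (((A - 1) * (B - 1) - (B - 1) * (A - 1)) * A⁻¹) ≤
      2 * (mn (A - 1) * mn (B - 1)) * (17 / 8) :=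
    (mn_mul_le _ _).trans (mul_le_mul k1 hA' (mn_nonneg _) (by positivity))
  have k3 : mn ((((A - 1) * (B - 1) - (B - 1) * (A - 1)) * A⁻¹) * B⁻¹) ≤
      2 * (mn (A - 1) * mn (B - 1)) * (17 / 8) * (17 / 8) :=
    (mn_mul_le _ _).trans (mul_le_mul k2 hB' (mn_nonneg _) (by positivity))
  rw [e]
  have k4 := mul_nonneg a b
  linarith

variable {Γ : Type} [Group Γ]

theorem comm_t (Q : QuasiCoc Γ) :
    ∃ C : ℝ, 1 ≤ C ∧ ∀ a b, mn (Q.ρ a - 1) ≤ 1 / 8 → mn (Q.ρ b - 1) ≤ 1 / 8 →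
      vn (Q.t (a * b * a⁻¹ * b⁻¹)) ≤
        C * (mn (Q.ρ a - 1) * vn (Q.t b) + mn (Q.ρ b - 1) * vn (Q.t a)) + C := by
  obtain ⟨C1, hC1⟩ := t_mul Q 81
  obtain ⟨C2, hC2⟩ := t_inv Q 81
  refine ⟨9 + 3 * |C1| + 36 * |C2|, by have := abs_nonneg C1; have := abs_nonneg C2; linarith, ?_⟩
  intro a b ha hb
  have ia := rho_inv Q a
  have ib := rho_inv Q b
  have dA := Q.det_ρ a
  have dB := Q.det_ρ b
  have mab : Q.ρ (a * b) = Q.ρ a * Q.ρ b := map_mul _ _ _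
  have mabi : Q.ρ (a * b * a⁻¹) = Q.ρ a * Q.ρ b * (Q.ρ a)⁻¹ := by rw [map_mul, map_mul, ia]
  set A := Q.ρ a with hA
  set B := Q.ρ b with hB
  have nA : mn A ≤ 3 := (mn_le_three ha).trans (by norm_num)
  have nB : mn B ≤ 3 := (mn_le_three hb).trans (by norm_num)
  have nAi : mn A⁻¹ ≤ 3 := by rw [mn_inv dA]; exact nA
  have nBi : mn B⁻¹ ≤ 3 := by rw [mn_inv dB]; exact nB
  have nAB : mn (A * B) ≤ 9 := by
    have := (mn_mul_le A B).trans (mul_le_mul nA nB (mn_nonneg _) (by norm_num))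
    linarith
  have nABA : mn (A * B * A⁻¹) ≤ 27 := by
    have := (mn_mul_le (A * B) A⁻¹).trans (mul_le_mul nAB nAi (mn_nonneg _) (by norm_num))
    linarith
  -- the error vectors
  have e1 := hC1 a b (by rw [← hA]; linarith) (by rw [← hB]; linarith)
  have e2 := hC1 (a * b) a⁻¹ (by rw [mab]; linarith) (by rw [ia]; linarith)
  have e3 := hC1 (a * b * a⁻¹) b⁻¹ (by rw [mabi]; linarith) (by rw [ib]; linarith)
  have f1 := hC2 a (by rw [← hA]; linarith)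
  have f2 := hC2 b (by rw [← hB]; linarith)
  rw [← hA] at e1 f1
  rw [← hB] at f2
  rw [mab] at e2
  rw [mabi] at e3
  have key : Q.t (a * b * a⁻¹ * b⁻¹) =
      ((((((Q.t (a * b * a⁻¹ * b⁻¹) - Q.t (a * b * a⁻¹) - (A * B * A⁻¹) *ᵥ Q.t b⁻¹) +
      (Q.t (a * b * a⁻¹) - Q.t (a * b) - (A * B) *ᵥ Q.t a⁻¹)) +
      (Q.t (a * b) - Q.t a - A *ᵥ Q.t b)) +
      (A * B) *ᵥ (Q.t a⁻¹ + A⁻¹ *ᵥ Q.t a)) +
      (A * B * A⁻¹) *ᵥ (Q.t b⁻¹ + B⁻¹ *ᵥ Q.t b)) +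
      (1 - A * B * A⁻¹) *ᵥ Q.t a) +
      (A - A * B * A⁻¹ * B⁻¹) *ᵥ Q.t b := by
    simp only [Matrix.mulVec_add, Matrix.sub_mulVec, Matrix.one_mulVec, Matrix.mulVec_mulVec]
    abel
  have m1 : mn (1 - A * B * A⁻¹) ≤ 9 * mn (B - 1) := by
    have e : 1 - A * B * A⁻¹ = A * (1 - B) * A⁻¹ := by
      rw [Matrix.mul_sub, Matrix.sub_mul, Matrix.mul_one, mul_inv_self_of dA]
    rw [e, mn_sub_comm B 1]
    have k1 : mn (A * (1 - B)) ≤ 3 * mn (1 - B) :=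
      (mn_mul_le _ _).trans (mul_le_mul_of_nonneg_right nA (mn_nonneg _))
    have k2 := (mn_mul_le (A * (1 - B)) A⁻¹).trans
      (mul_le_mul k1 nAi (mn_nonneg _) (by have := mn_nonneg (1 - B); positivity))
    linarith
  have m2 : mn (A - A * B * A⁻¹ * B⁻¹) ≤ 3 * mn (A - 1) := by
    have e : A - A * B * A⁻¹ * B⁻¹ = (A - 1) - (A * B * A⁻¹ * B⁻¹ - 1) := by abel
    rw [e]
    have k1 := mn_sub_le (A - 1) (A * B * A⁻¹ * B⁻¹ - 1)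
    have k2 := comm_mat A B dA dB ha hb
    have k3 := mn_nonneg (A - 1)
    have k4 := mn_nonneg (B - 1)
    nlinarith
  have a0 := mn_nonneg (A - 1)
  have b0 := mn_nonneg (B - 1)
  have ta := vn_nonneg (Q.t a)
  have tb := vn_nonneg (Q.t b)
  have g1 : vn ((A * B) *ᵥ (Q.t a⁻¹ + A⁻¹ *ᵥ Q.t a)) ≤ 9 * |C2| :=
    (vn_mulVec_le _ _).trans (mul_le_mul nAB (f1.trans (le_abs_self _)) (vn_nonneg _)
      (by norm_num))
  have g2 : vn ((A * B * A⁻¹) *ᵥ (Q.t b⁻¹ + B⁻¹ *ᵥ Q.t b)) ≤ 27 * |C2| :=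
    (vn_mulVec_le _ _).trans (mul_le_mul nABA (f2.trans (le_abs_self _)) (vn_nonneg _)
      (by norm_num))
  have g3 : vn ((1 - A * B * A⁻¹) *ᵥ Q.t a) ≤ 9 * mn (B - 1) * vn (Q.t a) :=
    (vn_mulVec_le _ _).trans (mul_le_mul_of_nonneg_right m1 ta)
  have g4 : vn ((A - A * B * A⁻¹ * B⁻¹) *ᵥ Q.t b) ≤ 3 * mn (A - 1) * vn (Q.t b) :=
    (vn_mulVec_le _ _).trans (mul_le_mul_of_nonneg_right m2 tb)
  have c1 := le_abs_self C1
  rw [key]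
  refine (vn_add_le _ _).trans ?_
  refine (add_le_add_left (vn_add_le _ _) _).trans ?_
  refine (add_le_add_left (add_le_add_left (vn_add_le _ _) _) _).trans ?_
  refine (add_le_add_left (add_le_add_left (add_le_add_left (vn_add_le _ _) _) _) _).trans ?_
  refine (add_le_add_left (add_le_add_left (add_le_add_left (add_le_add_left
    (vn_add_le _ _) _) _) _) _).trans ?_
  refine (add_le_add_left (add_le_add_left (add_le_add_left (add_le_add_left (add_le_add_left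
    (vn_add_le _ _) _) _) _) _) _).trans ?_
  have p1 : 0 ≤ mn (A - 1) * vn (Q.t b) := mul_nonneg a0 tb
  have p2 : 0 ≤ mn (B - 1) * vn (Q.t a) := mul_nonneg b0 ta
  have q1 := abs_nonneg C1
  have q2 := abs_nonneg C2
  have r1 : 0 ≤ (3 * |C1| + 36 * |C2|) * (mn (A - 1) * vn (Q.t b) + mn (B - 1) * vn (Q.t a)) := by
    positivity
  nlinarith

end Pool.Agent.FQI
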