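import Mathlib

/-!
# Groups quasi-isometric to `ℝ² ⋊ SL₂(ℝ)` that coarsely preserve the `ℝ²` fibres: definitions

Problem `MP_84ef61_al` (Farb). The goal of the folder `FQI`: no group `Γ` admits a quasi-isometry
`f : Γ → G = ℝ² ⋊ SL₂(ℝ)` such that the left translations of `Γ`, transported by `f`, coarsely
preserve the cosets of `ℝ²`.

Write `f a = (u a, g a)` with `u a ∈ V = ℝ²`, `g a ∈ SL₂(ℝ)`. Then
`f(a)⁻¹ f(b) = (g(a)⁻¹ (u b - u a), g(a)⁻¹ g(b))`, so `f b` is within bounded distance of `f a` iff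
`mn (g(a)⁻¹ g(b))` and `vn (g(a)⁻¹ (u b - u a))` are bounded (`NR`).

* `FibQI Γ`: such a quasi-isometry (`c1`, `c2`, `c3`: a coarse form of quasi-isometry), `fp`: fibre
  preservation.
* `pt Q w h` : an element of `Γ` whose image is `R0 Q`-close to `(w, h)`.
* `F Q γ v` : the coarse map `γ ∘ (translation by v) ∘ γ⁻¹`; `sh Q γ v a = u (F γ v a) - u a`.
* `QuasiCoc Γ`: a homomorphism `ρ : Γ →* GL₂` with a `ρ`-quasi-cocycle `t : Γ → V`, proper and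
  coarsely onto.

First half of the proof: `FibQI Γ → Nonempty (QuasiCoc Γ)`; second half: `QuasiCoc Γ → False`.
-/

set_option autoImplicit false

namespace Pool.Agent.FQI

open Matrix

/-- The plane. -/
abbrev V := Fin 2 → ℝ

/-- Real `2 × 2` matrices. -/
abbrev M2 := Matrix (Fin 2) (Fin 2) ℝ

/-- The entrywise `ℓ¹` norm of a matrix. -/
noncomputable def mn (A : M2) : ℝ := |A 0 0| + |A 0 1| + |A 1 0| + |A 1 1|

/-- The `ℓ¹` norm of a vector. -/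
noncomputable def vn (v : V) : ℝ := |v 0| + |v 1|

/-- `(w', h')` is `R`-close to `(w, h)` (in the left invariant coarse metric of `ℝ² ⋊ SL₂`). -/
def NR (R : ℝ) (w : V) (h : M2) (w' : V) (h' : M2) : Prop :=
  mn (h⁻¹ * h') ≤ R ∧ vn (h⁻¹ *ᵥ (w' - w)) ≤ R

/-- A (coarse) quasi-isometry `a ↦ (u a, g a)` from `Γ` to `ℝ² ⋊ SL₂(ℝ)` for which the left
translations of `Γ` coarsely preserve the `ℝ²` fibres. -/
structure FibQI (Γ : Type) [Group Γ] where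
  u : Γ → V
  g : Γ → M2
  det_g : ∀ a, (g a).det = 1
  c1 : ∀ s : Γ, ∃ R : ℝ, ∀ a, NR R (u a) (g a) (u (a * s)) (g (a * s))
  c2 : ∀ R : ℝ, ∃ E : Finset Γ, ∀ a b, NR R (u a) (g a) (u b) (g b) → a⁻¹ * b ∈ E
  c3 : ∃ R : ℝ, ∀ (w : V) (h : M2), h.det = 1 → ∃ a, NR R w h (u a) (g a)
  fp : ∀ R : ℝ, ∃ R' : ℝ, ∀ γ a b, mn ((g a)⁻¹ * g b) ≤ R →
    mn ((g (γ * a))⁻¹ * g (γ * b)) ≤ R'

variable {Γ : Type} [Group Γ]

/-- `a` and `b` have `R`-close images. -/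
def near (Q : FibQI Γ) (R : ℝ) (a b : Γ) : Prop := NR R (Q.u a) (Q.g a) (Q.u b) (Q.g b)

/-- The constant of `c3`. -/
noncomputable def R0 (Q : FibQI Γ) : ℝ := Classical.choose Q.c3

theorem R0_spec (Q : FibQI Γ) (w : V) (h : M2) (H : h.det = 1) :
    ∃ a, NR (R0 Q) w h (Q.u a) (Q.g a) :=
  Classical.choose_spec Q.c3 w h H

open Classical in
/-- An element of `Γ` whose image is `R0 Q`-close to `(w, h)` (if `det h = 1`). -/
noncomputable def pt (Q : FibQI Γ) (w : V) (h : M2) : Γ :=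
  if H : h.det = 1 then Classical.choose (R0_spec Q w h H) else 1

theorem pt_spec (Q : FibQI Γ) (w : V) (h : M2) (H : h.det = 1) :
    NR (R0 Q) w h (Q.u (pt Q w h)) (Q.g (pt Q w h)) := by
  have e : pt Q w h = Classical.choose (R0_spec Q w h H) := by
    unfold pt; rw [dif_pos H]
  rw [e]
  exact Classical.choose_spec (R0_spec Q w h H)

/-- The coarse map `γ ∘ (translation by v) ∘ γ⁻¹` of `Γ`. -/
noncomputable def F (Q : FibQI Γ) (γ : Γ) (v : V) (a : Γ) : Γ :=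
  γ * pt Q (Q.u (γ⁻¹ * a) + v) (Q.g (γ⁻¹ * a))

/-- The displacement of `F Q γ v` in the plane. -/
noncomputable def sh (Q : FibQI Γ) (γ : Γ) (v : V) (a : Γ) : V := Q.u (F Q γ v a) - Q.u a

/-- A homomorphism `ρ : Γ → GL₂(ℝ)` (`|det| = 1`) with a `ρ`-quasi-cocycle `t : Γ → ℝ²` such that
`a ↦ (t a, ρ a)` is proper and coarsely onto `ℝ² ⋊ SL₂(ℝ)`. -/
structure QuasiCoc (Γ : Type) [Group Γ] where
  ρ : Γ →* M2
  t : Γ → V
  det_ρ : ∀ a, |(ρ a).det| = 1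
  q : ∀ R : ℝ, ∃ C : ℝ, ∀ a s, mn (ρ s) ≤ R → vn ((ρ a)⁻¹ *ᵥ (t (a * s) - t a) - t s) ≤ C
  fin : ∀ R : ℝ, {s : Γ | mn (ρ s) ≤ R ∧ vn (t s) ≤ R}.Finite
  cob : ∃ R : ℝ, ∀ (w : V) (h : M2), h.det = 1 → ∃ a, NR R w h (t a) (ρ a)

end Pool.Agent.FQI
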