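import Pool.Agent.FQI.QBasic

/-!
# A large element of the kernel, if the image of `ρ` is discrete

Proof. Let `R` be the constant of `Q.cob`; `C` the constant of `Q.q 2`. Given `M`. For `n : ℕ` choose
`a n` with `NR R ![n * D, 0] 1 (t (a n)) (ρ (a n))` (`D` to be chosen): `mn (ρ (a n)) ≤ R`,
`vn (t (a n) - ![n * D, 0]) ≤ R`. The values `ρ (a n)` lie in a finite set, so by the pigeonhole
principle (`Finite.exists_ne_map_eq_of_infinite` or `Set.Finite` + `Set.infinite_univ`) there are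
`n < m` with `ρ (a n) = ρ (a m)`. Let `k = (a n)⁻¹ * a m`; `ρ k = 1`. By `Q.q 2` for `(a n, k)`:
`vn ((ρ (a n))⁻¹ (t (a m) - t (a n)) - t k) ≤ C`. With `x := t (a m) - t (a n)`,
`vn x ≥ (m - n) * D - 2R ≥ D - 2R` and `vn x ≤ mn (ρ (a n)) * vn ((ρ (a n))⁻¹ x)
≤ R * vn ((ρ (a n))⁻¹ x)`. So `vn (t k) ≥ (D - 2R) / R - C > M` for `D` large.
-/

set_option autoImplicit false

namespace Pool.Agent.FQI

open Matrix

variable {Γ : Type} [Group Γ]

theorem big_ker (Q : QuasiCoc Γ)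
    (hd : ∀ R : ℝ, {A : M2 | (∃ a, Q.ρ a = A) ∧ mn A ≤ R}.Finite) (M : ℝ) :
    ∃ k, Q.ρ k = 1 ∧ M < vn (Q.t k) := by
  obtain ⟨R, hR⟩ := Q.cob
  obtain ⟨C, hC⟩ := Q.q 2
  set D : ℝ := 2 * R + R * (|M| + |C| + 1) with hD
  have hch : ∀ n : ℕ, ∃ a, NR R ![n * D, 0] 1 (Q.t a) (Q.ρ a) := fun n => hR _ 1 (by simp)
  choose a ha using hch
  have ham : ∀ n, mn (Q.ρ (a n)) ≤ R := by
    intro n
    have := (ha n).1
    rwa [inv_one, Matrix.one_mul] at this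
  have hat : ∀ n, |Q.t (a n) 0 - n * D| ≤ R := by
    intro n
    have h1 := (ha n).2
    rw [inv_one, Matrix.one_mulVec] at h1
    have h2 := abs_le_vn (Q.t (a n) - ![n * D, 0]) 0
    simp only [Pi.sub_apply, Matrix.cons_val_zero] at h2
    exact h2.trans h1
  have hR1 : 1 ≤ R := (one_le_mn (Q.det_ρ (a 0))).trans (ham 0)
  have key : ∀ n m : ℕ, n < m → Q.ρ (a n) = Q.ρ (a m) → ∃ k, Q.ρ k = 1 ∧ M < vn (Q.t k) := by
    intro n m hnm he
    have hk : Q.ρ ((a n)⁻¹ * a m) = 1 := by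
      rw [map_mul, ← he, ← map_mul, inv_mul_cancel, map_one]
    refine ⟨(a n)⁻¹ * a m, hk, ?_⟩
    have h1 := hC (a n) ((a n)⁻¹ * a m) (by rw [hk, mn_one])
    rw [mul_inv_cancel_left] at h1
    set x := Q.t (a m) - Q.t (a n) with hx
    have h2 : vn x ≤ R * vn ((Q.ρ (a n))⁻¹ *ᵥ x) := by
      have e : x = Q.ρ (a n) *ᵥ ((Q.ρ (a n))⁻¹ *ᵥ x) := by
        rw [Matrix.mulVec_mulVec, mul_inv_self_of (Q.det_ρ _), Matrix.one_mulVec]
      calc vn x = vn (Q.ρ (a n) *ᵥ ((Q.ρ (a n))⁻¹ *ᵥ x)) := by rw [← e]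
        _ ≤ mn (Q.ρ (a n)) * vn ((Q.ρ (a n))⁻¹ *ᵥ x) := vn_mulVec_le _ _
        _ ≤ _ := mul_le_mul_of_nonneg_right (ham n) (vn_nonneg _)
    have h3 : vn ((Q.ρ (a n))⁻¹ *ᵥ x) ≤ C + vn (Q.t ((a n)⁻¹ * a m)) := by
      have e : (Q.ρ (a n))⁻¹ *ᵥ x =
          ((Q.ρ (a n))⁻¹ *ᵥ x - Q.t ((a n)⁻¹ * a m)) + Q.t ((a n)⁻¹ * a m) := by abel
      rw [e]
      exact (vn_add_le _ _).trans (by linarith)
    have h4 : D - 2 * R ≤ vn x := by
      have h5 := abs_le_vn x 0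
      have h6 : x 0 = Q.t (a m) 0 - Q.t (a n) 0 := rfl
      have h7 := hat n
      have h8 := hat m
      rw [abs_le] at h7 h8
      have h9 : (n : ℝ) + 1 ≤ m := by exact_mod_cast hnm
      have hD0 : 0 ≤ D := by
        rw [hD]; have := abs_nonneg M; have := abs_nonneg C; positivity
      have h10 : (n : ℝ) * D + D ≤ m * D := by nlinarith
      have h11 := le_abs_self (x 0)
      rw [h6] at h11
      rw [h6] at h5
      linarith [h7.1, h7.2, h8.1, h8.2]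
    have h12 : R * (|M| + |C| + 1) ≤ R * (C + vn (Q.t ((a n)⁻¹ * a m))) := by
      have h13 : R * vn ((Q.ρ (a n))⁻¹ *ᵥ x) ≤ R * (C + vn (Q.t ((a n)⁻¹ * a m))) :=
        mul_le_mul_of_nonneg_left h3 (by linarith)
      linarith
    have h14 : |M| + |C| + 1 ≤ C + vn (Q.t ((a n)⁻¹ * a m)) :=
      le_of_mul_le_mul_left h12 (by linarith)
    have h15 := le_abs_self M
    have h16 := le_abs_self C
    linarith
  obtain ⟨n, -, m, -, hne, he⟩ := Set.infinite_univ.exists_ne_map_eq_of_mapsTo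
    (f := fun n : ℕ => Q.ρ (a n)) (t := {A : M2 | (∃ a, Q.ρ a = A) ∧ mn A ≤ R})
    (fun n _ => ⟨⟨a n, rfl⟩, ham n⟩) (hd R)
  rcases lt_or_gt_of_ne hne with h | h
  · exact key n m h he
  · exact key m n h he.symm

end Pool.Agent.FQI
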