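import Pool.Agent.FQI.QBasic

/-!
# Equivariance and additivity of the homogenization (proof by helper18)

Proofs.
* `tau_equi`: fix `a`, `k` (`ρ k = 1`). For `n : ℕ` let `b = (a * k * a⁻¹) ^ n = a * k ^ n * a⁻¹`;
  `ρ b = 1`, `b * a = a * k ^ n`. `Q.q (mn (ρ a))` for the pair `(b, a)`:
  `vn (t (b * a) - t b - t a)` is bounded independently of `n`. `Q.q 2` for the pair `(a, k ^ n)`:
  `vn ((ρ a)⁻¹ (t (a * k ^ n) - t a) - t (k ^ n)) ≤ C`, so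
  `vn (t (a * k ^ n) - t a - ρ a (t (k ^ n)))` is bounded independently of `n`. Subtract:
  `vn (t b - ρ a (t (k ^ n)))` is bounded in `n`; with `h1`, `vn (τ b - ρ a (τ (k ^ n)))` is bounded
  in `n`; with `h2` this is `n * vn (τ (a k a⁻¹) - ρ a (τ k))`, so the vector is zero.
* `tau_add`: `δ := τ (k * l) - τ k - τ l`. By `h1` and `Q.q 2`, `vn δ ≤ 3 * C + C'`, for all `k`, `l`
  in the kernel. Apply this to `a k a⁻¹`, `a l a⁻¹` (product `a (k l) a⁻¹`): by `tau_equi`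
  `vn (ρ a *ᵥ δ) ≤ 3 * C + C'` for all `a`, so `δ = 0` by `expand`.
-/

set_option autoImplicit false

namespace Pool.Agent.FQI

open Matrix

variable {Γ : Type} [Group Γ]

private theorem conj_ker (Q : QuasiCoc Γ) (a k : Γ) (hk : Q.ρ k = 1) : Q.ρ (a * k * a⁻¹) = 1 := by
  rw [map_mul, map_mul, hk, mul_one, ← map_mul, mul_inv_cancel, map_one]

theorem tau_equi (Q : QuasiCoc Γ) (τ : Γ → V) (C : ℝ)
    (h1 : ∀ k, Q.ρ k = 1 → vn (τ k - Q.t k) ≤ C)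
    (h2 : ∀ k, Q.ρ k = 1 → ∀ n : ℕ, τ (k ^ n) = (n : ℝ) • τ k) (a k : Γ) (hk : Q.ρ k = 1) :
    τ (a * k * a⁻¹) = Q.ρ a *ᵥ τ k := by
  obtain ⟨C1, hC1⟩ := Q.q (mn (Q.ρ a))
  obtain ⟨C2, hC2⟩ := Q.q 2
  have hmn := mn_nonneg (Q.ρ a)
  have hB : ∀ n : ℕ, (n : ℝ) * vn (τ (a * k * a⁻¹) - Q.ρ a *ᵥ τ k) ≤
      C + (C1 + mn (Q.ρ a) * C2) + mn (Q.ρ a) * C := by
    intro n
    have hb1 : (a * k * a⁻¹) ^ n = a * k ^ n * a⁻¹ := conj_pow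
    have hkn : Q.ρ (k ^ n) = 1 := by rw [map_pow, hk, one_pow]
    have hρb : Q.ρ ((a * k * a⁻¹) ^ n) = 1 := by rw [map_pow, conj_ker Q a k hk, one_pow]
    have hba : (a * k * a⁻¹) ^ n * a = a * k ^ n := by rw [hb1, inv_mul_cancel_right]
    have e1 := hC1 ((a * k * a⁻¹) ^ n) a le_rfl
    rw [hρb, inv_one, Matrix.one_mulVec, hba] at e1
    have e2 := hC2 a (k ^ n) (by rw [hkn, mn_one])
    have e3 : vn (Q.t (a * k ^ n) - Q.t a - Q.ρ a *ᵥ Q.t (k ^ n)) ≤ mn (Q.ρ a) * C2 := by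
      have e : Q.t (a * k ^ n) - Q.t a - Q.ρ a *ᵥ Q.t (k ^ n)
          = Q.ρ a *ᵥ ((Q.ρ a)⁻¹ *ᵥ (Q.t (a * k ^ n) - Q.t a) - Q.t (k ^ n)) := by
        rw [Matrix.mulVec_sub, Matrix.mulVec_mulVec, mul_inv_self_of (Q.det_ρ a),
          Matrix.one_mulVec]
      rw [e]
      exact (vn_mulVec_le _ _).trans (mul_le_mul_of_nonneg_left e2 hmn)
    have e4 : vn (Q.t ((a * k * a⁻¹) ^ n) - Q.ρ a *ᵥ Q.t (k ^ n)) ≤ C1 + mn (Q.ρ a) * C2 := by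
      have e : Q.t ((a * k * a⁻¹) ^ n) - Q.ρ a *ᵥ Q.t (k ^ n) =
          (Q.t (a * k ^ n) - Q.t a - Q.ρ a *ᵥ Q.t (k ^ n)) -
            (Q.t (a * k ^ n) - Q.t ((a * k * a⁻¹) ^ n) - Q.t a) := by abel
      rw [e]
      have := vn_sub_le (Q.t (a * k ^ n) - Q.t a - Q.ρ a *ᵥ Q.t (k ^ n))
        (Q.t (a * k ^ n) - Q.t ((a * k * a⁻¹) ^ n) - Q.t a)
      linarith
    have e5 := h1 ((a * k * a⁻¹) ^ n) hρb
    have e6 := h1 (k ^ n) hkn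
    have e7 : vn (Q.ρ a *ᵥ (τ (k ^ n) - Q.t (k ^ n))) ≤ mn (Q.ρ a) * C :=
      (vn_mulVec_le _ _).trans (mul_le_mul_of_nonneg_left e6 hmn)
    have e8 : (n : ℝ) * vn (τ (a * k * a⁻¹) - Q.ρ a *ᵥ τ k) =
        vn ((τ ((a * k * a⁻¹) ^ n) - Q.t ((a * k * a⁻¹) ^ n)) +
          (Q.t ((a * k * a⁻¹) ^ n) - Q.ρ a *ᵥ Q.t (k ^ n)) -
          Q.ρ a *ᵥ (τ (k ^ n) - Q.t (k ^ n))) := by
      have e9 : (τ ((a * k * a⁻¹) ^ n) - Q.t ((a * k * a⁻¹) ^ n)) +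
          (Q.t ((a * k * a⁻¹) ^ n) - Q.ρ a *ᵥ Q.t (k ^ n)) -
          Q.ρ a *ᵥ (τ (k ^ n) - Q.t (k ^ n)) =
          (n : ℝ) • (τ (a * k * a⁻¹) - Q.ρ a *ᵥ τ k) := by
        rw [h2 _ (conj_ker Q a k hk) n, h2 k hk n, Matrix.mulVec_sub, Matrix.mulVec_smul, smul_sub]
        abel
      rw [e9, vn_smul, abs_of_nonneg (Nat.cast_nonneg n)]
    rw [e8]
    refine (vn_sub_le _ _).trans ?_
    have := vn_add_le (τ ((a * k * a⁻¹) ^ n) - Q.t ((a * k * a⁻¹) ^ n))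
      (Q.t ((a * k * a⁻¹) ^ n) - Q.ρ a *ᵥ Q.t (k ^ n))
    linarith
  have h0 : vn (τ (a * k * a⁻¹) - Q.ρ a *ᵥ τ k) = 0 := by
    by_contra hne
    have hpos : 0 < vn (τ (a * k * a⁻¹) - Q.ρ a *ᵥ τ k) :=
      lt_of_le_of_ne (vn_nonneg _) (Ne.symm hne)
    obtain ⟨n, hn⟩ := exists_nat_gt
      ((C + (C1 + mn (Q.ρ a) * C2) + mn (Q.ρ a) * C) / vn (τ (a * k * a⁻¹) - Q.ρ a *ᵥ τ k))
    rw [div_lt_iff₀ hpos] at hn
    exact absurd (hB n) (not_le.2 hn)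
  exact sub_eq_zero.1 (vn_eq_zero h0)

theorem tau_add (Q : QuasiCoc Γ) (τ : Γ → V) (C : ℝ)
    (h1 : ∀ k, Q.ρ k = 1 → vn (τ k - Q.t k) ≤ C)
    (h2 : ∀ k, Q.ρ k = 1 → ∀ n : ℕ, τ (k ^ n) = (n : ℝ) • τ k)
    (k l : Γ) (hk : Q.ρ k = 1) (hl : Q.ρ l = 1) :
    τ (k * l) = τ k + τ l := by
  obtain ⟨C2, hC2⟩ := Q.q 2
  have hδ : ∀ k l, Q.ρ k = 1 → Q.ρ l = 1 → vn (τ (k * l) - τ k - τ l) ≤ 3 * C + C2 := by
    intro k l hk hl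
    have e1 := hC2 k l (by rw [hl, mn_one])
    rw [hk, inv_one, Matrix.one_mulVec] at e1
    have e2 := h1 (k * l) (by rw [map_mul, hk, hl, one_mul])
    have e3 := h1 k hk
    have e4 := h1 l hl
    have e : τ (k * l) - τ k - τ l = ((τ (k * l) - Q.t (k * l)) + (Q.t (k * l) - Q.t k - Q.t l)) -
        ((τ k - Q.t k) + (τ l - Q.t l)) := by abel
    rw [e]
    have e5 := vn_sub_le ((τ (k * l) - Q.t (k * l)) + (Q.t (k * l) - Q.t k - Q.t l))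
      ((τ k - Q.t k) + (τ l - Q.t l))
    have e6 := vn_add_le (τ (k * l) - Q.t (k * l)) (Q.t (k * l) - Q.t k - Q.t l)
    have e7 := vn_add_le (τ k - Q.t k) (τ l - Q.t l)
    linarith
  by_contra hne
  have hne' : τ (k * l) - τ k - τ l ≠ 0 := by
    intro h0
    apply hne
    rw [sub_sub, sub_eq_zero] at h0
    exact h0
  obtain ⟨a, ha⟩ := expand Q _ hne' (3 * C + C2)
  have h3 := hδ (a * k * a⁻¹) (a * l * a⁻¹) (conj_ker Q a k hk) (conj_ker Q a l hl)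
  have h4 : a * k * a⁻¹ * (a * l * a⁻¹) = a * (k * l) * a⁻¹ := by group
  rw [h4, tau_equi Q τ C h1 h2 a k hk, tau_equi Q τ C h1 h2 a l hl,
    tau_equi Q τ C h1 h2 a (k * l) (by rw [map_mul, hk, hl, one_mul]), ← Matrix.mulVec_sub,
    ← Matrix.mulVec_sub] at h3
  exact absurd h3 (not_le.2 ha)

end Pool.Agent.FQI
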