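import Pool.Agent.FQI.Tau1
import Pool.Agent.FQI.Tau2
import Pool.Agent.FQI.DiscA

/-!
# The image of `ρ` is not discrete

Proof. Suppose all these sets are finite. `tau_hom` gives `τ`, `C`; by `big_ker` with `M = C` there is
`k0`, `ρ k0 = 1`, `τ k0 ≠ 0` (`vn (τ k0) ≥ vn (t k0) - C > 0`). The set
`K0 := {k | ρ k = 1 ∧ vn (τ k) ≤ vn (τ k0)}` is finite: it is contained in
`{s | mn (ρ s) ≤ R ∧ vn (t s) ≤ R}` with `R = max 2 (vn (τ k0) + C)` (`Q.fin`). So the finite nonempty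
set of the numbers `vn (τ k)`, `k ∈ K0`, `τ k ≠ 0`, has a minimum `m > 0`; thus every `k` with
`ρ k = 1`, `τ k ≠ 0` satisfies `vn (τ k) ≥ m` (if `vn (τ k) > vn (τ k0)` it is also `≥ m`). By `shrink`
there is `a` with `vn (ρ a *ᵥ τ k0) < m`; but `ρ a *ᵥ τ k0 = τ (a * k0 * a⁻¹)` (`tau_equi`),
`ρ (a * k0 * a⁻¹) = 1` and it is nonzero (`ρ a` is invertible). Contradiction.
-/

set_option autoImplicit false

namespace Pool.Agent.FQI

open Matrix

variable {Γ : Type} [Group Γ]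

theorem not_discrete (Q : QuasiCoc Γ) :
    ∃ R : ℝ, ¬ {A : M2 | (∃ a, Q.ρ a = A) ∧ mn A ≤ R}.Finite := by
  by_contra hcon
  push Not at hcon
  obtain ⟨τ, C, h1, h2⟩ := tau_hom Q
  obtain ⟨k0, hk0, hM⟩ := big_ker Q hcon C
  have hτ0 : 0 < vn (τ k0) := by
    have h3 := h1 k0 hk0
    have e : Q.t k0 = τ k0 - (τ k0 - Q.t k0) := by abel
    have h4 := vn_sub_le (τ k0) (τ k0 - Q.t k0)
    rw [← e] at h4
    linarith
  -- the finite set
  set K0 : Set Γ := {k | Q.ρ k = 1 ∧ vn (τ k) ≤ vn (τ k0) ∧ τ k ≠ 0} with hK0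
  have hfin : K0.Finite := by
    refine (Q.fin (max 2 (vn (τ k0) + C))).subset ?_
    intro k hk
    obtain ⟨e1, e2, -⟩ := hk
    refine ⟨?_, ?_⟩
    · rw [e1, mn_one]; exact le_max_left _ _
    · refine le_trans ?_ (le_max_right _ _)
      have h3 := h1 k e1
      have e : Q.t k = τ k - (τ k - Q.t k) := by abel
      have h4 := vn_sub_le (τ k) (τ k - Q.t k)
      rw [← e] at h4
      linarith
  have hne0 : τ k0 ≠ 0 := by
    intro h
    rw [h, vn_zero] at hτ0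
    exact lt_irrefl _ hτ0
  have hne : K0.Nonempty := ⟨k0, hk0, le_rfl, hne0⟩
  obtain ⟨k1, hk1, hmin⟩ := hfin.exists_minimalFor (fun k => vn (τ k)) K0 hne
  have hm : 0 < vn (τ k1) := by
    rcases lt_or_eq_of_le (vn_nonneg (τ k1)) with h | h
    · exact h
    · exact absurd (vn_eq_zero h.symm) hk1.2.2
  have hall : ∀ k, Q.ρ k = 1 → τ k ≠ 0 → vn (τ k1) ≤ vn (τ k) := by
    intro k e1 e2
    rcases le_total (vn (τ k)) (vn (τ k0)) with h | h
    · rcases le_total (vn (τ k1)) (vn (τ k)) with h' | h'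
      · exact h'
      · exact hmin ⟨e1, h, e2⟩ h'
    · exact hk1.2.1.trans h
  obtain ⟨a, ha⟩ := shrink Q (τ k0) (vn (τ k1)) hm
  rw [← tau_equi Q τ C h1 h2 a k0 hk0] at ha
  have hρ : Q.ρ (a * k0 * a⁻¹) = 1 := by
    rw [map_mul, map_mul, hk0, mul_one, ← map_mul, mul_inv_cancel, map_one]
  have hne1 : τ (a * k0 * a⁻¹) ≠ 0 := by
    rw [tau_equi Q τ C h1 h2 a k0 hk0]
    intro h
    apply hne0
    have e : τ k0 = (Q.ρ a)⁻¹ *ᵥ (Q.ρ a *ᵥ τ k0) := by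
      rw [Matrix.mulVec_mulVec, inv_mul_self_of (Q.det_ρ a), Matrix.one_mulVec]
    rw [e, h, Matrix.mulVec_zero]
  have := hall _ hρ hne1
  linarith

end Pool.Agent.FQI
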