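import Pool.Agent.FQI.Near

/-!
# The coarse maps `F Q γ v`

Recall `F Q γ v a = γ * pt Q (u b + v) (g b)` with `b = γ⁻¹ * a`, so `γ * b = a`.

Proofs.
* `F_fib`: put `c = pt Q (u b + v) (g b)`. By `pt_spec`, `mn ((g b)⁻¹ * g c) ≤ R0 Q`. `Q.fp (R0 Q)`
  gives `R'` with `mn ((g (γ * b))⁻¹ * g (γ * c)) ≤ R'`, and `γ * b = a`, `γ * c = F Q γ v a`.
* `F_near`: `near_left` for `γ⁻¹` (`γ⁻¹ * a` and `γ⁻¹ * b` are close), `NR_shift`, `near_pt`,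
  `near_left` for `γ`.
* `F_comp`: let `b = γ⁻¹ * a`, `c = pt Q (u b + v') (g b)`; then `F Q γ v' a = γ * c` and
  `γ⁻¹ * (γ * c) = c`. By `pt_spec` and `NR_shift`,
  `NR (R0 Q) (u b + v' + v) (g b) (u c + v) (g c)`; by `NR_symm` and `near_pt`,
  `pt Q (u c + v) (g c)` is near `pt Q (u b + (v + v')) (g b)`; apply `near_left` for `γ`.
* `F_small`: `b = γ⁻¹ * a`. `NR_of_vn`: `(u b + v, g b)` is `max R 2`-close to `(u b, g b)`;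
  with `pt_spec` and `NR_trans`, `b` is near `pt Q (u b + v) (g b)`; then `near_left` for `γ`.
* `F_one`: `1 * x = x`, `1⁻¹ * a = a` and `pt_spec`; `R = R0 Q`.
-/

set_option autoImplicit false

namespace Pool.Agent.FQI

open Matrix

variable {Γ : Type} [Group Γ]

/-- `F Q γ v` moves every point within a bounded neighbourhood of its fibre. -/
theorem F_fib (Q : FibQI Γ) :
    ∃ R : ℝ, ∀ γ v a, mn ((Q.g a)⁻¹ * Q.g (F Q γ v a)) ≤ R := by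
  obtain ⟨R', hR'⟩ := Q.fp (R0 Q)
  refine ⟨R', ?_⟩
  intro γ v a
  have h1 := (pt_spec Q (Q.u (γ⁻¹ * a) + v) (Q.g (γ⁻¹ * a)) (Q.det_g _)).1
  have h2 := hR' γ _ _ h1
  rw [mul_inv_cancel_left] at h2
  exact h2

theorem F_near (Q : FibQI Γ) (R : ℝ) :
    ∃ R' : ℝ, ∀ γ v a b, near Q R a b → near Q R' (F Q γ v a) (F Q γ v b) := by
  obtain ⟨R1, h1⟩ := near_left Q R
  obtain ⟨R2, h2⟩ := near_pt Q R1
  obtain ⟨R3, h3⟩ := near_left Q R2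
  refine ⟨R3, ?_⟩
  intro γ v a b H
  unfold F
  apply h3
  apply h2 _ _ _ _ (Q.det_g _) (Q.det_g _)
  exact NR_shift v (h1 γ⁻¹ a b H)

theorem F_comp (Q : FibQI Γ) :
    ∃ R : ℝ, ∀ γ v v' a, near Q R (F Q γ v (F Q γ v' a)) (F Q γ (v + v') a) := by
  obtain ⟨R1, h1⟩ := near_pt Q (R0 Q * R0 Q)
  obtain ⟨R2, h2⟩ := near_left Q R1
  refine ⟨R2, ?_⟩
  intro γ v v' a
  unfold F
  apply h2
  rw [inv_mul_cancel_left]
  apply h1 _ _ _ _ (Q.det_g _) (Q.det_g _)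
  have h3 := pt_spec Q (Q.u (γ⁻¹ * a) + v') (Q.g (γ⁻¹ * a)) (Q.det_g _)
  have h4 := NR_symm (Q.det_g _) (Q.det_g _) h3
  have h5 := NR_shift v h4
  have e : Q.u (γ⁻¹ * a) + (v + v') = Q.u (γ⁻¹ * a) + v' + v := by abel
  rw [e]
  exact h5

theorem F_small (Q : FibQI Γ) (R : ℝ) :
    ∃ R' : ℝ, ∀ γ v a, vn ((Q.g (γ⁻¹ * a))⁻¹ *ᵥ v) ≤ R → near Q R' a (F Q γ v a) := by
  obtain ⟨R1, h1⟩ := near_left Q (max R 2 * R0 Q + max R 2)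
  refine ⟨R1, ?_⟩
  intro γ v a H
  have h2 := pt_spec Q (Q.u (γ⁻¹ * a) + v) (Q.g (γ⁻¹ * a)) (Q.det_g _)
  have h3 : NR (max R 2) (Q.u (γ⁻¹ * a)) (Q.g (γ⁻¹ * a)) (Q.u (γ⁻¹ * a) + v)
      (Q.g (γ⁻¹ * a)) := by
    apply NR_of_vn (le_max_right _ _) (Q.det_g _)
    rw [add_sub_cancel_left]
    exact H.trans (le_max_left _ _)
  have h4 := NR_trans (Q.det_g _) h3 h2
  have h5 := h1 γ _ _ h4
  rw [mul_inv_cancel_left] at h5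
  exact h5

theorem F_one (Q : FibQI Γ) :
    ∃ R : ℝ, ∀ v a, NR R (Q.u a + v) (Q.g a) (Q.u (F Q 1 v a)) (Q.g (F Q 1 v a)) := by
  refine ⟨R0 Q, ?_⟩
  intro v a
  unfold F
  rw [inv_one, one_mul, one_mul]
  exact pt_spec Q _ _ (Q.det_g _)

end Pool.Agent.FQI
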