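import Pool.Agent.FQI.Norm

/-!
# Hyers stability, additive maps bounded near zero are linear

Proofs.
* `hyers`: (`C ≥ 0` follows from `H 0 0`.) `vn (φ (2 • v) - 2 • φ v) ≤ C`, so
  `a n := (2 ^ n)⁻¹ • φ (2 ^ n • v)` satisfies `vn (a (n+1) - a n) ≤ C / 2 ^ (n + 1)`; it is Cauchy in
  `V` (e.g. componentwise, `cauchySeq_of_le_geometric_two`), `A v := lim`. Then
  `vn (a n - φ v) ≤ C` for all `n`, so `vn (φ v - A v) ≤ C`, and
  `vn (a_n(v + w) - a_n(v) - a_n(w)) ≤ C / 2 ^ n → 0` gives additivity.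
* `add_lin`: an additive map which is bounded on a neighbourhood of `0` is continuous (for
  `vn v ≤ ε / n`: `vn (A v) = vn (A (n • v)) / n ≤ B / n`), hence real linear
  (`AddMonoidHom.toRealLinearMap`), hence given by a matrix (`LinearMap.toMatrix'`,
  `Matrix.toLin'`).
* `eq_zero_of_bdd`: apply to `t • v`, `t → ∞`: `t * vn (M v) ≤ B`; so `M v = 0` for all `v`.
* `mn_le_of_vn`: the columns of `M` are `M *ᵥ ![1, 0]`, `M *ᵥ ![0, 1]`.
-/

set_option autoImplicit false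

namespace Pool.Agent.FQI

open Matrix

theorem norm_le_vn (v : V) : ‖v‖ ≤ vn v := by
  rw [pi_norm_le_iff_of_nonneg (vn_nonneg v)]
  intro i
  rw [Real.norm_eq_abs]
  exact abs_le_vn v i

theorem vn_le_norm (v : V) : vn v ≤ 2 * ‖v‖ := by
  have h0 := norm_le_pi_norm v 0
  have h1 := norm_le_pi_norm v 1
  rw [Real.norm_eq_abs] at h0 h1
  unfold vn
  linarith

theorem continuous_vn : Continuous vn := by
  unfold vn
  fun_prop

theorem hyers (φ : V → V) (C : ℝ) (H : ∀ v w, vn (φ (v + w) - φ v - φ w) ≤ C) :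
    ∃ A : V →+ V, ∀ v, vn (φ v - A v) ≤ C := by
  have hC : 0 ≤ C := (vn_nonneg _).trans (H 0 0)
  set a : V → ℕ → V := fun v n => ((2 : ℝ) ^ n)⁻¹ • φ ((2 : ℝ) ^ n • v) with ha
  have hstep : ∀ v n, vn (a v (n + 1) - a v n) ≤ C / 2 / 2 ^ n := by
    intro v n
    have h := H ((2 : ℝ) ^ n • v) ((2 : ℝ) ^ n • v)
    have e : a v (n + 1) - a v n = ((2 : ℝ) ^ (n + 1))⁻¹ •
        (φ ((2 : ℝ) ^ n • v + (2 : ℝ) ^ n • v) - φ ((2 : ℝ) ^ n • v) - φ ((2 : ℝ) ^ n • v)) := by
      have e1 : (2 : ℝ) ^ (n + 1) • v = (2 : ℝ) ^ n • v + (2 : ℝ) ^ n • v := by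
        rw [← add_smul]; congr 1; ring
      have e2 : ((2 : ℝ) ^ n)⁻¹ = ((2 : ℝ) ^ (n + 1))⁻¹ + ((2 : ℝ) ^ (n + 1))⁻¹ := by
        rw [pow_succ]; field_simp; norm_num
      simp only [ha]
      rw [e1]
      conv_lhs => rw [e2]
      rw [add_smul, smul_sub, smul_sub]
      abel
    rw [e, vn_smul, abs_of_pos (by positivity)]
    calc ((2 : ℝ) ^ (n + 1))⁻¹ * vn _ ≤ ((2 : ℝ) ^ (n + 1))⁻¹ * C :=
          mul_le_mul_of_nonneg_left h (by positivity)
      _ = C / 2 / 2 ^ n := by rw [pow_succ]; field_simp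
  have hcau : ∀ v, CauchySeq (a v) := by
    intro v
    refine cauchySeq_of_le_geometric_two (C := C) ?_
    intro n
    rw [dist_comm, dist_eq_norm]
    exact (norm_le_vn _).trans (hstep v n)
  choose A hA using fun v => cauchySeq_tendsto_of_complete (hcau v)
  have hbd : ∀ v n, vn (a v n - φ v) ≤ C * (1 - 1 / 2 ^ n) := by
    intro v n
    induction n with
    | zero =>
      simp only [ha]
      simp [vn_zero]
    | succ n ih =>
      have h1 := vn_sub_le' (a v (n + 1)) (a v n) (φ v)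
      have h2 := hstep v n
      have h3 : C / 2 / 2 ^ n + C * (1 - 1 / 2 ^ n) = C * (1 - 1 / 2 ^ (n + 1)) := by
        rw [pow_succ]; field_simp; ring
      linarith
  have hadd : ∀ v w, A (v + w) = A v + A w := by
    intro v w
    have hlim : Filter.Tendsto (fun n => vn (a (v + w) n - a v n - a w n)) Filter.atTop
        (nhds (vn (A (v + w) - A v - A w))) :=
      (continuous_vn.tendsto _).comp (((hA (v + w)).sub (hA v)).sub (hA w))
    have hle : ∀ n, vn (a (v + w) n - a v n - a w n) ≤ C * (1 / 2) ^ n := by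
      intro n
      have h := H ((2 : ℝ) ^ n • v) ((2 : ℝ) ^ n • w)
      have e : a (v + w) n - a v n - a w n = ((2 : ℝ) ^ n)⁻¹ •
          (φ ((2 : ℝ) ^ n • v + (2 : ℝ) ^ n • w) - φ ((2 : ℝ) ^ n • v) -
            φ ((2 : ℝ) ^ n • w)) := by
        simp only [ha]
        rw [smul_add, smul_sub, smul_sub]
      rw [e, vn_smul, abs_of_pos (by positivity)]
      calc ((2 : ℝ) ^ n)⁻¹ * vn _ ≤ ((2 : ℝ) ^ n)⁻¹ * C :=
            mul_le_mul_of_nonneg_left h (by positivity)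
        _ = C * (1 / 2) ^ n := by rw [one_div, inv_pow]; ring
    have hz : Filter.Tendsto (fun n : ℕ => C * (1 / 2 : ℝ) ^ n) Filter.atTop (nhds 0) := by
      have := (tendsto_pow_atTop_nhds_zero_of_lt_one (by norm_num : (0 : ℝ) ≤ 1 / 2)
        (by norm_num)).const_mul C
      simpa using this
    have h0 : vn (A (v + w) - A v - A w) ≤ 0 := le_of_tendsto_of_tendsto' hlim hz hle
    have h1 := vn_eq_zero (le_antisymm h0 (vn_nonneg _))
    rw [sub_sub, sub_eq_zero] at h1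
    exact h1
  refine ⟨AddMonoidHom.mk' A hadd, ?_⟩
  intro v
  have hlim : Filter.Tendsto (fun n => vn (a v n - φ v)) Filter.atTop
      (nhds (vn (A v - φ v))) :=
    (continuous_vn.tendsto _).comp ((hA v).sub_const _)
  have h : vn (A v - φ v) ≤ C := by
    refine le_of_tendsto' hlim ?_
    intro n
    refine (hbd v n).trans ?_
    have : (0 : ℝ) ≤ 1 / 2 ^ n := by positivity
    nlinarith
  rw [vn_sub_comm]
  exact h

theorem add_lin (A : V →+ V) (ε B : ℝ) (hε : 0 < ε) (H : ∀ v, vn v ≤ ε → vn (A v) ≤ B) :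
    ∃ M : M2, ∀ v, A v = M *ᵥ v := by
  have hB : 0 ≤ B := (vn_nonneg _).trans (H 0 (by rw [vn_zero]; exact hε.le))
  have hc : Continuous A := by
    refine continuous_of_continuousAt_zero A ?_
    rw [Metric.continuousAt_iff]
    intro δ hδ
    obtain ⟨n, hn⟩ := exists_nat_gt (B / δ)
    have hn0 : (0 : ℝ) ≤ n := Nat.cast_nonneg n
    have hN : (0 : ℝ) < (n : ℝ) + 1 := by linarith
    refine ⟨ε / (2 * ((n : ℝ) + 1)), by positivity, ?_⟩
    intro v hv
    rw [dist_zero_right] at hv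
    rw [map_zero, dist_zero_right]
    have h1 : vn ((n + 1) • v) ≤ ε := by
      have e : (n + 1) • v = ((n : ℝ) + 1) • v := by
        rw [← Nat.cast_smul_eq_nsmul ℝ]; push_cast; rfl
      rw [e, vn_smul, abs_of_pos hN]
      have h2 := vn_le_norm v
      have h3 : ‖v‖ * (2 * ((n : ℝ) + 1)) < ε := by rwa [lt_div_iff₀ (by positivity)] at hv
      nlinarith
    have h2 := H _ h1
    rw [map_nsmul] at h2
    have e : (n + 1) • A v = ((n : ℝ) + 1) • A v := by
      rw [← Nat.cast_smul_eq_nsmul ℝ]; push_cast; rfl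
    rw [e, vn_smul, abs_of_pos hN] at h2
    have h3 := norm_le_vn (A v)
    rw [div_lt_iff₀ hδ] at hn
    have h4 : ((n : ℝ) + 1) * vn (A v) < ((n : ℝ) + 1) * δ := by nlinarith
    have h5 := lt_of_mul_lt_mul_left h4 hN.le
    linarith
  set f := A.toRealLinearMap hc
  refine ⟨LinearMap.toMatrix' (f : V →ₗ[ℝ] V), ?_⟩
  intro v
  have h := congrArg (fun g : V →ₗ[ℝ] V => g v) (Matrix.toLin'_toMatrix' (f : V →ₗ[ℝ] V))
  simp only [Matrix.toLin'_apply] at h
  rw [h]
  rfl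

theorem mulVec_e0 (M : M2) : M *ᵥ ![1, 0] = ![M 0 0, M 1 0] := by
  ext i
  fin_cases i <;> simp [Matrix.mulVec, dotProduct, Fin.sum_univ_two]

theorem mulVec_e1 (M : M2) : M *ᵥ ![0, 1] = ![M 0 1, M 1 1] := by
  ext i
  fin_cases i <;> simp [Matrix.mulVec, dotProduct, Fin.sum_univ_two]

theorem eq_zero_of_bdd (M : M2) (B : ℝ) (H : ∀ v, vn (M *ᵥ v) ≤ B) : M = 0 := by
  have h : ∀ v, M *ᵥ v = 0 := by
    intro v
    apply vn_eq_zero
    by_contra hne
    have hpos : 0 < vn (M *ᵥ v) := lt_of_le_of_ne (vn_nonneg _) (Ne.symm hne)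
    have h1 := H (((|B| + 1) / vn (M *ᵥ v)) • v)
    rw [Matrix.mulVec_smul, vn_smul, abs_of_pos (by positivity), div_mul_cancel₀ _ hne] at h1
    have := le_abs_self B
    linarith
  have h0 := h ![1, 0]
  have h1 := h ![0, 1]
  rw [mulVec_e0] at h0
  rw [mulVec_e1] at h1
  have a0 := congrFun h0 0
  have a1 := congrFun h0 1
  have b0 := congrFun h1 0
  have b1 := congrFun h1 1
  simp at a0 a1 b0 b1
  ext i j
  fin_cases i <;> fin_cases j
  · exact a0
  · exact b0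
  · exact a1
  · exact b1

theorem mn_le_of_vn (M : M2) (B : ℝ) (H : ∀ v, vn v ≤ 1 → vn (M *ᵥ v) ≤ B) : mn M ≤ 2 * B := by
  have h0 := H ![1, 0] (by simp [vn])
  have h1 := H ![0, 1] (by simp [vn])
  rw [mulVec_e0] at h0
  rw [mulVec_e1] at h1
  have e0 : vn ![M 0 0, M 1 0] = |M 0 0| + |M 1 0| := by simp [vn]
  have e1 : vn ![M 0 1, M 1 1] = |M 0 1| + |M 1 1| := by simp [vn]
  unfold mn
  linarith

end Pool.Agent.FQI
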