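import Pool.Agent.FQI.ShFib
import Pool.Agent.FQI.Hyers

/-!
# The linear parts form a homomorphism

Proofs. `H : vn ((g a)⁻¹ *ᵥ (sh Q γ v a - A γ *ᵥ v)) ≤ C`.
* `A_one`: `F_one` says `vn ((g a)⁻¹ *ᵥ (u (F Q 1 v a) - (u a + v))) ≤ R`, i.e.
  `vn ((g a)⁻¹ *ᵥ (sh Q 1 v a - v)) ≤ R`. With `a = 1`:
  `vn ((g 1)⁻¹ *ᵥ ((A 1 - 1) *ᵥ v)) ≤ C + R` for all `v`, so `(g 1)⁻¹ * (A 1 - 1) = 0`
  (`eq_zero_of_bdd`), `A 1 = 1`.
* `A_mul`: Fix `γ`, `δ` and take `a = γ`, so `b := γ⁻¹ * a = 1` (any `a` works). Literally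
  `F Q (γ * δ) v a = γ * F Q δ v b` (unfold `F`; `(γ δ)⁻¹ a = δ⁻¹ (γ⁻¹ a)`).
  By `F_fib`, `mn ((g b)⁻¹ * g (F Q δ v b))` is bounded, and by `H`
  `vn ((g b)⁻¹ *ᵥ (u (F Q δ v b) - (u b + A δ *ᵥ v))) ≤ C`; so
  `NR R (u b + A δ *ᵥ v) (g b) (u (F Q δ v b)) (g (F Q δ v b))` with `R` independent of `v`, and by
  `near_of_NR` `pt Q (u b + A δ *ᵥ v) (g b)` is near `F Q δ v b`. By `near_left` for `γ`,
  `F Q γ (A δ *ᵥ v) a = γ * pt Q (u b + A δ *ᵥ v) (g b)` is `R'`-near `F Q (γ * δ) v a`. Hence (norm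
  at `g (F Q γ (A δ v) a)`, changed to the norm at `g a` by `F_fib`)
  `vn ((g a)⁻¹ *ᵥ (sh Q (γ * δ) v a - sh Q γ (A δ *ᵥ v) a))` is bounded in `v`, and by `H` twice
  `vn ((g a)⁻¹ *ᵥ ((A (γ * δ) - A γ * A δ) *ᵥ v))` is bounded in `v`; `eq_zero_of_bdd`.
* `abs_det_one`: `|det A γ| ^ n = |det A (γ ^ n)| ≤ B` for all `n`, so `|det A γ| ≤ 1`; the same for
  `γ⁻¹`, and the product is `1`.
-/

set_option autoImplicit false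

namespace Pool.Agent.FQI

open Matrix

variable {Γ : Type} [Group Γ]

theorem F_mul (Q : FibQI Γ) (γ δ : Γ) (v : V) (a : Γ) :
    F Q (γ * δ) v a = γ * F Q δ v (γ⁻¹ * a) := by
  unfold F
  simp only [_root_.mul_inv_rev, mul_assoc]

theorem A_one (Q : FibQI Γ) (A : Γ → M2) (C : ℝ)
    (H : ∀ γ v a, vn ((Q.g a)⁻¹ *ᵥ (sh Q γ v a - A γ *ᵥ v)) ≤ C) : A 1 = 1 := by
  obtain ⟨R, hR⟩ := F_one Q
  have h0 : (Q.g 1)⁻¹ * (A 1 - 1) = 0 := by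
    refine eq_zero_of_bdd _ (R + C) ?_
    intro v
    have h1 := (hR v 1).2
    have h2 := H 1 v 1
    have e : ((Q.g 1)⁻¹ * (A 1 - 1)) *ᵥ v =
        (Q.g 1)⁻¹ *ᵥ (Q.u (F Q 1 v 1) - (Q.u 1 + v)) -
          (Q.g 1)⁻¹ *ᵥ (sh Q 1 v 1 - A 1 *ᵥ v) := by
      rw [← Matrix.mulVec_sub, ← Matrix.mulVec_mulVec, Matrix.sub_mulVec, Matrix.one_mulVec]
      congr 1
      unfold sh
      abel
    rw [e]
    exact (vn_sub_le _ _).trans (add_le_add h1 h2)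
  have h1 : Q.g 1 * ((Q.g 1)⁻¹ * (A 1 - 1)) = 0 := by rw [h0, Matrix.mul_zero]
  rw [← Matrix.mul_assoc, mul_inv_self_of (abs_det_of_det (Q.det_g 1)), Matrix.one_mul,
    sub_eq_zero] at h1
  exact h1

theorem A_mul (Q : FibQI Γ) (A : Γ → M2) (C : ℝ)
    (H : ∀ γ v a, vn ((Q.g a)⁻¹ *ᵥ (sh Q γ v a - A γ *ᵥ v)) ≤ C) (γ δ : Γ) :
    A (γ * δ) = A γ * A δ := by
  obtain ⟨R1, hR1⟩ := F_fib Q
  obtain ⟨R2, hR2⟩ := near_of_NR Q (max R1 C)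
  obtain ⟨R3, hR3⟩ := near_left Q R2
  set a : Γ := γ with ha
  have h0 : (Q.g a)⁻¹ * (A (γ * δ) - A γ * A δ) = 0 := by
    refine eq_zero_of_bdd _ (C + R1 * R3 + C) ?_
    intro v
    set b : Γ := γ⁻¹ * a with hb
    have k1 : NR (max R1 C) (Q.u b + A δ *ᵥ v) (Q.g b) (Q.u (F Q δ v b)) (Q.g (F Q δ v b)) := by
      refine ⟨(hR1 δ v b).trans (le_max_left _ _), ?_⟩
      have e : Q.u (F Q δ v b) - (Q.u b + A δ *ᵥ v) = sh Q δ v b - A δ *ᵥ v := by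
        unfold sh; abel
      rw [e]
      exact (H δ v b).trans (le_max_right _ _)
    have k2 := hR2 _ _ _ (Q.det_g b) k1
    have k3 := hR3 γ _ _ k2
    rw [← F_mul] at k3
    have e3 : γ * pt Q (Q.u b + A δ *ᵥ v) (Q.g b) = F Q γ (A δ *ᵥ v) a := rfl
    rw [e3] at k3
    have k4 := (near_vn Q (hR1 γ (A δ *ᵥ v) a)
      (Q.u (F Q (γ * δ) v a) - Q.u (F Q γ (A δ *ᵥ v) a))).1
    have k5 : vn ((Q.g a)⁻¹ *ᵥ (Q.u (F Q (γ * δ) v a) - Q.u (F Q γ (A δ *ᵥ v) a))) ≤ R1 * R3 :=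
      k4.trans (mul_le_mul_of_nonneg_left k3.2 ((mn_nonneg _).trans (hR1 γ (A δ *ᵥ v) a)))
    have k6 := H (γ * δ) v a
    have k7 := H γ (A δ *ᵥ v) a
    have e : ((Q.g a)⁻¹ * (A (γ * δ) - A γ * A δ)) *ᵥ v =
        -((Q.g a)⁻¹ *ᵥ (sh Q (γ * δ) v a - A (γ * δ) *ᵥ v)) +
          (Q.g a)⁻¹ *ᵥ (Q.u (F Q (γ * δ) v a) - Q.u (F Q γ (A δ *ᵥ v) a)) +
          (Q.g a)⁻¹ *ᵥ (sh Q γ (A δ *ᵥ v) a - A γ *ᵥ (A δ *ᵥ v)) := by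
      rw [← Matrix.mulVec_neg, ← Matrix.mulVec_add, ← Matrix.mulVec_add,
        ← Matrix.mulVec_mulVec, Matrix.sub_mulVec, ← Matrix.mulVec_mulVec]
      congr 1
      unfold sh
      abel
    rw [e]
    refine (vn_add_le _ _).trans (add_le_add ((vn_add_le _ _).trans (add_le_add ?_ k5)) k7)
    rw [vn_neg]
    exact k6
  have h1 : Q.g a * ((Q.g a)⁻¹ * (A (γ * δ) - A γ * A δ)) = 0 := by rw [h0, Matrix.mul_zero]
  rw [← Matrix.mul_assoc, mul_inv_self_of (abs_det_of_det (Q.det_g a)), Matrix.one_mul,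
    sub_eq_zero] at h1
  exact h1

theorem abs_det_one (A : Γ →* M2) (B : ℝ) (H : ∀ γ, |(A γ).det| ≤ B) (γ : Γ) :
    |(A γ).det| = 1 := by
  have hle : ∀ γ, |(A γ).det| ≤ 1 := by
    intro γ
    by_contra hcon
    push Not at hcon
    obtain ⟨n, hn⟩ := pow_unbounded_of_one_lt B hcon
    have h := H (γ ^ n)
    rw [map_pow, Matrix.det_pow, abs_pow] at h
    linarith
  have h1 := hle γ
  have h2 := hle γ⁻¹
  have h3 : |(A γ).det| * |(A γ⁻¹).det| = 1 := by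
    rw [← abs_mul, ← Matrix.det_mul, ← map_mul, mul_inv_cancel, map_one, Matrix.det_one, abs_one]
  have h4 := abs_nonneg (A γ).det
  have h5 := abs_nonneg (A γ⁻¹).det
  apply le_antisymm h1
  nlinarith

end Pool.Agent.FQI
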