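import Pool.Agent.FQI.CommT

/-!
# Iterated commutators become trivial under `ρ`

Here `f x = a * x * a⁻¹ * x⁻¹` and `f^[n] b` is the `n`-th iterated commutator.

Proof of `iter_comm`. `C` from `comm_t`. `ε := min (1/20) (1 / (4 * C))`. Let
`mn (ρ a - 1) ≤ ε`, `mn (ρ b - 1) ≤ ε`, `b_n := f^[n] b` (`b_{n+1} = f (b_n)`,
`Function.iterate_succ_apply'`), `β_n := mn (ρ b_n - 1)`. `ρ (f x) = ρ a * ρ x * (ρ a)⁻¹ * (ρ x)⁻¹`
(`rho_inv`). By `comm_mat`, `β_{n+1} ≤ 10 * ε * β_n ≤ β_n / 2`, so by induction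
`β_n ≤ ε / 2 ^ n` (in particular `β_n ≤ ε ≤ 1/8` for all `n`: second claim).
By `comm_t`, `vn (t b_{n+1}) ≤ C * (ε * vn (t b_n) + ε * vn (t a)) + C
≤ vn (t b_n) / 4 + vn (t a) / 4 + C`; with `X := vn (t b) + vn (t a) + 2 * C`, by induction
`vn (t b_n) ≤ X` (`X/4 + X/4 + X/2 ≤ X`). Also `mn (ρ b_n) ≤ 2 + ε ≤ 3`. So all `b_n` lie in the finite set of
`Q.fin (max 3 X)`; hence the numbers `β_n` take finitely many values, and as `β_n → 0` there is `n`
with `β_n = 0` (otherwise the minimum of the positive values is `> 0`), i.e. `ρ b_n = 1`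
(`mn_eq_zero`).
-/

set_option autoImplicit false

namespace Pool.Agent.FQI

open Matrix

variable {Γ : Type} [Group Γ]

theorem iter_comm (Q : QuasiCoc Γ) :
    ∃ ε : ℝ, 0 < ε ∧ ε ≤ 1 / 8 ∧ ∀ a b, mn (Q.ρ a - 1) ≤ ε → mn (Q.ρ b - 1) ≤ ε →
      (∃ n : ℕ, Q.ρ ((fun x => a * x * a⁻¹ * x⁻¹)^[n] b) = 1) ∧
      (∀ m : ℕ, mn (Q.ρ ((fun x => a * x * a⁻¹ * x⁻¹)^[m] b) - 1) ≤ ε) := by
  obtain ⟨C, hC, hct⟩ := comm_t Q
  have hCpos : 0 < C := by linarith
  refine ⟨min (1 / 20) (1 / (4 * C)), by positivity, (min_le_left _ _).trans (by norm_num), ?_⟩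
  set ε := min (1 / 20) (1 / (4 * C)) with hε
  have hε0 : 0 < ε := by rw [hε]; positivity
  have hε1 : ε ≤ 1 / 20 := min_le_left _ _
  have hε2 : ε ≤ 1 / (4 * C) := min_le_right _ _
  have hCε : C * ε ≤ 1 / 4 := by
    have h := mul_le_mul_of_nonneg_left hε2 hCpos.le
    have e : C * (1 / (4 * C)) = 1 / 4 := by field_simp
    linarith
  intro a b ha hb
  set f : Γ → Γ := fun x => a * x * a⁻¹ * x⁻¹ with hf
  have hstep : ∀ n, f^[n + 1] b = a * (f^[n] b) * a⁻¹ * (f^[n] b)⁻¹ := by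
    intro n
    rw [Function.iterate_succ_apply']
  have hrho : ∀ x, Q.ρ (f x) = Q.ρ a * Q.ρ x * (Q.ρ a)⁻¹ * (Q.ρ x)⁻¹ := by
    intro x
    simp only [hf, map_mul, rho_inv]
  -- the matrices
  have hmat : ∀ n, mn (Q.ρ (f^[n] b) - 1) ≤ ε / 2 ^ n := by
    intro n
    induction n with
    | zero => simpa using hb
    | succ n ih =>
      have hle : ε / 2 ^ n ≤ ε := by
        apply div_le_self hε0.le
        exact one_le_pow₀ (by norm_num)
      have h1 : mn (Q.ρ (f^[n] b) - 1) ≤ 1 / 8 := by linarith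
      have h2 := comm_mat (Q.ρ a) (Q.ρ (f^[n] b)) (Q.det_ρ _) (Q.det_ρ _) (by linarith) h1
      have h3 : Q.ρ (f^[n + 1] b) = Q.ρ a * Q.ρ (f^[n] b) * (Q.ρ a)⁻¹ * (Q.ρ (f^[n] b))⁻¹ := by
        rw [Function.iterate_succ_apply', hrho]
      rw [h3]
      have h4 := mn_nonneg (Q.ρ (f^[n] b) - 1)
      have h5 := mn_nonneg (Q.ρ a - 1)
      have h6 : 10 * mn (Q.ρ a - 1) * mn (Q.ρ (f^[n] b) - 1) ≤ 1 / 2 * mn (Q.ρ (f^[n] b) - 1) := by
        apply mul_le_mul_of_nonneg_right _ h4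
        linarith
      have h7 : ε / 2 ^ (n + 1) = 1 / 2 * (ε / 2 ^ n) := by
        rw [pow_succ]; ring
      rw [h7]
      linarith
  have hmat' : ∀ n, mn (Q.ρ (f^[n] b) - 1) ≤ ε := by
    intro n
    refine (hmat n).trans (div_le_self hε0.le (one_le_pow₀ (by norm_num)))
  refine ⟨?_, hmat'⟩
  -- the vectors
  set X : ℝ := vn (Q.t b) + vn (Q.t a) + 2 * C with hX
  have hva := vn_nonneg (Q.t a)
  have hvb := vn_nonneg (Q.t b)
  have hvec : ∀ n, vn (Q.t (f^[n] b)) ≤ X := by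
    intro n
    induction n with
    | zero => simp only [Function.iterate_zero, id_eq]; linarith
    | succ n ih =>
      have h1 : mn (Q.ρ (f^[n] b) - 1) ≤ 1 / 8 := (hmat' n).trans (by linarith)
      have h2 := hct a (f^[n] b) (by linarith) h1
      rw [hstep n]
      have h3 := vn_nonneg (Q.t (f^[n] b))
      have h4 : mn (Q.ρ a - 1) * vn (Q.t (f^[n] b)) ≤ ε * vn (Q.t (f^[n] b)) :=
        mul_le_mul_of_nonneg_right ha h3
      have h5 : mn (Q.ρ (f^[n] b) - 1) * vn (Q.t a) ≤ ε * vn (Q.t a) :=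
        mul_le_mul_of_nonneg_right (hmat' n) hva
      have h6 : C * (mn (Q.ρ a - 1) * vn (Q.t (f^[n] b)) + mn (Q.ρ (f^[n] b) - 1) * vn (Q.t a)) ≤
          C * (ε * vn (Q.t (f^[n] b)) + ε * vn (Q.t a)) :=
        mul_le_mul_of_nonneg_left (by linarith) hCpos.le
      have h7 : C * (ε * vn (Q.t (f^[n] b)) + ε * vn (Q.t a)) ≤
          1 / 4 * (vn (Q.t (f^[n] b)) + vn (Q.t a)) := by
        have : C * (ε * vn (Q.t (f^[n] b)) + ε * vn (Q.t a)) =
          (C * ε) * (vn (Q.t (f^[n] b)) + vn (Q.t a)) := by ring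
        rw [this]
        exact mul_le_mul_of_nonneg_right hCε (by linarith)
      linarith
  -- finiteness
  have hfin := Q.fin (max 3 X)
  have hmem : ∀ n, f^[n] b ∈ {s : Γ | mn (Q.ρ s) ≤ max 3 X ∧ vn (Q.t s) ≤ max 3 X} := by
    intro n
    constructor
    · have e : Q.ρ (f^[n] b) = (Q.ρ (f^[n] b) - 1) + 1 := by abel
      have h1 : mn (Q.ρ (f^[n] b)) ≤ mn (Q.ρ (f^[n] b) - 1) + mn 1 := by
        conv_lhs => rw [e]
        exact mn_add_le _ _
      rw [mn_one] at h1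
      have h2 := hmat' n
      exact le_trans (by linarith) (le_max_left _ _)
    · exact (hvec n).trans (le_max_right _ _)
  by_contra hne
  push Not at hne
  have hpos : ∀ n, 0 < mn (Q.ρ (f^[n] b) - 1) := by
    intro n
    rcases (mn_nonneg (Q.ρ (f^[n] b) - 1)).lt_or_eq with h | h
    · exact h
    · exact absurd (sub_eq_zero.mp (mn_eq_zero h.symm)) (hne n)
  -- the set of positive values
  set W : Set ℝ := (fun s : Γ => mn (Q.ρ s - 1)) ''
    {s : Γ | mn (Q.ρ s) ≤ max 3 X ∧ vn (Q.t s) ≤ max 3 X} with hW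
  have hWfin : W.Finite := hfin.image _
  set W' : Set ℝ := W ∩ Set.Ioi 0 with hW'
  have hWfin' : W'.Finite := hWfin.inter_of_left _
  have hWne : W'.Nonempty := ⟨_, ⟨⟨f^[0] b, hmem 0, rfl⟩, hpos 0⟩⟩
  obtain ⟨m, hm, hmin⟩ := hWfin'.exists_minimal hWne
  have hmpos : 0 < m := hm.2
  obtain ⟨n, hn⟩ : ∃ n : ℕ, ε / 2 ^ n < m := by
    obtain ⟨n, hn⟩ := exists_pow_lt_of_lt_one (show 0 < m / ε by positivity)
      (show (1 / 2 : ℝ) < 1 by norm_num)
    refine ⟨n, ?_⟩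
    have h := mul_lt_mul_of_pos_left hn hε0
    have e1 : ε * (1 / 2) ^ n = ε / 2 ^ n := by
      rw [one_div, inv_pow]; rfl
    have e2 : ε * (m / ε) = m := by field_simp
    rw [e1, e2] at h
    exact h
  have hmemn : mn (Q.ρ (f^[n] b) - 1) ∈ W' := ⟨⟨f^[n] b, hmem n, rfl⟩, hpos n⟩
  have h1 := (hmat n).trans_lt hn
  have h2 := hmin hmemn h1.le
  linarith

end Pool.Agent.FQI
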