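import Pool.Agent.FQI.Norm

/-!
# A map of the plane whose differences are coarsely parallel to the differences of the points is
coarsely a homothety

Proof of `lin_of_dir`. Replacing `σ` by `σ - σ 0` we may assume `σ 0 = 0`. Write
`α x := (σ ![x, 0]) 0`, `β y := (σ ![0, y]) 1`.
(i) The hypothesis with `x := 0`, `y := ![x, 0]` gives `|(σ ![x, 0]) 1| ≤ C`; with `y := ![0, y]`:
`|(σ ![0, y]) 0| ≤ C`.
(ii) The hypothesis for the points `![0, y]`, `![x, 0]`: `σ ![x,0] - σ ![0,y] = c • ![x, -y] + ε`,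
`|ε 0|, |ε 1| ≤ C`. Taking the determinant with `![x, -y]`:
`(σ![x,0] - σ![0,y]) 0 * (-y) - (σ![x,0] - σ![0,y]) 1 * x = ε 0 * (-y) - ε 1 * x`, so by (i)
`|x * β y - y * α x| ≤ 2 * C * (|x| + |y|)`.
(iii) Hence for `x, x', y ≠ 0`: `|α x / x - β y / y| ≤ 2C (1/|x| + 1/|y|)` and
`|α x / x - α x' / x'| ≤ 2C (1/|x| + 1/|x'| + 2/|y|)` for all `y ≠ 0`, i.e. (letting `y → ∞`)
`≤ 2C (1/|x| + 1/|x'|)`. So the sequence `α n / n` (`n ≥ 1`) is Cauchy; let `l` be its limit. From
(ii) with `x = n → ∞`: `|β y - l * y| ≤ 2 * C` for all `y ≠ 0`; in particular `β n / n → l`, and (ii)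
with `y = n → ∞` gives `|α x - l * x| ≤ 2 * C` for all `x ≠ 0`. For `x = 0`, `y = 0`:
`α 0 = β 0 = 0`.
(iv) Put `τ p := σ p - l • p`. It satisfies the hypothesis of the theorem (with `c - l`), and
`vn (τ ![x, 0]) ≤ 3C`, `vn (τ ![0, y]) ≤ 3C`.
(v) For `p = ![x, y]`: hypothesis for `![x, 0]` and `p` (difference `![0, y]`, first component `0`):
`|(τ p) 0| ≤ |(τ ![x,0]) 0| + C ≤ 4C`; hypothesis for `![0, y]` and `p`: `|(τ p) 1| ≤ 4C`. So
`vn (τ p) ≤ 8 C` for all `p`, and `vn (τ y - τ x) ≤ 16 C`.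
-/

set_option autoImplicit false

namespace Pool.Agent.FQI

open Matrix

open Filter Topology

private theorem lin_vec (p : V) : p = ![p 0, p 1] := by
  ext i; fin_cases i <;> rfl

private theorem lin_abs0 {v : V} {C : ℝ} (h : vn v ≤ C) : |v 0| ≤ C := (abs_le_vn v 0).trans h

private theorem lin_abs1 {v : V} {C : ℝ} (h : vn v ≤ C) : |v 1| ≤ C := (abs_le_vn v 1).trans h

/-- The pure real statement behind (iii). -/
private theorem lin_real (α β : ℝ → ℝ) (C : ℝ) (hC : 0 ≤ C) (hα : α 0 = 0) (hβ : β 0 = 0)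
    (H : ∀ x y, |x * β y - y * α x| ≤ 2 * C * (|x| + |y|)) :
    ∃ l : ℝ, (∀ x, |α x - l * x| ≤ 2 * C) ∧ (∀ y, |β y - l * y| ≤ 2 * C) := by
  have key : ∀ x y, x ≠ 0 → y ≠ 0 → |α x / x - β y / y| ≤ 2 * C * (1 / |x| + 1 / |y|) := by
    intro x y hx hy
    have hx' : 0 < |x| := abs_pos.mpr hx
    have hy' : 0 < |y| := abs_pos.mpr hy
    have e : α x / x - β y / y = -(x * β y - y * α x) / (x * y) := by
      field_simp
      ring
    rw [e, abs_div, abs_neg, abs_mul, div_le_iff₀ (by positivity)]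
    have e2 : 2 * C * (1 / |x| + 1 / |y|) * (|x| * |y|) = 2 * C * (|x| + |y|) := by
      field_simp
      ring
    rw [e2]
    exact H x y
  -- the sequence `β n / n` is Cauchy
  have c1 : ∀ n m : ℕ, 0 < n → n ≤ m → |β m / m - β n / n| ≤ 8 * C / n := by
    intro n m hn hnm
    have hn' : (0 : ℝ) < n := by exact_mod_cast hn
    have hm' : (0 : ℝ) < m := by exact_mod_cast (lt_of_lt_of_le hn hnm)
    have hnm' : (n : ℝ) ≤ m := by exact_mod_cast hnm
    have h1 := key n m hn'.ne' hm'.ne'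
    have h2 := key n n hn'.ne' hn'.ne'
    rw [abs_of_pos hn', abs_of_pos hm'] at h1
    rw [abs_of_pos hn'] at h2
    have h3 : 1 / (m : ℝ) ≤ 1 / n := one_div_le_one_div_of_le hn' hnm'
    have h4 : |β m / m - β n / n| ≤ |α n / n - β m / m| + |α n / n - β n / n| := by
      have h := abs_sub_le (β m / m) (α n / n) (β n / n)
      rw [abs_sub_comm (β (m : ℝ) / m) (α (n : ℝ) / n)] at h
      exact h
    have e : 8 * C / n = 2 * C * (1 / n + 1 / n) + 2 * C * (1 / n + 1 / n) := by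
      ring
    rw [e]
    have h5 : 2 * C * (1 / (n : ℝ) + 1 / m) ≤ 2 * C * (1 / n + 1 / n) :=
      mul_le_mul_of_nonneg_left (by linarith) (by linarith)
    linarith
  have hcau : CauchySeq (fun n : ℕ => β n / (n : ℝ)) := by
    rw [Metric.cauchySeq_iff']
    intro ε hε
    obtain ⟨N, hN⟩ := exists_nat_gt (8 * C / ε)
    refine ⟨N + 1, fun n hn => ?_⟩
    rw [Real.dist_eq]
    have h1 := c1 (N + 1) n (Nat.succ_pos N) hn
    refine lt_of_le_of_lt h1 ?_
    have h2 : (0 : ℝ) < ((N + 1 : ℕ) : ℝ) := by positivity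
    rw [div_lt_iff₀ h2]
    rw [div_lt_iff₀ hε] at hN
    push_cast
    nlinarith
  obtain ⟨l, hl⟩ := cauchySeq_tendsto_of_complete hcau
  have hinv : Tendsto (fun n : ℕ => 1 / (n : ℝ)) atTop (𝓝 0) := tendsto_one_div_atTop_nhds_zero_nat
  have hA : ∀ x, |α x - l * x| ≤ 2 * C := by
    intro x
    by_cases hx : x = 0
    · rw [hx, hα]; simp; exact hC
    have hx' : 0 < |x| := abs_pos.mpr hx
    have h1 : |α x / x - l| ≤ 2 * C * (1 / |x| + 0) := by
      refine le_of_tendsto_of_tendsto ((tendsto_const_nhds.sub hl).abs)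
        ((tendsto_const_nhds.add hinv).const_mul (2 * C)) ?_
      filter_upwards [eventually_gt_atTop 0] with n hn
      have hn' : (0 : ℝ) < n := by exact_mod_cast hn
      have h := key x n hx hn'.ne'
      rw [abs_of_pos hn'] at h
      exact h
    have e : α x - l * x = (α x / x - l) * x := by field_simp
    rw [e, abs_mul]
    have h2 := mul_le_mul_of_nonneg_right h1 (abs_nonneg x)
    have e2 : 2 * C * (1 / |x| + 0) * |x| = 2 * C := by field_simp; ring
    rw [e2] at h2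
    exact h2
  have hlα : Tendsto (fun n : ℕ => α n / (n : ℝ)) atTop (𝓝 l) := by
    have h1 : Tendsto (fun n : ℕ => 2 * C * (1 / (n : ℝ))) atTop (𝓝 (2 * C * 0)) :=
      hinv.const_mul _
    rw [mul_zero] at h1
    rw [tendsto_iff_dist_tendsto_zero]
    refine squeeze_zero' (Eventually.of_forall fun n => dist_nonneg) ?_ h1
    filter_upwards [eventually_gt_atTop 0] with n hn
    have hn' : (0 : ℝ) < n := by exact_mod_cast hn
    rw [Real.dist_eq]
    have e : α n / (n : ℝ) - l = (α n - l * n) / n := by field_simp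
    rw [e, abs_div, abs_of_pos hn', div_le_iff₀ hn']
    have e2 : 2 * C * (1 / (n : ℝ)) * n = 2 * C := by field_simp
    rw [e2]
    exact hA n
  refine ⟨l, hA, fun y => ?_⟩
  by_cases hy : y = 0
  · rw [hy, hβ]; simp; exact hC
  have hy' : 0 < |y| := abs_pos.mpr hy
  have h1 : |l - β y / y| ≤ 2 * C * (0 + 1 / |y|) := by
    refine le_of_tendsto_of_tendsto ((hlα.sub tendsto_const_nhds).abs)
      ((hinv.add tendsto_const_nhds).const_mul (2 * C)) ?_
    filter_upwards [eventually_gt_atTop 0] with n hn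
    have hn' : (0 : ℝ) < n := by exact_mod_cast hn
    have h := key n y hn'.ne' hy
    rw [abs_of_pos hn'] at h
    exact h
  have e : β y - l * y = -((l - β y / y) * y) := by field_simp; ring
  rw [e, abs_neg, abs_mul]
  have h2 := mul_le_mul_of_nonneg_right h1 (abs_nonneg y)
  have e2 : 2 * C * (0 + 1 / |y|) * |y| = 2 * C := by field_simp; ring
  rw [e2] at h2
  exact h2

theorem lin_of_dir (σ : V → V) (C : ℝ) (hC : 0 ≤ C)
    (H : ∀ x y : V, ∃ c : ℝ, vn (σ y - σ x - c • (y - x)) ≤ C) :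
    ∃ l : ℝ, ∀ x y : V, vn (σ y - σ x - l • (y - x)) ≤ 20 * C := by
  set s : V → V := fun p => σ p - σ 0 with hs
  have Hs : ∀ x y : V, ∃ c : ℝ, vn (s y - s x - c • (y - x)) ≤ C := by
    intro x y
    obtain ⟨c, hc⟩ := H x y
    refine ⟨c, ?_⟩
    have e : s y - s x - c • (y - x) = σ y - σ x - c • (y - x) := by
      simp only [hs]; abel
    rw [e]; exact hc
  have s0 : s 0 = 0 := by simp [hs]
  have ax1 : ∀ x : ℝ, |(s ![x, 0]) 1| ≤ C := by
    intro x
    obtain ⟨c, hc⟩ := Hs 0 ![x, 0]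
    have h := lin_abs1 hc
    rw [s0] at h
    simpa using h
  have ax0 : ∀ y : ℝ, |(s ![0, y]) 0| ≤ C := by
    intro y
    obtain ⟨c, hc⟩ := Hs 0 ![0, y]
    have h := lin_abs0 hc
    rw [s0] at h
    simpa using h
  have z0 : (![0, 0] : V) = 0 := by ext i; fin_cases i <;> simp
  obtain ⟨l, hl1, hl2⟩ := lin_real (fun x => (s ![x, 0]) 0) (fun y => (s ![0, y]) 1) C hC
    (by simp [z0, s0]) (by simp [z0, s0]) (by
      intro x y
      obtain ⟨c, hc⟩ := Hs ![0, y] ![x, 0]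
      set ε : V := s ![x, 0] - s ![0, y] - c • (![x, 0] - ![0, y]) with hε
      have h0 := lin_abs0 hc
      have h1 := lin_abs1 hc
      have e0 : ε 0 = (s ![x, 0]) 0 - (s ![0, y]) 0 - c * x := by
        have h : ε 0 = (s ![x, 0]) 0 - (s ![0, y]) 0 - c * (x - 0) := rfl
        rw [h, sub_zero]
      have e1 : ε 1 = (s ![x, 0]) 1 - (s ![0, y]) 1 + c * y := by
        have h : ε 1 = (s ![x, 0]) 1 - (s ![0, y]) 1 - c * (0 - y) := rfl
        rw [h]; ring
      have a0 := ax0 y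
      have a1 := ax1 x
      have e : x * (s ![0, y]) 1 - y * (s ![x, 0]) 0 =
          -(x * ε 1) - y * ε 0 + x * (s ![x, 0]) 1 - y * (s ![0, y]) 0 := by
        rw [e0, e1]; ring
      show |x * (s ![0, y]) 1 - y * (s ![x, 0]) 0| ≤ _
      rw [e]
      have b1 : |x * ε 1| ≤ |x| * C := by
        rw [abs_mul]; exact mul_le_mul_of_nonneg_left h1 (abs_nonneg x)
      have b2 : |y * ε 0| ≤ |y| * C := by
        rw [abs_mul]; exact mul_le_mul_of_nonneg_left h0 (abs_nonneg y)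
      have b3 : |x * (s ![x, 0]) 1| ≤ |x| * C := by
        rw [abs_mul]; exact mul_le_mul_of_nonneg_left a1 (abs_nonneg x)
      have b4 : |y * (s ![0, y]) 0| ≤ |y| * C := by
        rw [abs_mul]; exact mul_le_mul_of_nonneg_left a0 (abs_nonneg y)
      have c1 := abs_le.mp b1
      have c2 := abs_le.mp b2
      have c3 := abs_le.mp b3
      have c4 := abs_le.mp b4
      rw [abs_le]
      constructor <;> linarith [c1.1, c1.2, c2.1, c2.2, c3.1, c3.2, c4.1, c4.2])
  set τ : V → V := fun p => s p - l • p with hτ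
  have Hτ : ∀ x y : V, ∃ c : ℝ, vn (τ y - τ x - c • (y - x)) ≤ C := by
    intro x y
    obtain ⟨c, hc⟩ := Hs x y
    refine ⟨c - l, ?_⟩
    have e : τ y - τ x - (c - l) • (y - x) = s y - s x - c • (y - x) := by
      simp only [hτ]; module
    rw [e]; exact hc
  have t0 : ∀ x : ℝ, |(τ ![x, 0]) 0| ≤ 2 * C := by
    intro x
    have h := hl1 x
    have e : (τ ![x, 0]) 0 = (s ![x, 0]) 0 - l * x := by simp [hτ]
    rw [e]; exact h
  have t1 : ∀ y : ℝ, |(τ ![0, y]) 1| ≤ 2 * C := by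
    intro y
    have h := hl2 y
    have e : (τ ![0, y]) 1 = (s ![0, y]) 1 - l * y := by simp [hτ]
    rw [e]; exact h
  have all : ∀ p : V, vn (τ p) ≤ 8 * C := by
    intro p
    obtain ⟨c, hc⟩ := Hτ ![p 0, 0] p
    obtain ⟨c', hc'⟩ := Hτ ![0, p 1] p
    have h0 := lin_abs0 hc
    have h1 := lin_abs1 hc'
    have e0 : (τ p - τ ![p 0, 0] - c • (p - ![p 0, 0])) 0 = (τ p) 0 - (τ ![p 0, 0]) 0 := by
      have h : (τ p - τ ![p 0, 0] - c • (p - ![p 0, 0])) 0 =
        (τ p) 0 - (τ ![p 0, 0]) 0 - c * (p 0 - p 0) := rfl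
      rw [h]; ring
    have e1 : (τ p - τ ![0, p 1] - c' • (p - ![0, p 1])) 1 = (τ p) 1 - (τ ![0, p 1]) 1 := by
      have h : (τ p - τ ![0, p 1] - c' • (p - ![0, p 1])) 1 =
        (τ p) 1 - (τ ![0, p 1]) 1 - c' * (p 1 - p 1) := rfl
      rw [h]; ring
    rw [e0] at h0
    rw [e1] at h1
    have b0 := abs_le.mp h0
    have b1 := abs_le.mp h1
    have d0 := abs_le.mp (t0 (p 0))
    have d1 := abs_le.mp (t1 (p 1))
    have f0 : |(τ p) 0| ≤ 3 * C := by
      rw [abs_le]; constructor <;> linarith [b0.1, b0.2, d0.1, d0.2]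
    have f1 : |(τ p) 1| ≤ 3 * C := by
      rw [abs_le]; constructor <;> linarith [b1.1, b1.2, d1.1, d1.2]
    unfold vn
    linarith
  refine ⟨l, fun x y => ?_⟩
  have e : σ y - σ x - l • (y - x) = τ y - τ x := by
    simp only [hτ, hs]; module
  rw [e]
  have h := vn_sub_le (τ y) (τ x)
  have h1 := all x
  have h2 := all y
  linarith

end Pool.Agent.FQI
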