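import Pool.Agent.FQI.Norm

/-!
# Rotations

Proof of `exists_rot`. If `d = 0` take `k = 1`, `r = 0`. Otherwise `r = √(d 0 ^ 2 + d 1 ^ 2) > 0`,
`p = d 0 / r`, `q = d 1 / r`, `k = !![p, -q; q, p]`. Then `det k = p² + q² = 1`, `|p| + |q| ≤ 3/2`
(as `(|p| + |q|)² ≤ 2`), so `mn k = 2(|p| + |q|) ≤ 3`, and `r • k (1,0) = r • (p, q) = d`.
-/

set_option autoImplicit false

namespace Pool.Agent.FQI

open Matrix

theorem exists_rot (d : V) :
    ∃ (k : M2) (r : ℝ), 0 ≤ r ∧ k.det = 1 ∧ mn k ≤ 3 ∧ d = r • (k *ᵥ ![1, 0]) := by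
  by_cases hd : d = 0
  · refine ⟨1, 0, le_refl _, by simp, ?_, by simp [hd]⟩
    rw [mn_one]; norm_num
  · set r := Real.sqrt (d 0 ^ 2 + d 1 ^ 2) with hr
    have hpos : 0 < d 0 ^ 2 + d 1 ^ 2 := by
      by_contra hcon
      have h0 : d 0 ^ 2 + d 1 ^ 2 ≤ 0 := not_lt.1 hcon
      have h1 : d 0 = 0 := by nlinarith [sq_nonneg (d 0), sq_nonneg (d 1)]
      have h2 : d 1 = 0 := by nlinarith [sq_nonneg (d 0), sq_nonneg (d 1)]
      apply hd
      ext i
      fin_cases i
      · exact h1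
      · exact h2
    have hrpos : 0 < r := Real.sqrt_pos.2 hpos
    have hr2 : r ^ 2 = d 0 ^ 2 + d 1 ^ 2 := Real.sq_sqrt hpos.le
    set p := d 0 / r with hp
    set q := d 1 / r with hq
    have hpq : p ^ 2 + q ^ 2 = 1 := by
      rw [hp, hq, div_pow, div_pow, ← add_div, ← hr2]
      exact div_self (by positivity)
    refine ⟨!![p, -q; q, p], r, hrpos.le, ?_, ?_, ?_⟩
    · rw [Matrix.det_fin_two_of]
      linarith
    · have e : mn !![p, -q; q, p] = 2 * (|p| + |q|) := by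
        simp [mn]; ring
      rw [e]
      have h1 : |p| ^ 2 + |q| ^ 2 = 1 := by rw [sq_abs, sq_abs]; exact hpq
      have h2 := abs_nonneg p
      have h3 := abs_nonneg q
      nlinarith [sq_nonneg (|p| - |q|)]
    · ext i
      fin_cases i
      · simp [hp]
        field_simp
      · simp [hq]
        field_simp

end Pool.Agent.FQI
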