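import Pool.Agent.FQI.Near
import Pool.Agent.FQI.Rot

/-!
# The telescope: displacement differences point in the direction of the base points

Proof of `tele`. `R` is the constant of `near_pt Q 3`, and (given `R'`, which may be replaced by
`|R'|`) put `B := |R0 Q| * |R'|`, `C := 20 * B`.

Let `σ`, `h`, `w0`, `w1` be as in the statement, `d := h⁻¹ *ᵥ (w1 - w0)`, and `k`, `r` from
`exists_rot d`; `D t := !![2 ^ t, 0; 0, (2 ^ t)⁻¹]` (`t : ℕ`), `T : ℕ` with `r ≤ 2 ^ T`. All matrices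
`h`, `h * k`, `h * k * D t` have determinant one. Call `x_i := σ (pt Q w_i h)` and
`y_i t := σ (pt Q w_i (h * k * D t))`.

General fact (*): if `NR 3 w m w' m'` with `det m = det m' = 1`, then
`vn (m⁻¹ *ᵥ (σ (pt Q w' m') - σ (pt Q w m))) ≤ B`. Indeed the two points are `R`-near
(`near_pt`), so the hypothesis bounds the norm at `g (pt Q w m)` by `R'`, and
`mn (m⁻¹ * g (pt Q w m)) ≤ R0 Q` (`pt_spec`), use `vn_change`.

Steps (second component `Z x := ((h * k)⁻¹ *ᵥ x) 1`):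
1. `NR 3 w_i h w_i (h * k)` (`mn (h⁻¹ * (h * k)) = mn k ≤ 3`); `h * k = h * k * D 0`. So
   `vn (h⁻¹ *ᵥ (y_i 0 - x_i)) ≤ B` and, as `mn k⁻¹ = mn k ≤ 3`, `|Z (y_i 0 - x_i)| ≤ 3 * B`.
2. `NR 3 w_i (h k D t) w_i (h k D (t+1))`: `mn ((D t)⁻¹ * D (t+1)) = mn diag(2, 1/2) = 5/2`. So
   with `z = (h k)⁻¹ (y_i (t+1) - y_i t)`, `vn ((D t)⁻¹ z) ≤ B`, i.e. `|z 0| / 2^t + 2^t |z 1| ≤ B`,
   hence `|Z (y_i (t+1) - y_i t)| ≤ B / 2 ^ t`. Summing, `|Z (y_i T - y_i 0)| ≤ 2 * B`.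
3. At the top: `NR 3 w_0 (h k D T) w_1 (h k D T)`: `mn 1 = 2` and
   `(h k D T)⁻¹ (w1 - w0) = (D T)⁻¹ k⁻¹ d = (r / 2 ^ T, 0)` has `vn ≤ 1`. So
   `|Z (y_1 T - y_0 T)| ≤ B / 2 ^ T ≤ B`.
4. Total: `|Z (x_1 - x_0)| ≤ 3B + 2B + B + 2B + 3B = 11 B`. Write
   `(h k)⁻¹ (x_1 - x_0) = (c', z1)` with `|z1| ≤ 11 B`. Then
   `h⁻¹ (x_1 - x_0) = c' • k (1,0) + z1 • k (0,1)`. If `r ≠ 0`, take `c = c' / r`:
   `h⁻¹ (c • (w1 - w0)) = c • d = c' • k (1,0)`, so the vector in question is `z1 • k (0,1)`, and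
   `vn (k (0,1)) ≤ 3/2` (`k 0 1`, `k 1 1`: `|k 0 1| + |k 1 1| ≤ mn k ≤ 3` is enough if the constant
   is changed to `33 B`; any constant depending only on `Q`, `R'` is fine).
   If `r = 0`, then `d = 0`, so `w1 = w0` and the difference is `0`.
-/

set_option autoImplicit false

namespace Pool.Agent.FQI

open Matrix

private theorem tele_vec (v : V) : v = ![v 0, v 1] := by
  ext i; fin_cases i <;> rfl

private theorem tele_D_det (t : ℕ) :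
    (!![(2 : ℝ) ^ t, 0; 0, ((2 : ℝ) ^ t)⁻¹] : M2).det = 1 := by
  rw [Matrix.det_fin_two]
  have : (2 : ℝ) ^ t ≠ 0 := by positivity
  simp [this]

private theorem tele_D_inv (t : ℕ) :
    (!![(2 : ℝ) ^ t, 0; 0, ((2 : ℝ) ^ t)⁻¹] : M2)⁻¹ = !![((2 : ℝ) ^ t)⁻¹, 0; 0, (2 : ℝ) ^ t] := by
  refine Matrix.inv_eq_left_inv ?_
  have : (2 : ℝ) ^ t ≠ 0 := by positivity
  ext i j
  fin_cases i <;> fin_cases j <;> simp [Matrix.mul_apply, Fin.sum_univ_two, this]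

/-- second component of a vector with small `(D t)⁻¹`-norm -/
private theorem tele_second (t : ℕ) (z : V) (B : ℝ)
    (H : vn ((!![(2 : ℝ) ^ t, 0; 0, ((2 : ℝ) ^ t)⁻¹] : M2)⁻¹ *ᵥ z) ≤ B) :
    |z 1| ≤ B / 2 ^ t := by
  rw [tele_D_inv] at H
  have h2 : (0 : ℝ) < 2 ^ t := by positivity
  have e1 : ((!![((2 : ℝ) ^ t)⁻¹, 0; 0, (2 : ℝ) ^ t] : M2) *ᵥ z) 1 = 2 ^ t * z 1 := by
    simp [Matrix.mulVec, dotProduct, Fin.sum_univ_two]
  have h3 := abs_le_vn ((!![((2 : ℝ) ^ t)⁻¹, 0; 0, (2 : ℝ) ^ t] : M2) *ᵥ z) 1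
  rw [e1, abs_mul, abs_of_pos h2] at h3
  rw [le_div_iff₀ h2]
  linarith

private theorem tele_mn_step (t : ℕ) :
    mn ((!![(2 : ℝ) ^ t, 0; 0, ((2 : ℝ) ^ t)⁻¹] : M2)⁻¹ *
      !![(2 : ℝ) ^ (t + 1), 0; 0, ((2 : ℝ) ^ (t + 1))⁻¹]) ≤ 3 := by
  rw [tele_D_inv]
  have h : (2 : ℝ) ^ t ≠ 0 := by positivity
  have e : (!![((2 : ℝ) ^ t)⁻¹, 0; 0, (2 : ℝ) ^ t] : M2) *
      !![(2 : ℝ) ^ (t + 1), 0; 0, ((2 : ℝ) ^ (t + 1))⁻¹] = !![2, 0; 0, 1 / 2] := by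
    ext i j
    fin_cases i <;> fin_cases j <;> simp [Matrix.mul_apply, Fin.sum_univ_two, pow_succ] <;>
      field_simp
  rw [e]
  simp only [mn, Matrix.of_apply, Matrix.cons_val', Matrix.cons_val_zero, Matrix.cons_val_one,
    Matrix.cons_val_fin_one]
  rw [abs_of_nonneg (by norm_num : (0 : ℝ) ≤ 2), abs_zero,
    abs_of_nonneg (by norm_num : (0 : ℝ) ≤ 1 / 2)]
  norm_num

variable {Γ : Type} [Group Γ]

private theorem tele_step (Q : FibQI Γ) (R R' : ℝ)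
    (hR : ∀ w h w' h', h.det = 1 → h'.det = 1 → NR 3 w h w' h' →
      near Q R (pt Q w h) (pt Q w' h'))
    (σ : Γ → V) (hσ : ∀ a b, near Q R a b → vn ((Q.g a)⁻¹ *ᵥ (σ b - σ a)) ≤ R')
    (w w' : V) (m m' : M2) (hm : m.det = 1) (hm' : m'.det = 1) (H : NR 3 w m w' m') :
    vn (m⁻¹ *ᵥ (σ (pt Q w' m') - σ (pt Q w m))) ≤ |R0 Q| * |R'| := by
  have h1 := hσ _ _ (hR w m w' m' hm hm' H)
  have h2 := (pt_spec Q w m hm).1
  have h3 := vn_change (h := m) (h' := Q.g (pt Q w m)) (abs_det_of_det (Q.det_g _))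
    (σ (pt Q w' m') - σ (pt Q w m))
  refine h3.trans (mul_le_mul (h2.trans (le_abs_self _)) (h1.trans (le_abs_self _))
    (vn_nonneg _) (abs_nonneg _))

/-- If `σ` is coarsely Lipschitz, then `σ (w1, h) - σ (w0, h)` is, up to a bounded error in the norm
of the fibre, a multiple of `w1 - w0`. -/
theorem tele (Q : FibQI Γ) :
    ∃ R : ℝ, ∀ R' : ℝ, ∃ C : ℝ, 0 ≤ C ∧ ∀ σ : Γ → V,
      (∀ a b, near Q R a b → vn ((Q.g a)⁻¹ *ᵥ (σ b - σ a)) ≤ R') →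
      ∀ h : M2, h.det = 1 → ∀ w0 w1 : V, ∃ c : ℝ,
        vn (h⁻¹ *ᵥ (σ (pt Q w1 h) - σ (pt Q w0 h) - c • (w1 - w0))) ≤ C := by
  obtain ⟨R, hR⟩ := near_pt Q 3
  refine ⟨R, fun R' => ?_⟩
  set B : ℝ := |R0 Q| * |R'| with hB
  have hB0 : 0 ≤ B := by positivity
  refine ⟨33 * B, by positivity, fun σ hσ h hh w0 w1 => ?_⟩
  have step := tele_step Q R R' hR σ hσ
  set d : V := h⁻¹ *ᵥ (w1 - w0) with hd
  obtain ⟨k, r, hr, hk, hkn, hdk⟩ := exists_rot d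
  have hki := abs_det_of_det hk
  have hhi := abs_det_of_det hh
  have hhk : (h * k).det = 1 := by rw [Matrix.det_mul, hh, hk, one_mul]
  set D : ℕ → M2 := fun t => !![(2 : ℝ) ^ t, 0; 0, ((2 : ℝ) ^ t)⁻¹] with hD
  have hDdet : ∀ t, (D t).det = 1 := fun t => tele_D_det t
  have hkD : ∀ t, (h * k * D t).det = 1 := by
    intro t; rw [Matrix.det_mul, hhk, hDdet, one_mul]
  obtain ⟨T, hT⟩ : ∃ T : ℕ, r ≤ 2 ^ T := by
    obtain ⟨T, hT⟩ := pow_unbounded_of_one_lt r (by norm_num : (1 : ℝ) < 2)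
    exact ⟨T, hT.le⟩
  -- the second component
  set Z : V → ℝ := fun x => ((h * k)⁻¹ *ᵥ x) 1 with hZ
  have Zsub : ∀ x y, Z (x - y) = Z x - Z y := by
    intro x y
    simp only [hZ, Matrix.mulVec_sub, Pi.sub_apply]
  have hD0 : D 0 = 1 := by
    simp only [hD, pow_zero, inv_one]
    ext i j
    fin_cases i <;> fin_cases j <;> simp
  -- step 1
  have s1 : ∀ w : V, |Z (σ (pt Q w (h * k * D 0))) - Z (σ (pt Q w h))| ≤ 3 * B := by
    intro w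
    rw [← Zsub]
    have hn : NR 3 w h w (h * k * D 0) := by
      refine NR_of_mn ?_
      rw [hD0, Matrix.mul_one, ← Matrix.mul_assoc, inv_mul_self_of hhi, Matrix.one_mul]
      exact hkn
    have h1 := step w w h (h * k * D 0) hh (hkD 0) hn
    set x := σ (pt Q w (h * k * D 0)) - σ (pt Q w h) with hx
    have e : (h * k)⁻¹ *ᵥ x = k⁻¹ *ᵥ (h⁻¹ *ᵥ x) := by
      rw [Matrix.mul_inv_rev, Matrix.mulVec_mulVec]
    have h2 : |Z x| ≤ vn ((h * k)⁻¹ *ᵥ x) := abs_le_vn ((h * k)⁻¹ *ᵥ x) 1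
    rw [e] at h2
    have h3 := vn_mulVec_le k⁻¹ (h⁻¹ *ᵥ x)
    rw [mn_inv hki] at h3
    have h4 : mn k * vn (h⁻¹ *ᵥ x) ≤ 3 * B := mul_le_mul hkn h1 (vn_nonneg _) (by norm_num)
    linarith
  -- transfer of the norms
  have Zt : ∀ (t : ℕ) (x : V), vn ((h * k * D t)⁻¹ *ᵥ x) ≤ B → |Z x| ≤ B / 2 ^ t := by
    intro t x hx
    rw [Matrix.mul_inv_rev, ← Matrix.mulVec_mulVec] at hx
    exact tele_second t _ B hx
  -- step 2
  have s2 : ∀ (w : V) (t : ℕ),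
      |Z (σ (pt Q w (h * k * D (t + 1)))) - Z (σ (pt Q w (h * k * D t)))| ≤ B / 2 ^ t := by
    intro w t
    rw [← Zsub]
    refine Zt t _ (step w w _ _ (hkD t) (hkD (t + 1)) (NR_of_mn ?_))
    have e : (h * k * D t)⁻¹ * (h * k * D (t + 1)) = (D t)⁻¹ * D (t + 1) := by
      rw [Matrix.mul_inv_rev, Matrix.mul_assoc, ← Matrix.mul_assoc (h * k)⁻¹,
        inv_mul_self_of (abs_det_of_det hhk), Matrix.one_mul]
    rw [e]
    exact tele_mn_step t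
  have s3 : ∀ (w : V) (t : ℕ),
      |Z (σ (pt Q w (h * k * D t))) - Z (σ (pt Q w (h * k * D 0)))| ≤ 2 * B * (1 - 1 / 2 ^ t) := by
    intro w t
    induction t with
    | zero => simp
    | succ t ih =>
      have h1 := s2 w t
      have h2 := abs_sub_le (Z (σ (pt Q w (h * k * D (t + 1))))) (Z (σ (pt Q w (h * k * D t))))
        (Z (σ (pt Q w (h * k * D 0))))
      have e : 2 * B * (1 - 1 / 2 ^ (t + 1)) = B / 2 ^ t + 2 * B * (1 - 1 / 2 ^ t) := by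
        have h : (2 : ℝ) ^ t ≠ 0 := by positivity
        rw [pow_succ]
        field_simp
        ring
      rw [e]
      linarith
  have s3' : ∀ w : V,
      |Z (σ (pt Q w (h * k * D T))) - Z (σ (pt Q w (h * k * D 0)))| ≤ 2 * B := by
    intro w
    refine (s3 w T).trans ?_
    have h1 : (0 : ℝ) ≤ 1 / 2 ^ T := by positivity
    nlinarith
  -- step 3
  have hd0 : (k⁻¹ *ᵥ d) = ![r, 0] := by
    rw [hdk, Matrix.mulVec_smul, Matrix.mulVec_mulVec, inv_mul_self_of hki, Matrix.one_mulVec]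
    ext i
    fin_cases i <;> simp
  have s4 : |Z (σ (pt Q w1 (h * k * D T))) - Z (σ (pt Q w0 (h * k * D T)))| ≤ B := by
    rw [← Zsub]
    have h1 : NR 3 w0 (h * k * D T) w1 (h * k * D T) := by
      refine NR_of_vn (by norm_num) (hkD T) ?_
      rw [Matrix.mul_inv_rev, Matrix.mul_inv_rev, ← Matrix.mulVec_mulVec, ← Matrix.mulVec_mulVec,
        ← hd, hd0, tele_D_inv]
      have h2 : (0 : ℝ) < 2 ^ T := by positivity
      have e : vn ((!![((2 : ℝ) ^ T)⁻¹, 0; 0, (2 : ℝ) ^ T] : M2) *ᵥ ![r, 0]) = r / 2 ^ T := by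
        simp [vn, Matrix.mulVec, dotProduct, Fin.sum_univ_two]
        rw [abs_of_nonneg hr]
        ring
      rw [e]
      have : r / 2 ^ T ≤ 1 := by
        rw [div_le_one h2]; exact hT
      linarith
    have h2 := Zt T _ (step w0 w1 _ _ (hkD T) (hkD T) h1)
    refine h2.trans ?_
    have h3 : (1 : ℝ) ≤ 2 ^ T := one_le_pow₀ (by norm_num)
    exact div_le_self hB0 h3
  -- total
  have tot : |Z (σ (pt Q w1 h) - σ (pt Q w0 h))| ≤ 11 * B := by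
    rw [Zsub]
    have a1 := abs_le.mp (s1 w1)
    have a2 := abs_le.mp (s1 w0)
    have a3 := abs_le.mp (s3' w1)
    have a4 := abs_le.mp (s3' w0)
    have a5 := abs_le.mp s4
    rw [abs_le]
    constructor <;> linarith [a1.1, a1.2, a2.1, a2.2, a3.1, a3.2, a4.1, a4.2, a5.1, a5.2]
  set x := σ (pt Q w1 h) - σ (pt Q w0 h) with hx
  set z : V := (h * k)⁻¹ *ᵥ x with hz
  have hz1 : |z 1| ≤ 11 * B := tot
  have hkz : h⁻¹ *ᵥ x = k *ᵥ z := by
    rw [hz, Matrix.mul_inv_rev, Matrix.mulVec_mulVec, ← Matrix.mul_assoc,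
      mul_inv_self_of hki, Matrix.one_mul]
  have hsplit : z = z 0 • ![1, 0] + z 1 • ![0, 1] := by
    ext i
    fin_cases i <;> simp
  have hk01 : vn (k *ᵥ ![0, 1]) ≤ 3 := by
    have h1 := vn_mulVec_le k ![0, 1]
    have h2 : vn ![0, 1] = 1 := by simp [vn]
    rw [h2, mul_one] at h1
    linarith
  by_cases hr0 : r = 0
  · refine ⟨0, ?_⟩
    have hd1 : d = 0 := by rw [hdk, hr0, zero_smul]
    have hw : w1 = w0 := by
      have h1 : h *ᵥ d = w1 - w0 := by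
        rw [hd, Matrix.mulVec_mulVec, mul_inv_self_of hhi, Matrix.one_mulVec]
      rw [hd1, Matrix.mulVec_zero] at h1
      exact (sub_eq_zero.mp h1.symm)
    have hx0 : x = 0 := by rw [hx, hw, sub_self]
    rw [hx0, zero_smul, sub_zero, Matrix.mulVec_zero, vn_zero]
    positivity
  · refine ⟨z 0 / r, ?_⟩
    have e : h⁻¹ *ᵥ (x - (z 0 / r) • (w1 - w0)) = z 1 • (k *ᵥ ![0, 1]) := by
      rw [Matrix.mulVec_sub, hkz, Matrix.mulVec_smul, ← hd, hdk, smul_smul,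
        div_mul_cancel₀ _ hr0]
      conv_lhs => rw [hsplit]
      rw [Matrix.mulVec_add, Matrix.mulVec_smul, Matrix.mulVec_smul]
      simp
    rw [e, vn_smul]
    have h5 := mul_le_mul hz1 hk01 (vn_nonneg _) (by positivity)
    linarith

end Pool.Agent.FQI
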