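import Pool.Agent.FQI.Sh
import Pool.Agent.FQI.Tele
import Pool.Agent.FQI.Lin

/-!
# The homothety factor is the same for all fibres

Proof of `lam`. Take `R` from `tele`; given `R'` take `C` from `tele` and use `20 * C` here.
Let `σ` satisfy both hypotheses. For every `h` with `det h = 1` apply `lin_of_dir` to
`σ' x := h⁻¹ *ᵥ σ (pt Q (h *ᵥ x) h)`: the hypothesis of `lin_of_dir` is `tele` for the points
`h *ᵥ x`, `h *ᵥ y` (`h⁻¹ *ᵥ (c • (h *ᵥ y - h *ᵥ x)) = c • (y - x)`). We get `l_h` with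
`vn (h⁻¹ *ᵥ (σ (pt Q w1 h) - σ (pt Q w0 h) - l_h • (w1 - w0))) ≤ 20 * C` for all `w0 w1`
(put `x = h⁻¹ *ᵥ w0`, `y = h⁻¹ *ᵥ w1`).
Put `l := l_1` (for `h = 1`). Claim `l_h = l`. Let `m := mn (1⁻¹ * h)`; then
`NR m w 1 w h` for all `w` (`NR_of_mn`), so by `near_pt` the points `pt Q w 1`, `pt Q w h` are
`R1`-near with `R1` independent of `w`; by the second hypothesis and `pt_spec` (`vn_change`),
`vn (1⁻¹ *ᵥ (σ (pt Q w h) - σ (pt Q w 1))) ≤ |R0 Q| * |R1'|` for all `w`. Subtracting the two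
estimates (change the norm `h⁻¹` into the norm `1⁻¹` with `vn_change`), `vn ((l_h - l) • (w1 - w0))`
is bounded by a constant independent of `w0`, `w1`, hence `l_h = l` (take `w0 = 0`,
`w1 = ![n, 0]`).

Proof of `lam_sh`: `R` from `lam`, `R'` from `sh_near Q R`, and `sh_near` for the second hypothesis;
choose `l γ v`.
-/

set_option autoImplicit false

namespace Pool.Agent.FQI

open Matrix

variable {Γ : Type} [Group Γ]

/-- Change of norm at `pt Q w 1`. -/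
private theorem lamL_change (Q : FibQI Γ) (w : V) (x : V) :
    vn x ≤ |R0 Q| * vn ((Q.g (pt Q w 1))⁻¹ *ᵥ x) := by
  have h1 := (pt_spec Q w 1 Matrix.det_one).1
  have h2 := vn_change (h := (1 : M2)) (abs_det_of_det (Q.det_g (pt Q w 1))) x
  rw [inv_one, Matrix.one_mulVec] at h2
  rw [inv_one] at h1
  exact h2.trans (mul_le_mul_of_nonneg_right (h1.trans (le_abs_self _)) (vn_nonneg _))

/-- A real number whose multiples are bounded is zero. -/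
private theorem lamL_zero (c B : ℝ) (h : ∀ n : ℕ, |c| * n ≤ B) : c = 0 := by
  by_contra hc
  have hc' : 0 < |c| := abs_pos.mpr hc
  obtain ⟨n, hn⟩ := exists_nat_gt (B / |c|)
  rw [div_lt_iff₀ hc'] at hn
  have := h n
  linarith

private theorem lamL_inv {h : M2} (hh : h.det = 1) (x : V) : h⁻¹ *ᵥ (h *ᵥ x) = x := by
  rw [Matrix.mulVec_mulVec, inv_mul_self_of (abs_det_of_det hh), Matrix.one_mulVec]

private theorem lamL_inv' {h : M2} (hh : h.det = 1) (x : V) : h *ᵥ (h⁻¹ *ᵥ x) = x := by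
  rw [Matrix.mulVec_mulVec, mul_inv_self_of (abs_det_of_det hh), Matrix.one_mulVec]

theorem lam (Q : FibQI Γ) :
    ∃ R : ℝ, ∀ R' : ℝ, ∃ C : ℝ, ∀ σ : Γ → V,
      (∀ a b, near Q R a b → vn ((Q.g a)⁻¹ *ᵥ (σ b - σ a)) ≤ R') →
      (∀ R1 : ℝ, ∃ R1' : ℝ, ∀ a b, near Q R1 a b →
        vn ((Q.g a)⁻¹ *ᵥ (σ b - σ a)) ≤ R1') →
      ∃ l : ℝ, ∀ h : M2, h.det = 1 → ∀ w0 w1 : V,
        vn (h⁻¹ *ᵥ (σ (pt Q w1 h) - σ (pt Q w0 h) - l • (w1 - w0))) ≤ C := by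
  obtain ⟨R, hR⟩ := tele Q
  refine ⟨R, fun R' => ?_⟩
  obtain ⟨Ct, hCt0, hCt⟩ := hR R'
  refine ⟨20 * Ct, fun σ hσ hσ2 => ?_⟩
  have hdet : (1 : M2).det = 1 := Matrix.det_one
  have step : ∀ h : M2, h.det = 1 → ∃ l : ℝ, ∀ w0 w1 : V,
      vn (h⁻¹ *ᵥ (σ (pt Q w1 h) - σ (pt Q w0 h) - l • (w1 - w0))) ≤ 20 * Ct := by
    intro h hh
    obtain ⟨l, hl⟩ := lin_of_dir (fun x => h⁻¹ *ᵥ σ (pt Q (h *ᵥ x) h)) Ct hCt0 (by
      intro x y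
      obtain ⟨c, hc⟩ := hCt σ hσ h hh (h *ᵥ x) (h *ᵥ y)
      refine ⟨c, ?_⟩
      have e : h⁻¹ *ᵥ (σ (pt Q (h *ᵥ y) h) - σ (pt Q (h *ᵥ x) h) - c • (h *ᵥ y - h *ᵥ x)) =
          h⁻¹ *ᵥ σ (pt Q (h *ᵥ y) h) - h⁻¹ *ᵥ σ (pt Q (h *ᵥ x) h) - c • (y - x) := by
        rw [← Matrix.mulVec_sub, Matrix.mulVec_sub, Matrix.mulVec_sub, Matrix.mulVec_smul,
          lamL_inv hh]
      rw [e] at hc
      exact hc)
    refine ⟨l, fun w0 w1 => ?_⟩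
    have h1 := hl (h⁻¹ *ᵥ w0) (h⁻¹ *ᵥ w1)
    have e : h⁻¹ *ᵥ (σ (pt Q w1 h) - σ (pt Q w0 h) - l • (w1 - w0)) =
        h⁻¹ *ᵥ σ (pt Q w1 h) - h⁻¹ *ᵥ σ (pt Q w0 h) - l • (h⁻¹ *ᵥ w1 - h⁻¹ *ᵥ w0) := by
      rw [Matrix.mulVec_sub, Matrix.mulVec_sub, Matrix.mulVec_smul, Matrix.mulVec_sub]
    rw [e]
    simpa only [lamL_inv' hh] using h1
  obtain ⟨l, hl⟩ := step 1 hdet
  refine ⟨l, fun h hh => ?_⟩
  obtain ⟨l', hl'⟩ := step h hh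
  have hll : l' - l = 0 := by
    obtain ⟨R1, hR1⟩ := near_pt Q (mn ((1 : M2)⁻¹ * h))
    obtain ⟨R1', hR1'⟩ := hσ2 R1
    have hb : ∀ w : V, vn (σ (pt Q w h) - σ (pt Q w 1)) ≤ |R0 Q| * |R1'| := by
      intro w
      have h1 := hR1' _ _ (hR1 w 1 w h hdet hh (NR_of_mn le_rfl))
      exact (lamL_change Q w _).trans
        (mul_le_mul_of_nonneg_left (h1.trans (le_abs_self _)) (abs_nonneg _))
    refine lamL_zero _ (20 * Ct + mn h * (20 * Ct) + 2 * (|R0 Q| * |R1'|)) fun n => ?_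
    have h1 := hl 0 ![(n : ℝ), 0]
    have h2 := hl' 0 ![(n : ℝ), 0]
    rw [inv_one, Matrix.one_mulVec, sub_zero] at h1
    rw [sub_zero] at h2
    have h3 := vn_change (h := (1 : M2)) (abs_det_of_det hh)
      (σ (pt Q ![(n : ℝ), 0] h) - σ (pt Q 0 h) - l' • (![(n : ℝ), 0] : V))
    rw [inv_one, Matrix.one_mulVec, Matrix.one_mul] at h3
    have h4 := h3.trans (mul_le_mul_of_nonneg_left h2 (mn_nonneg h))
    have h5 : vn ((l' - l) • (![(n : ℝ), 0] : V)) = |l' - l| * n := by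
      rw [vn_smul]; simp [vn]
    have h6 : (l' - l) • (![(n : ℝ), 0] : V) =
        (σ (pt Q ![(n : ℝ), 0] 1) - σ (pt Q 0 1) - l • (![(n : ℝ), 0] : V)) -
        (σ (pt Q ![(n : ℝ), 0] h) - σ (pt Q 0 h) - l' • (![(n : ℝ), 0] : V)) +
        (σ (pt Q ![(n : ℝ), 0] h) - σ (pt Q ![(n : ℝ), 0] 1)) -
        (σ (pt Q 0 h) - σ (pt Q 0 1)) := by
      rw [sub_smul]; abel
    rw [← h5, h6]
    have a1 := vn_sub_le ((σ (pt Q ![(n : ℝ), 0] 1) - σ (pt Q 0 1) - l • (![(n : ℝ), 0] : V)) -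
        (σ (pt Q ![(n : ℝ), 0] h) - σ (pt Q 0 h) - l' • (![(n : ℝ), 0] : V)) +
        (σ (pt Q ![(n : ℝ), 0] h) - σ (pt Q ![(n : ℝ), 0] 1)))
        (σ (pt Q 0 h) - σ (pt Q 0 1))
    have a2 := vn_add_le ((σ (pt Q ![(n : ℝ), 0] 1) - σ (pt Q 0 1) - l • (![(n : ℝ), 0] : V)) -
        (σ (pt Q ![(n : ℝ), 0] h) - σ (pt Q 0 h) - l' • (![(n : ℝ), 0] : V)))
        (σ (pt Q ![(n : ℝ), 0] h) - σ (pt Q ![(n : ℝ), 0] 1))
    have a3 := vn_sub_le (σ (pt Q ![(n : ℝ), 0] 1) - σ (pt Q 0 1) - l • (![(n : ℝ), 0] : V))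
        (σ (pt Q ![(n : ℝ), 0] h) - σ (pt Q 0 h) - l' • (![(n : ℝ), 0] : V))
    have a4 := hb ![(n : ℝ), 0]
    have a5 := hb 0
    linarith
  have hll' : l' = l := by linarith
  rw [← hll']
  exact hl'

theorem lam_sh (Q : FibQI Γ) :
    ∃ (C : ℝ) (l : Γ → V → ℝ), ∀ γ v h, h.det = 1 → ∀ w0 w1 : V,
      vn (h⁻¹ *ᵥ (sh Q γ v (pt Q w1 h) - sh Q γ v (pt Q w0 h) - l γ v • (w1 - w0))) ≤ C := by
  obtain ⟨R, hR⟩ := lam Q
  obtain ⟨R', hR'⟩ := sh_near Q R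
  obtain ⟨C, hC⟩ := hR R'
  have h1 : ∀ γ v, ∃ l : ℝ, ∀ h : M2, h.det = 1 → ∀ w0 w1 : V,
      vn (h⁻¹ *ᵥ (sh Q γ v (pt Q w1 h) - sh Q γ v (pt Q w0 h) - l • (w1 - w0))) ≤ C := by
    intro γ v
    refine hC (sh Q γ v) (fun a b hab => hR' γ v a b hab) fun R1 => ?_
    obtain ⟨R1', hR1'⟩ := sh_near Q R1
    exact ⟨R1', fun a b hab => hR1' γ v a b hab⟩
  choose l hl using h1
  exact ⟨C, l, fun γ v h hh w0 w1 => hl γ v h hh w0 w1⟩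

end Pool.Agent.FQI
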