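import Pool.Agent.FQI.Sh

/-!
# Boundedness of `l`

Proofs.
* `lam_bdd`: take `h = 1`, `w0 = 0`, `w1 = ![1, 0]`. `NR 2 0 1 ![1,0] 1` (`NR_of_vn`), so by
  `near_pt` the points `pt Q 0 1`, `pt Q ![1,0] 1` are `R`-near for a fixed `R`, `sh_near` bounds
  `vn ((g (pt Q 0 1))⁻¹ *ᵥ (sh .. - sh ..))` by `R'` (uniform in `γ`, `v`), hence
  `vn (sh Q γ v (pt Q ![1,0] 1) - sh Q γ v (pt Q 0 1))` by `|R0 Q| * |R'|` (`pt_spec`, `vn_change`).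
  With `H`: `|l γ v| = vn (l γ v • ![1, 0]) ≤ C + |R0 Q| * |R'|`.
* `lam_at_zero`: `sh_small Q 0` (`vn ((..)⁻¹ *ᵥ 0) = 0 ≤ 0`) bounds
  `vn ((g a)⁻¹ *ᵥ sh Q γ 0 a)` uniformly in `a`; for `a = pt Q w 1` also `vn (sh Q γ 0 a)` is
  bounded uniformly in `w` (`mn (g a)` bounded by `pt_spec`). By `H` with `w0 = 0`, `w1 = ![n, 0]`,
  `|l γ 0| * n` is bounded, so `l γ 0 = 0`.
-/

set_option autoImplicit false

namespace Pool.Agent.FQI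

open Matrix

variable {Γ : Type} [Group Γ]

/-- Change of norm at `pt Q w 1`. -/
private theorem lamBdd_change (Q : FibQI Γ) (w : V) (x : V) :
    vn x ≤ |R0 Q| * vn ((Q.g (pt Q w 1))⁻¹ *ᵥ x) := by
  have h1 := (pt_spec Q w 1 Matrix.det_one).1
  have h2 := vn_change (h := (1 : M2)) (abs_det_of_det (Q.det_g (pt Q w 1))) x
  rw [inv_one, Matrix.one_mulVec] at h2
  rw [inv_one] at h1
  exact h2.trans (mul_le_mul_of_nonneg_right (h1.trans (le_abs_self _)) (vn_nonneg _))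

/-- A real number whose multiples are bounded is zero. -/
private theorem lamBdd_zero (c B : ℝ) (h : ∀ n : ℕ, |c| * n ≤ B) : c = 0 := by
  by_contra hc
  have hc' : 0 < |c| := abs_pos.mpr hc
  obtain ⟨n, hn⟩ := exists_nat_gt (B / |c|)
  rw [div_lt_iff₀ hc'] at hn
  have := h n
  linarith

theorem lam_bdd (Q : FibQI Γ) (C : ℝ) (l : Γ → V → ℝ)
    (H : ∀ γ v h, h.det = 1 → ∀ w0 w1 : V,
      vn (h⁻¹ *ᵥ (sh Q γ v (pt Q w1 h) - sh Q γ v (pt Q w0 h) - l γ v • (w1 - w0))) ≤ C) :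
    ∃ B : ℝ, ∀ γ v, |l γ v| ≤ B := by
  obtain ⟨R, hR⟩ := near_pt Q 2
  obtain ⟨R', hR'⟩ := sh_near Q R
  refine ⟨C + |R0 Q| * |R'|, fun γ v => ?_⟩
  have hdet : (1 : M2).det = 1 := Matrix.det_one
  have hn : NR 2 (0 : V) (1 : M2) ![1, 0] (1 : M2) := by
    refine NR_of_vn le_rfl hdet ?_
    rw [inv_one, Matrix.one_mulVec, sub_zero]
    simp [vn]
  have h2 := hR' γ v _ _ (hR 0 1 ![1, 0] 1 hdet hdet hn)
  have h3 := lamBdd_change Q 0 (sh Q γ v (pt Q ![1, 0] 1) - sh Q γ v (pt Q 0 1))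
  have h4 := H γ v 1 hdet 0 ![1, 0]
  rw [inv_one, Matrix.one_mulVec, sub_zero] at h4
  have h5 : vn (l γ v • (![1, 0] : V)) = |l γ v| := by
    rw [vn_smul]; simp [vn]
  have h6 : l γ v • (![1, 0] : V) = (sh Q γ v (pt Q ![1, 0] 1) - sh Q γ v (pt Q 0 1)) -
      (sh Q γ v (pt Q ![1, 0] 1) - sh Q γ v (pt Q 0 1) - l γ v • (![1, 0] : V)) := by abel
  have h7 := vn_sub_le (sh Q γ v (pt Q ![1, 0] 1) - sh Q γ v (pt Q 0 1))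
    (sh Q γ v (pt Q ![1, 0] 1) - sh Q γ v (pt Q 0 1) - l γ v • (![1, 0] : V))
  rw [← h6, h5] at h7
  have h8 : |R0 Q| * vn ((Q.g (pt Q 0 1))⁻¹ *ᵥ
      (sh Q γ v (pt Q ![1, 0] 1) - sh Q γ v (pt Q 0 1))) ≤ |R0 Q| * |R'| :=
    mul_le_mul_of_nonneg_left (h2.trans (le_abs_self _)) (abs_nonneg _)
  linarith

theorem lam_at_zero (Q : FibQI Γ) (C : ℝ) (l : Γ → V → ℝ)
    (H : ∀ γ v h, h.det = 1 → ∀ w0 w1 : V,
      vn (h⁻¹ *ᵥ (sh Q γ v (pt Q w1 h) - sh Q γ v (pt Q w0 h) - l γ v • (w1 - w0))) ≤ C)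
    (γ : Γ) : l γ 0 = 0 := by
  obtain ⟨R', hR'⟩ := sh_small Q 0
  have hdet : (1 : M2).det = 1 := Matrix.det_one
  have h1 : ∀ w, vn (sh Q γ 0 (pt Q w 1)) ≤ |R0 Q| * |R'| := by
    intro w
    have h2 := hR' γ 0 (pt Q w 1) (by rw [Matrix.mulVec_zero, vn_zero])
    exact (lamBdd_change Q w _).trans
      (mul_le_mul_of_nonneg_left (h2.trans (le_abs_self _)) (abs_nonneg _))
  refine lamBdd_zero _ (C + 2 * (|R0 Q| * |R'|)) fun n => ?_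
  have h4 := H γ 0 1 hdet 0 ![(n : ℝ), 0]
  rw [inv_one, Matrix.one_mulVec, sub_zero] at h4
  have h5 : vn (l γ 0 • (![(n : ℝ), 0] : V)) = |l γ 0| * n := by
    rw [vn_smul]; simp [vn]
  have h6 : l γ 0 • (![(n : ℝ), 0] : V) =
      (sh Q γ 0 (pt Q ![(n : ℝ), 0] 1) - sh Q γ 0 (pt Q 0 1)) -
      (sh Q γ 0 (pt Q ![(n : ℝ), 0] 1) - sh Q γ 0 (pt Q 0 1) - l γ 0 • (![(n : ℝ), 0] : V)) := by
    abel
  have h7 := vn_sub_le (sh Q γ 0 (pt Q ![(n : ℝ), 0] 1) - sh Q γ 0 (pt Q 0 1))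
    (sh Q γ 0 (pt Q ![(n : ℝ), 0] 1) - sh Q γ 0 (pt Q 0 1) - l γ 0 • (![(n : ℝ), 0] : V))
  rw [← h6, h5] at h7
  have h8 := vn_sub_le (sh Q γ 0 (pt Q ![(n : ℝ), 0] 1)) (sh Q γ 0 (pt Q 0 1))
  have h9 := h1 ![(n : ℝ), 0]
  have h10 := h1 0
  linarith

end Pool.Agent.FQI
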