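import Pool.Agent.FQI.Sh

/-!
# Multiplicativity of `1 + l`

Proof of `lam_mul`. Fix `γ`, `v`, `v'` and work with `h = 1` only (so `vn (1⁻¹ *ᵥ x) = vn x`).
Constants may depend on `γ`, `v`, `v'` but not on `w`. Write `a = pt Q w 1`, `b = F Q γ v' a`,
`e = F Q γ v b`, `e' = F Q γ (v + v') a`. Bounded means bounded independently of `w`.
1. `mn ((g a)⁻¹ ..)`: `pt_spec` gives `mn (g a)` bounded and `vn (u a - w)` bounded; `F_fib` gives
   `mn ((g a)⁻¹ * g b)`, `mn ((g b)⁻¹ * g e)` bounded, so all of `mn (g a)`, `mn (g b)`, `mn (g e)`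
   and those of the inverses are bounded, and a vector bounded in one of the norms
   `vn ((g a)⁻¹ *ᵥ ·)`, `vn ((g b)⁻¹ *ᵥ ·)`, `vn ((g e)⁻¹ *ᵥ ·)`, `vn` is bounded in all of them
   (`vn_change` with `h = 1`).
2. `F_comp`: `near Q R e e'`, so `vn (u e' - u e)` is bounded, i.e.
   `vn (sh Q γ (v + v') a - (sh Q γ v' a + sh Q γ v b))` is bounded (`u e' = u a + sh (v+v') a`,
   `u e = u b + sh v b = u a + sh v' a + sh v b`).
3. Hypothesis `H` with `w0 = 0`, `w1 = w`: `vn (sh Q γ v' a - l γ v' • w)` and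
   `vn (sh Q γ (v + v') a - l γ (v + v') • w)` are bounded (the constant contains
   `vn (sh Q γ v' (pt Q 0 1))` etc.).
4. Let `w' := u b = u a + sh Q γ v' a`; so `vn (w' - (1 + l γ v') • w)` is bounded. `b` is near
   `pt Q w' 1` (`NR` between `(w', 1)` and `(u b, g b)`: `mn (1⁻¹ * g b)` bounded, `near_of_NR`), so
   by `sh_near` `vn (sh Q γ v b - sh Q γ v (pt Q w' 1))` is bounded, and by `H`
   `vn (sh Q γ v (pt Q w' 1) - l γ v • w')` is bounded. Hence
   `vn (sh Q γ v b - (l γ v * (1 + l γ v')) • w)` is bounded.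
5. Together: `vn ((l γ (v + v') - l γ v' - l γ v * (1 + l γ v')) • w)` is bounded for all `w`, so the
   coefficient is `0` (take `w = ![n, 0]`).
-/

set_option autoImplicit false

namespace Pool.Agent.FQI

open Matrix

variable {Γ : Type} [Group Γ]

/-- Change of norm at `pt Q w 1`. -/
private theorem lamMul_change (Q : FibQI Γ) (w : V) (x : V) :
    vn x ≤ |R0 Q| * vn ((Q.g (pt Q w 1))⁻¹ *ᵥ x) := by
  have h1 := (pt_spec Q w 1 Matrix.det_one).1
  have h2 := vn_change (h := (1 : M2)) (abs_det_of_det (Q.det_g (pt Q w 1))) x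
  rw [inv_one, Matrix.one_mulVec] at h2
  rw [inv_one] at h1
  exact h2.trans (mul_le_mul_of_nonneg_right (h1.trans (le_abs_self _)) (vn_nonneg _))

/-- A real number whose multiples are bounded is zero. -/
private theorem lamMul_zero (c B : ℝ) (h : ∀ n : ℕ, |c| * n ≤ B) : c = 0 := by
  by_contra hc
  have hc' : 0 < |c| := abs_pos.mpr hc
  obtain ⟨n, hn⟩ := exists_nat_gt (B / |c|)
  rw [div_lt_iff₀ hc'] at hn
  have := h n
  linarith

theorem lam_mul (Q : FibQI Γ) (C : ℝ) (l : Γ → V → ℝ)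
    (H : ∀ γ v h, h.det = 1 → ∀ w0 w1 : V,
      vn (h⁻¹ *ᵥ (sh Q γ v (pt Q w1 h) - sh Q γ v (pt Q w0 h) - l γ v • (w1 - w0))) ≤ C)
    (γ : Γ) (v v' : V) :
    1 + l γ (v + v') = (1 + l γ v) * (1 + l γ v') := by
  have hdet : (1 : M2).det = 1 := Matrix.det_one
  obtain ⟨Rf, hRf⟩ := F_fib Q
  obtain ⟨Rc, hRc⟩ := F_comp Q
  set r := |R0 Q| with hr
  have hr0 : 0 ≤ r := abs_nonneg _
  have hRf0 : 0 ≤ Rf := (mn_nonneg _).trans (hRf 1 0 1)
  obtain ⟨Rn, hRn⟩ := near_of_NR Q (r * Rf)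
  obtain ⟨Rs, hRs⟩ := sh_near Q Rn
  -- the constants
  have hH : ∀ (v : V) (w : V), vn (sh Q γ v (pt Q w 1) - l γ v • w) ≤
      C + vn (sh Q γ v (pt Q 0 1)) := by
    intro v w
    have h4 := H γ v 1 hdet 0 w
    rw [inv_one, Matrix.one_mulVec, sub_zero] at h4
    have h6 : sh Q γ v (pt Q w 1) - l γ v • w =
        (sh Q γ v (pt Q w 1) - sh Q γ v (pt Q 0 1) - l γ v • w) + sh Q γ v (pt Q 0 1) := by
      abel
    rw [h6]
    exact (vn_add_le _ _).trans (by linarith)
  set K1 := r * Rf * Rf * |Rc| with hK1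
  set K2 := C + vn (sh Q γ v' (pt Q 0 1)) with hK2
  set K3 := C + vn (sh Q γ (v + v') (pt Q 0 1)) with hK3
  set K4 := r + K2 with hK4
  set K6 := r * |Rs| with hK6
  set K7 := C + vn (sh Q γ v (pt Q 0 1)) with hK7
  set K8 := K6 + K7 + |l γ v| * K4 with hK8
  have key : ∀ w : V, vn ((l γ (v + v') - l γ v' - l γ v * (1 + l γ v')) • w) ≤
      K3 + K1 + K2 + K8 := by
    intro w
    set a := pt Q w 1 with ha
    set b := F Q γ v' a with hb
    set e := F Q γ v b with he
    set e' := F Q γ (v + v') a with he'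
    have hga : mn (Q.g a) ≤ r := by
      have h1 := (pt_spec Q w 1 hdet).1
      rw [inv_one, Matrix.one_mul] at h1
      exact h1.trans (le_abs_self _)
    have hua : vn (Q.u a - w) ≤ r := by
      have h1 := (pt_spec Q w 1 hdet).2
      rw [inv_one, Matrix.one_mulVec] at h1
      exact h1.trans (le_abs_self _)
    have hgb : mn (Q.g b) ≤ r * Rf := by
      have h1 := mn_change (h := (1 : M2)) (h'' := Q.g b) (abs_det_of_det (Q.det_g a))
      rw [inv_one, Matrix.one_mul, Matrix.one_mul] at h1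
      exact h1.trans (mul_le_mul hga (hRf γ v' a) (mn_nonneg _) hr0)
    have hge : mn (Q.g e) ≤ r * Rf * Rf := by
      have h1 := mn_change (h := (1 : M2)) (h'' := Q.g e) (abs_det_of_det (Q.det_g b))
      rw [inv_one, Matrix.one_mul, Matrix.one_mul] at h1
      exact h1.trans (mul_le_mul hgb (hRf γ v b) (mn_nonneg _) (by positivity))
    -- step 2
    have s2 : vn (sh Q γ (v + v') a - sh Q γ v' a - sh Q γ v b) ≤ K1 := by
      have h1 := (hRc γ v v' a).2
      have h2 := vn_change (h := (1 : M2)) (abs_det_of_det (Q.det_g e)) (Q.u e' - Q.u e)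
      rw [inv_one, Matrix.one_mulVec, Matrix.one_mul] at h2
      have h3 : Q.u e' - Q.u e = sh Q γ (v + v') a - sh Q γ v' a - sh Q γ v b := by
        simp only [sh, ← hb, ← he, ← he']
        abel
      rw [← h3]
      exact h2.trans (mul_le_mul hge (h1.trans (le_abs_self _)) (vn_nonneg _) (by positivity))
    -- step 3
    have s3 := hH v' w
    have s3' := hH (v + v') w
    -- step 4
    have s4 : vn (Q.u b - (1 + l γ v') • w) ≤ K4 := by
      have h1 : Q.u b - (1 + l γ v') • w = (Q.u a - w) + (sh Q γ v' a - l γ v' • w) := by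
        simp only [sh, ← hb, add_smul, one_smul]
        abel
      rw [h1]
      exact (vn_add_le _ _).trans (add_le_add hua s3)
    have s5 : vn (sh Q γ v b - sh Q γ v (pt Q (Q.u b) 1)) ≤ K6 := by
      have h1 : NR (r * Rf) (Q.u b) 1 (Q.u b) (Q.g b) := by
        refine NR_of_mn ?_
        rw [inv_one, Matrix.one_mul]
        exact hgb
      have h2 := hRs γ v _ _ (hRn _ _ _ hdet h1)
      exact (lamMul_change Q (Q.u b) _).trans
        (mul_le_mul_of_nonneg_left (h2.trans (le_abs_self _)) hr0)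
    have s6 := hH v (Q.u b)
    have s7 : vn (sh Q γ v b - (l γ v * (1 + l γ v')) • w) ≤ K8 := by
      have h1 : sh Q γ v b - (l γ v * (1 + l γ v')) • w =
          (sh Q γ v b - sh Q γ v (pt Q (Q.u b) 1)) +
          (sh Q γ v (pt Q (Q.u b) 1) - l γ v • Q.u b) +
          l γ v • (Q.u b - (1 + l γ v') • w) := by
        rw [smul_sub, smul_smul]
        abel
      rw [h1]
      have h2 := vn_add_le ((sh Q γ v b - sh Q γ v (pt Q (Q.u b) 1)) +
          (sh Q γ v (pt Q (Q.u b) 1) - l γ v • Q.u b)) (l γ v • (Q.u b - (1 + l γ v') • w))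
      have h3 := vn_add_le (sh Q γ v b - sh Q γ v (pt Q (Q.u b) 1))
          (sh Q γ v (pt Q (Q.u b) 1) - l γ v • Q.u b)
      rw [vn_smul] at h2
      have h4 := mul_le_mul_of_nonneg_left s4 (abs_nonneg (l γ v))
      linarith
    have h1 : (l γ (v + v') - l γ v' - l γ v * (1 + l γ v')) • w =
        (sh Q γ (v + v') a - sh Q γ v' a - sh Q γ v b) -
        (sh Q γ (v + v') a - l γ (v + v') • w) + (sh Q γ v' a - l γ v' • w) +
        (sh Q γ v b - (l γ v * (1 + l γ v')) • w) := by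
      rw [sub_smul, sub_smul]
      abel
    rw [h1]
    have h2 := vn_add_le ((sh Q γ (v + v') a - sh Q γ v' a - sh Q γ v b) -
        (sh Q γ (v + v') a - l γ (v + v') • w) + (sh Q γ v' a - l γ v' • w))
        (sh Q γ v b - (l γ v * (1 + l γ v')) • w)
    have h3 := vn_add_le ((sh Q γ (v + v') a - sh Q γ v' a - sh Q γ v b) -
        (sh Q γ (v + v') a - l γ (v + v') • w)) (sh Q γ v' a - l γ v' • w)
    have h4 := vn_sub_le (sh Q γ (v + v') a - sh Q γ v' a - sh Q γ v b)
        (sh Q γ (v + v') a - l γ (v + v') • w)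
    linarith
  have h0 := lamMul_zero (l γ (v + v') - l γ v' - l γ v * (1 + l γ v')) (K3 + K1 + K2 + K8)
    fun n => by
      have h1 := key ![(n : ℝ), 0]
      rw [vn_smul] at h1
      have h2 : vn ![(n : ℝ), 0] = n := by simp [vn]
      rw [h2] at h1
      exact h1
  linarith

end Pool.Agent.FQI
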