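import Pool.Agent.FQI.ShFib
import Pool.Agent.FQI.Hyers

/-!
# The linear part of `F Q γ`

Proof of `lin_part`. Let `C0` be the constant of `sh_add`. Fix `γ`.
1. For every `a`, `φ_a v := (g a)⁻¹ *ᵥ sh Q γ v a` satisfies the hypothesis of `hyers` with `C0`
   (`Matrix.mulVec_sub`, `mulVec_add`), which gives an additive `A_a` with
   `vn (φ_a v - A_a v) ≤ C0`.
2. `A_a` is bounded near `0`: if `vn v ≤ 1 / mn ((g (γ⁻¹ * a))⁻¹)` (positive by `one_le_mn`), then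
   `vn ((g (γ⁻¹ * a))⁻¹ *ᵥ v) ≤ 1`, so by `sh_small Q 1`, `vn (φ_a v) ≤ R'` and
   `vn (A_a v) ≤ C0 + R'`. By `add_lin`, `A_a v = M_a *ᵥ v`.
3. `N_a := g a * M_a` satisfies `vn ((g a)⁻¹ *ᵥ (sh Q γ v a - N_a *ᵥ v)) ≤ C0` for all `v`.
   It does not depend on `a`: for `a`, `b`, `near Q R a b` for some `R` (take the maximum of the two
   numbers), so `sh_near` bounds `vn ((g a)⁻¹ *ᵥ (sh Q γ v b - sh Q γ v a))` uniformly in `v`; hence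
   `vn ((g a)⁻¹ *ᵥ ((N_a - N_b) *ᵥ v))` is bounded in `v` (change of norms by `vn_change`, with
   constants depending on `a`, `b`), so `(g a)⁻¹ * (N_a - N_b) = 0` by `eq_zero_of_bdd`, and
   `N_a = N_b`. Put `A γ := N_1`.
4. Second claim: for `vn v ≤ 1` put `v' := g (γ⁻¹ * a) *ᵥ v`; then
   `vn ((g (γ⁻¹ * a))⁻¹ *ᵥ v') = vn v ≤ 1`, so `vn ((g a)⁻¹ *ᵥ sh Q γ v' a) ≤ R'` and by 3
   `vn ((g a)⁻¹ *ᵥ (A γ *ᵥ v')) ≤ R' + C0`. Now `mn_le_of_vn` gives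
   `mn ((g a)⁻¹ * A γ * g (γ⁻¹ * a)) ≤ 2 * (R' + C0)`. The final constant is
   `max C0 (2 * (R' + C0))`.
-/

set_option autoImplicit false

namespace Pool.Agent.FQI

open Matrix

variable {Γ : Type} [Group Γ]

theorem lin_part (Q : FibQI Γ) :
    ∃ (A : Γ → M2) (C : ℝ),
      (∀ γ v a, vn ((Q.g a)⁻¹ *ᵥ (sh Q γ v a - A γ *ᵥ v)) ≤ C) ∧
      (∀ γ a, mn ((Q.g a)⁻¹ * A γ * Q.g (γ⁻¹ * a)) ≤ C) := by
  obtain ⟨C0, hC0⟩ := sh_add Q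
  obtain ⟨R', hR'⟩ := sh_small Q 1
  have hdet : ∀ a, |(Q.g a).det| = 1 := fun a => abs_det_of_det (Q.det_g a)
  have key : ∀ γ a, ∃ N : M2, ∀ v, vn ((Q.g a)⁻¹ *ᵥ (sh Q γ v a - N *ᵥ v)) ≤ C0 := by
    intro γ a
    obtain ⟨A, hA⟩ := hyers (fun v => (Q.g a)⁻¹ *ᵥ sh Q γ v a) C0 (by
      intro v w
      have := hC0 γ v w a
      rw [Matrix.mulVec_sub, Matrix.mulVec_sub] at this
      exact this)
    have hG : 1 ≤ mn (Q.g (γ⁻¹ * a))⁻¹ := one_le_mn (abs_det_inv (hdet _))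
    have hG0 : 0 < mn (Q.g (γ⁻¹ * a))⁻¹ := by linarith
    obtain ⟨M, hM⟩ := add_lin A (1 / mn (Q.g (γ⁻¹ * a))⁻¹) (R' + C0) (by positivity) (by
      intro v hv
      have h1 : vn ((Q.g (γ⁻¹ * a))⁻¹ *ᵥ v) ≤ 1 := by
        refine (vn_mulVec_le _ _).trans ?_
        calc mn (Q.g (γ⁻¹ * a))⁻¹ * vn v
            ≤ mn (Q.g (γ⁻¹ * a))⁻¹ * (1 / mn (Q.g (γ⁻¹ * a))⁻¹) :=
              mul_le_mul_of_nonneg_left hv hG0.le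
          _ = 1 := by field_simp
      have h2 := hR' γ v a h1
      have h3 := hA v
      have e : A v = (Q.g a)⁻¹ *ᵥ sh Q γ v a - ((Q.g a)⁻¹ *ᵥ sh Q γ v a - A v) := by abel
      rw [e]
      exact (vn_sub_le _ _).trans (add_le_add h2 h3))
    refine ⟨Q.g a * M, fun v => ?_⟩
    have e : (Q.g a)⁻¹ *ᵥ (sh Q γ v a - (Q.g a * M) *ᵥ v) =
        (Q.g a)⁻¹ *ᵥ sh Q γ v a - A v := by
      rw [Matrix.mulVec_sub, Matrix.mulVec_mulVec, ← Matrix.mul_assoc,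
        inv_mul_self_of (hdet a), Matrix.one_mul, hM]
    rw [e]
    exact hA v
  choose N hN using key
  have hind : ∀ γ a b, N γ a = N γ b := by
    intro γ a b
    obtain ⟨R1, h1⟩ := sh_near Q
      (max (mn ((Q.g a)⁻¹ * Q.g b)) (vn ((Q.g a)⁻¹ *ᵥ (Q.u b - Q.u a))))
    have h2 : ∀ v, vn ((Q.g a)⁻¹ *ᵥ (sh Q γ v b - sh Q γ v a)) ≤ R1 := fun v =>
      h1 γ v a b ⟨le_max_left _ _, le_max_right _ _⟩
    have h3 : (Q.g a)⁻¹ * (N γ a - N γ b) = 0 := by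
      refine eq_zero_of_bdd _ (mn ((Q.g a)⁻¹ * Q.g b) * C0 + C0 + R1) fun v => ?_
      have e : ((Q.g a)⁻¹ * (N γ a - N γ b)) *ᵥ v =
          (Q.g a)⁻¹ *ᵥ (sh Q γ v b - N γ b *ᵥ v) - (Q.g a)⁻¹ *ᵥ (sh Q γ v a - N γ a *ᵥ v) -
            (Q.g a)⁻¹ *ᵥ (sh Q γ v b - sh Q γ v a) := by
        rw [← Matrix.mulVec_mulVec, ← Matrix.mulVec_sub, ← Matrix.mulVec_sub, Matrix.sub_mulVec]
        congr 1
        abel
      rw [e]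
      have i1 := vn_sub_le ((Q.g a)⁻¹ *ᵥ (sh Q γ v b - N γ b *ᵥ v) -
        (Q.g a)⁻¹ *ᵥ (sh Q γ v a - N γ a *ᵥ v)) ((Q.g a)⁻¹ *ᵥ (sh Q γ v b - sh Q γ v a))
      have i2 := vn_sub_le ((Q.g a)⁻¹ *ᵥ (sh Q γ v b - N γ b *ᵥ v))
        ((Q.g a)⁻¹ *ᵥ (sh Q γ v a - N γ a *ᵥ v))
      have i3 := vn_change (h := Q.g a) (hdet b) (sh Q γ v b - N γ b *ᵥ v)
      have i4 := mul_le_mul_of_nonneg_left (hN γ b v) (mn_nonneg ((Q.g a)⁻¹ * Q.g b))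
      have i5 := hN γ a v
      have i6 := h2 v
      linarith
    have h4 : Q.g a * ((Q.g a)⁻¹ * (N γ a - N γ b)) = N γ a - N γ b := by
      rw [← Matrix.mul_assoc, mul_inv_self_of (hdet a), Matrix.one_mul]
    rw [h3, Matrix.mul_zero] at h4
    exact sub_eq_zero.1 h4.symm
  refine ⟨fun γ => N γ 1, max C0 (2 * (R' + C0)), fun γ v a => ?_, fun γ a => ?_⟩
  · change vn ((Q.g a)⁻¹ *ᵥ (sh Q γ v a - N γ 1 *ᵥ v)) ≤ _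
    rw [hind γ 1 a]
    exact (hN γ a v).trans (le_max_left _ _)
  · refine le_trans ?_ (le_max_right _ _)
    refine mn_le_of_vn _ _ fun v hv => ?_
    change vn (((Q.g a)⁻¹ * N γ 1 * Q.g (γ⁻¹ * a)) *ᵥ v) ≤ R' + C0
    rw [hind γ 1 a]
    have e : ((Q.g a)⁻¹ * N γ a * Q.g (γ⁻¹ * a)) *ᵥ v =
        (Q.g a)⁻¹ *ᵥ sh Q γ (Q.g (γ⁻¹ * a) *ᵥ v) a -
          (Q.g a)⁻¹ *ᵥ (sh Q γ (Q.g (γ⁻¹ * a) *ᵥ v) a - N γ a *ᵥ (Q.g (γ⁻¹ * a) *ᵥ v)) := by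
      rw [Matrix.mulVec_sub, sub_sub_cancel, Matrix.mulVec_mulVec, Matrix.mulVec_mulVec,
        Matrix.mul_assoc]
    rw [e]
    have h1 : vn ((Q.g (γ⁻¹ * a))⁻¹ *ᵥ (Q.g (γ⁻¹ * a) *ᵥ v)) ≤ 1 := by
      rw [Matrix.mulVec_mulVec, inv_mul_self_of (hdet _), Matrix.one_mulVec]
      exact hv
    exact (vn_sub_le _ _).trans (add_le_add (hR' γ _ a h1) (hN γ a _))

end Pool.Agent.FQI
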