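import Pool.Agent.FQI.Norm

/-!
# Bounded multiplicative functions on the plane are trivial

Proof. `μ (n • v) = μ v ^ n` for `n : ℕ`, so `|μ v| ≤ 1` (otherwise unbounded). Also
`μ v * μ (-v) = μ 0 = 1` and `|μ (-v)| ≤ 1`, so `|μ v| = 1`. Finally
`μ v = μ (v/2) ^ 2 ≥ 0`, so `μ v = 1`.
-/

set_option autoImplicit false

namespace Pool.Agent.FQI

open Matrix

private theorem mult_abs_le (μ : V → ℝ) (B : ℝ) (h0 : μ 0 = 1)
    (hm : ∀ v w, μ (v + w) = μ v * μ w) (hB : ∀ v, |μ v| ≤ B) (v : V) : |μ v| ≤ 1 := by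
  by_contra hcon
  push Not at hcon
  have hpow : ∀ n : ℕ, μ (n • v) = μ v ^ n := by
    intro n
    induction n with
    | zero => simp [h0]
    | succ n ih => rw [succ_nsmul, hm, ih, pow_succ]
  obtain ⟨n, hn⟩ := pow_unbounded_of_one_lt B hcon
  have := hB (n • v)
  rw [hpow n, abs_pow] at this
  linarith

theorem mult_one (μ : V → ℝ) (B : ℝ) (h0 : μ 0 = 1) (hm : ∀ v w, μ (v + w) = μ v * μ w)
    (hB : ∀ v, |μ v| ≤ B) (v : V) : μ v = 1 := by
  have h1 := mult_abs_le μ B h0 hm hB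
  have h2 : |μ v| * |μ (-v)| = 1 := by
    rw [← abs_mul, ← hm, add_neg_cancel, h0, abs_one]
  have h3 : |μ v| = 1 := by
    have a1 := h1 v
    have a2 := h1 (-v)
    have a3 := abs_nonneg (μ v)
    nlinarith [abs_nonneg (μ (-v))]
  have h4 : 0 ≤ μ v := by
    have h5 : μ v = μ ((1 / 2 : ℝ) • v) * μ ((1 / 2 : ℝ) • v) := by
      rw [← hm, ← add_smul]
      norm_num
    rw [h5]
    exact mul_self_nonneg _
  rwa [abs_of_nonneg h4] at h3

end Pool.Agent.FQI
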