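import Pool.Agent.FQI.Norm

/-!
# Closeness in `Γ`

Reading: `near Q R a b` is `NR R (u a) (g a) (u b) (g b)`; all `g a` have determinant `1`
(`Q.det_g`), so all lemmas `NR_symm`, `NR_trans`, `vn_change` of `Norm` apply.

Proofs.
* `near_left`. Given `R`, take `E` from `Q.c2 R`. For `s ∈ E` let `R_s` be the constant of `Q.c1 s`;
  `R' := ∑_{s ∈ E} |R_s|` (or a maximum over the finite set). If `near Q R a b`, then
  `s := a⁻¹ * b ∈ E`, `γ * b = (γ * a) * s`, so `near Q R_s (γ * a) (γ * b)` by `Q.c1`.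
* `near_of_NR`: if `(u a, g a)` is `R`-close to `(w, h)`: `pt_spec`, `NR_symm`, `NR_trans`.
* `near_pt`: `NR_symm (pt_spec ..)`, then the hypothesis, then `pt_spec`, with `NR_trans` twice
  (constants `R0*R0`, `R`, `R0`; they do not depend on the points).
* `near_vn`: `vn_change` with `mn ((g a)⁻¹ * g b) ≤ R`; the second inequality also uses
  `mn_inv_mul_comm`.
-/

set_option autoImplicit false

namespace Pool.Agent.FQI

open Matrix

variable {Γ : Type} [Group Γ]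

theorem near_mono (Q : FibQI Γ) {R R' : ℝ} (h : R ≤ R') {a b : Γ} (H : near Q R a b) :
    near Q R' a b := by
  exact NR_mono h H

theorem near_self (Q : FibQI Γ) (a : Γ) : near Q 2 a a := by
  apply NR_of_vn (le_refl _) (Q.det_g a)
  rw [sub_self, Matrix.mulVec_zero, vn_zero]
  norm_num

theorem near_symm (Q : FibQI Γ) {R : ℝ} {a b : Γ} (H : near Q R a b) : near Q (R * R) b a := by
  exact NR_symm (Q.det_g a) (Q.det_g b) H

theorem near_trans (Q : FibQI Γ) {R R' : ℝ} {a b c : Γ} (H : near Q R a b)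
    (H' : near Q R' b c) : near Q (R * R' + R) a c := by
  exact NR_trans (Q.det_g b) H H'

/-- Left translations of `Γ` are uniformly coarse. -/
theorem near_left (Q : FibQI Γ) (R : ℝ) :
    ∃ R' : ℝ, ∀ γ a b, near Q R a b → near Q R' (γ * a) (γ * b) := by
  classical
  obtain ⟨E, hE⟩ := Q.c2 R
  choose C hC using Q.c1
  refine ⟨∑ s ∈ E, |C s|, ?_⟩
  intro γ a b H
  have hs := hE a b H
  have h1 := hC (a⁻¹ * b) (γ * a)
  have e : γ * a * (a⁻¹ * b) = γ * b := by group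
  rw [e] at h1
  apply NR_mono _ h1
  calc C (a⁻¹ * b) ≤ |C (a⁻¹ * b)| := le_abs_self _
    _ ≤ ∑ s ∈ E, |C s| :=
        Finset.single_le_sum (f := fun s => |C s|) (fun s _ => abs_nonneg _) hs

theorem near_of_NR (Q : FibQI Γ) (R : ℝ) :
    ∃ R' : ℝ, ∀ w h a, h.det = 1 → NR R w h (Q.u a) (Q.g a) → near Q R' (pt Q w h) a := by
  refine ⟨R0 Q * R0 Q * R + R0 Q * R0 Q, ?_⟩
  intro w h a hdet H
  have h1 := pt_spec Q w h hdet
  have h2 := NR_symm hdet (Q.det_g _) h1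
  exact NR_trans hdet h2 H

theorem near_pt (Q : FibQI Γ) (R : ℝ) :
    ∃ R' : ℝ, ∀ w h w' h', h.det = 1 → h'.det = 1 → NR R w h w' h' →
      near Q R' (pt Q w h) (pt Q w' h') := by
  obtain ⟨R', hR'⟩ := near_of_NR Q (R * R0 Q + R)
  refine ⟨R', ?_⟩
  intro w h w' h' hdet hdet' H
  exact hR' w h (pt Q w' h') hdet (NR_trans hdet' H (pt_spec Q w' h' hdet'))

theorem near_vn (Q : FibQI Γ) {R : ℝ} {a b : Γ} (H : mn ((Q.g a)⁻¹ * Q.g b) ≤ R) (x : V) :
    vn ((Q.g a)⁻¹ *ᵥ x) ≤ R * vn ((Q.g b)⁻¹ *ᵥ x) ∧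
      vn ((Q.g b)⁻¹ *ᵥ x) ≤ R * vn ((Q.g a)⁻¹ *ᵥ x) := by
  have a' := abs_det_of_det (Q.det_g a)
  have b' := abs_det_of_det (Q.det_g b)
  constructor
  · exact (vn_change b' x).trans (mul_le_mul_of_nonneg_right H (vn_nonneg _))
  · rw [mn_inv_mul_comm a' b'] at H
    exact (vn_change a' x).trans (mul_le_mul_of_nonneg_right H (vn_nonneg _))

end Pool.Agent.FQI
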