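import Pool.Agent.FQI.QBasic

/-!
# Uniform bound for the number of points in a ball

Proof. `C` from `Q.q K`; `K' := max K (K + C)`, `N := ` the number of elements of the finite set of
`Q.fin K'`. For `c ∈ T`: `s := b⁻¹ * c`, `ρ s = (ρ b)⁻¹ * ρ c` (`rho_inv`), `mn (ρ s) ≤ K`;
`Q.q K` for `(b, s)`: `vn ((ρ b)⁻¹ (t c - t b) - t s) ≤ C`, so `vn (t s) ≤ K + C`. The map
`c ↦ b⁻¹ * c` is injective from `T` into the finite set.
-/

set_option autoImplicit false

namespace Pool.Agent.FQI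

open Matrix

variable {Γ : Type} [Group Γ]

theorem near_card (Q : QuasiCoc Γ) (K : ℝ) :
    ∃ N : ℕ, ∀ (b : Γ) (T : Finset Γ),
      (∀ c ∈ T, mn ((Q.ρ b)⁻¹ * Q.ρ c) ≤ K ∧ vn ((Q.ρ b)⁻¹ *ᵥ (Q.t c - Q.t b)) ≤ K) →
      T.card ≤ N := by
  classical
  obtain ⟨C, hC⟩ := Q.q K
  set K' := max K (K + C) with hK'
  have hfin := Q.fin K'
  refine ⟨hfin.toFinset.card, ?_⟩
  intro b T hT
  calc T.card = (T.image (fun c => b⁻¹ * c)).card := by
        rw [Finset.card_image_of_injective]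
        exact mul_right_injective _
    _ ≤ hfin.toFinset.card := by
        apply Finset.card_le_card
        intro s hs
        rw [Finset.mem_image] at hs
        obtain ⟨c, hc, rfl⟩ := hs
        obtain ⟨h1, h2⟩ := hT c hc
        have e : Q.ρ (b⁻¹ * c) = (Q.ρ b)⁻¹ * Q.ρ c := by rw [map_mul, rho_inv]
        rw [Set.Finite.mem_toFinset, Set.mem_ofPred_eq]
        have h3 : mn (Q.ρ (b⁻¹ * c)) ≤ K := by rw [e]; exact h1
        refine ⟨h3.trans (le_max_left _ _), ?_⟩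
        have h4 := hC b (b⁻¹ * c) h3
        rw [mul_inv_cancel_left] at h4
        have h5 : Q.t (b⁻¹ * c) = (Q.ρ b)⁻¹ *ᵥ (Q.t c - Q.t b) -
            ((Q.ρ b)⁻¹ *ᵥ (Q.t c - Q.t b) - Q.t (b⁻¹ * c)) := by abel
        rw [h5]
        exact ((vn_sub_le _ _).trans (add_le_add h2 h4)).trans (le_max_right _ _)

end Pool.Agent.FQI
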