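import Pool.Agent.FQI.DiscB

/-!
# Elements of `Γ` with `ρ` arbitrarily close to the identity

Proof. By `not_discrete` there is `R` with `X = {A | (∃ a, ρ a = A) ∧ mn A ≤ R}` infinite. `X` is a
bounded subset of `M2 = Fin 2 → Fin 2 → ℝ` (all entries `≤ R` in absolute value). For every `ε' > 0`
there are `A ≠ B` in `X` with `mn (A - B) ≤ ε'`: (pigeonhole: map `A` to the 4-tuple of integers
`⌊A i j / (ε'/4)⌋`, which lies in a finite set; or: an infinite subset of a compact set has an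
accumulation point). With `A = ρ a`, `B = ρ b`: `ρ (a⁻¹ * b) = (ρ a)⁻¹ * ρ b ≠ 1` and
`mn (ρ (a⁻¹ b) - 1) = mn ((ρ a)⁻¹ (ρ b - ρ a)) ≤ R * ε'`. Take `ε' = ε / (|R| + 1)`.
-/

set_option autoImplicit false

namespace Pool.Agent.FQI

open Matrix

variable {Γ : Type} [Group Γ]

theorem near_id (Q : QuasiCoc Γ) (ε : ℝ) (hε : 0 < ε) :
    ∃ a, Q.ρ a ≠ 1 ∧ mn (Q.ρ a - 1) ≤ ε := by
  obtain ⟨R, hR⟩ := not_discrete Q
  set δ : ℝ := ε / (|R| + 1) / 4 with hδ
  have hR1 : 0 < |R| + 1 := by positivity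
  have hδ0 : 0 < δ := by positivity
  set f : M2 → Fin 2 → Fin 2 → ℤ := fun A i j => ⌊A i j / δ⌋ with hf
  set T : Set (Fin 2 → Fin 2 → ℤ) :=
    Set.pi Set.univ fun _ => Set.pi Set.univ fun _ => Set.Icc ⌊-R / δ⌋ ⌊R / δ⌋ with hT
  have hTfin : T.Finite := Set.Finite.pi fun _ => Set.Finite.pi fun _ => Set.finite_Icc _ _
  have hmaps : Set.MapsTo f {A : M2 | (∃ a, Q.ρ a = A) ∧ mn A ≤ R} T := by
    rintro A ⟨_, hA⟩
    rw [hT]
    intro i _ j _
    have h1 := (abs_le_mn A i j).trans hA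
    obtain ⟨h2, h3⟩ := abs_le.1 h1
    constructor
    · exact Int.floor_le_floor (div_le_div_of_nonneg_right h2 hδ0.le)
    · exact Int.floor_le_floor (div_le_div_of_nonneg_right h3 hδ0.le)
  obtain ⟨A, ⟨⟨a, ha⟩, hAR⟩, B, ⟨⟨b, hb⟩, _⟩, hne, hAB⟩ :=
    Set.Infinite.exists_ne_map_eq_of_mapsTo hR hmaps hTfin
  have hent : ∀ i j, |B i j - A i j| ≤ δ := by
    intro i j
    have h1 : ⌊A i j / δ⌋ = ⌊B i j / δ⌋ := congrFun (congrFun hAB i) j
    have h2 := Int.abs_sub_lt_one_of_floor_eq_floor h1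
    have h3 : |B i j - A i j| = |A i j / δ - B i j / δ| * δ := by
      rw [← sub_div, abs_div, abs_of_pos hδ0, div_mul_cancel₀ _ hδ0.ne', abs_sub_comm]
    rw [h3]
    nlinarith
  have hmn : mn (B - A) ≤ 4 * δ := by
    unfold mn
    have h00 := hent 0 0
    have h01 := hent 0 1
    have h10 := hent 1 0
    have h11 := hent 1 1
    simp only [Matrix.sub_apply]
    linarith
  have hda := Q.det_ρ a
  have hinv : Q.ρ a⁻¹ = (Q.ρ a)⁻¹ := by
    symm
    apply Matrix.inv_eq_left_inv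
    rw [← map_mul, inv_mul_cancel, map_one]
  have hρ : Q.ρ (a⁻¹ * b) - 1 = (Q.ρ a)⁻¹ * (B - A) := by
    rw [map_mul, hinv, hb, Matrix.mul_sub, ← ha, inv_mul_self_of hda]
  refine ⟨a⁻¹ * b, ?_, ?_⟩
  · intro h
    apply hne
    rw [h, sub_self] at hρ
    have h1 : B - A = 0 := by
      have : B - A = Q.ρ a * ((Q.ρ a)⁻¹ * (B - A)) := by
        rw [← Matrix.mul_assoc, mul_inv_self_of hda, Matrix.one_mul]
      rw [this, ← hρ, Matrix.mul_zero]
    exact (sub_eq_zero.1 h1).symm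
  · rw [hρ]
    have h1 := mn_mul_le (Q.ρ a)⁻¹ (B - A)
    rw [mn_inv hda, ha] at h1
    have hR0 : 0 ≤ R := (mn_nonneg A).trans hAR
    have h2 : mn A * mn (B - A) ≤ R * (4 * δ) :=
      mul_le_mul hAR hmn (mn_nonneg _) hR0
    have h3 : R * (4 * δ) ≤ ε := by
      rw [hδ]
      have h4 : R * (4 * (ε / (|R| + 1) / 4)) = R / (|R| + 1) * ε := by
        field_simp
      rw [h4]
      have h5 : R / (|R| + 1) ≤ 1 := by
        rw [div_le_one hR1]
        have := le_abs_self R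
        linarith
      nlinarith
    rw [ha]
    linarith

end Pool.Agent.FQI
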