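import Pool.Agent.FQI.Defs

/-!
# Elementary facts about the norms `mn` and `vn`, and about `NR`
-/

set_option autoImplicit false

namespace Pool.Agent.FQI

open Matrix

theorem vn_nonneg (v : V) : 0 ≤ vn v := by unfold vn; positivity

theorem mn_nonneg (A : M2) : 0 ≤ mn A := by unfold mn; positivity

theorem vn_zero : vn 0 = 0 := by simp [vn]

theorem mn_zero : mn 0 = 0 := by simp [mn]

theorem mn_one : mn 1 = 2 := by simp [mn]; norm_num

theorem vn_neg (v : V) : vn (-v) = vn v := by simp [vn]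

theorem mn_neg (A : M2) : mn (-A) = mn A := by simp [mn]

theorem vn_smul (c : ℝ) (v : V) : vn (c • v) = |c| * vn v := by
  simp [vn, abs_mul]; ring

theorem mn_smul (c : ℝ) (A : M2) : mn (c • A) = |c| * mn A := by
  simp [mn, abs_mul]; ring

theorem vn_add_le (v w : V) : vn (v + w) ≤ vn v + vn w := by
  unfold vn
  have h0 := abs_add_le (v 0) (w 0)
  have h1 := abs_add_le (v 1) (w 1)
  simp only [Pi.add_apply]
  linarith

theorem vn_sub_le (v w : V) : vn (v - w) ≤ vn v + vn w := by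
  rw [sub_eq_add_neg]
  exact (vn_add_le v (-w)).trans (by rw [vn_neg])

theorem vn_sub_comm (v w : V) : vn (v - w) = vn (w - v) := by
  rw [← vn_neg, neg_sub]

theorem vn_sub_le' (x y z : V) : vn (x - z) ≤ vn (x - y) + vn (y - z) := by
  have e : x - z = (x - y) + (y - z) := by abel
  rw [e]
  exact vn_add_le _ _

theorem mn_add_le (A B : M2) : mn (A + B) ≤ mn A + mn B := by
  unfold mn
  have h0 := abs_add_le (A 0 0) (B 0 0)
  have h1 := abs_add_le (A 0 1) (B 0 1)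
  have h2 := abs_add_le (A 1 0) (B 1 0)
  have h3 := abs_add_le (A 1 1) (B 1 1)
  simp only [Matrix.add_apply]
  linarith

theorem mn_sub_le (A B : M2) : mn (A - B) ≤ mn A + mn B := by
  rw [sub_eq_add_neg]
  exact (mn_add_le A (-B)).trans (by rw [mn_neg])

theorem mn_sub_comm (A B : M2) : mn (A - B) = mn (B - A) := by
  rw [← mn_neg, neg_sub]

theorem vn_eq_zero {v : V} (h : vn v = 0) : v = 0 := by
  unfold vn at h
  have h0 := abs_nonneg (v 0)
  have h1 := abs_nonneg (v 1)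
  have e0 : v 0 = 0 := abs_eq_zero.mp (by linarith)
  have e1 : v 1 = 0 := abs_eq_zero.mp (by linarith)
  ext i
  fin_cases i
  · exact e0
  · exact e1

theorem mn_eq_zero {A : M2} (h : mn A = 0) : A = 0 := by
  unfold mn at h
  have h0 := abs_nonneg (A 0 0)
  have h1 := abs_nonneg (A 0 1)
  have h2 := abs_nonneg (A 1 0)
  have h3 := abs_nonneg (A 1 1)
  have e0 : A 0 0 = 0 := abs_eq_zero.mp (by linarith)
  have e1 : A 0 1 = 0 := abs_eq_zero.mp (by linarith)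
  have e2 : A 1 0 = 0 := abs_eq_zero.mp (by linarith)
  have e3 : A 1 1 = 0 := abs_eq_zero.mp (by linarith)
  ext i j
  fin_cases i <;> fin_cases j
  · exact e0
  · exact e1
  · exact e2
  · exact e3

theorem abs_le_vn (v : V) (i : Fin 2) : |v i| ≤ vn v := by
  unfold vn
  have h0 := abs_nonneg (v 0)
  have h1 := abs_nonneg (v 1)
  fin_cases i
  · show |v 0| ≤ _
    linarith
  · show |v 1| ≤ _
    linarith

theorem abs_le_mn (A : M2) (i j : Fin 2) : |A i j| ≤ mn A := by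
  unfold mn
  have h0 := abs_nonneg (A 0 0)
  have h1 := abs_nonneg (A 0 1)
  have h2 := abs_nonneg (A 1 0)
  have h3 := abs_nonneg (A 1 1)
  fin_cases i <;> fin_cases j
  · show |A 0 0| ≤ _
    linarith
  · show |A 0 1| ≤ _
    linarith
  · show |A 1 0| ≤ _
    linarith
  · show |A 1 1| ≤ _
    linarith

theorem vn_mulVec_le (A : M2) (v : V) : vn (A *ᵥ v) ≤ mn A * vn v := by
  have e0 : (A *ᵥ v) 0 = A 0 0 * v 0 + A 0 1 * v 1 := by
    simp [Matrix.mulVec, dotProduct, Fin.sum_univ_two]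
  have e1 : (A *ᵥ v) 1 = A 1 0 * v 0 + A 1 1 * v 1 := by
    simp [Matrix.mulVec, dotProduct, Fin.sum_univ_two]
  unfold vn mn
  rw [e0, e1]
  have h0 := abs_add_le (A 0 0 * v 0) (A 0 1 * v 1)
  have h1 := abs_add_le (A 1 0 * v 0) (A 1 1 * v 1)
  rw [abs_mul, abs_mul] at h0 h1
  have a := abs_nonneg (A 0 0)
  have b := abs_nonneg (A 0 1)
  have c := abs_nonneg (A 1 0)
  have d := abs_nonneg (A 1 1)
  have x := abs_nonneg (v 0)
  have y := abs_nonneg (v 1)
  nlinarith [mul_nonneg a y, mul_nonneg b x, mul_nonneg c y, mul_nonneg d x]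

theorem mn_mul_le (A B : M2) : mn (A * B) ≤ mn A * mn B := by
  have e : ∀ i j, (A * B) i j = A i 0 * B 0 j + A i 1 * B 1 j := by
    intro i j; simp [Matrix.mul_apply, Fin.sum_univ_two]
  unfold mn
  rw [e, e, e, e]
  have h0 := abs_add_le (A 0 0 * B 0 0) (A 0 1 * B 1 0)
  have h1 := abs_add_le (A 0 0 * B 0 1) (A 0 1 * B 1 1)
  have h2 := abs_add_le (A 1 0 * B 0 0) (A 1 1 * B 1 0)
  have h3 := abs_add_le (A 1 0 * B 0 1) (A 1 1 * B 1 1)
  rw [abs_mul, abs_mul] at h0 h1 h2 h3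
  have a := abs_nonneg (A 0 0)
  have b := abs_nonneg (A 0 1)
  have c := abs_nonneg (A 1 0)
  have d := abs_nonneg (A 1 1)
  have x := abs_nonneg (B 0 0)
  have y := abs_nonneg (B 0 1)
  have z := abs_nonneg (B 1 0)
  have w := abs_nonneg (B 1 1)
  nlinarith [mul_nonneg a z, mul_nonneg a w, mul_nonneg b x, mul_nonneg b y,
    mul_nonneg c z, mul_nonneg c w, mul_nonneg d x, mul_nonneg d y]

/-- `|det| = 1` implies `det ≠ 0`. -/
theorem isUnit_of_abs {A : M2} (h : |A.det| = 1) : IsUnit A.det := by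
  rw [isUnit_iff_ne_zero]
  intro h0
  rw [h0, abs_zero] at h
  exact zero_ne_one h

theorem isUnit_of_det {A : M2} (h : A.det = 1) : IsUnit A.det := by rw [h]; exact isUnit_one

theorem abs_det_of_det {A : M2} (h : A.det = 1) : |A.det| = 1 := by rw [h, abs_one]

theorem inv_mul_self_of {A : M2} (h : |A.det| = 1) : A⁻¹ * A = 1 :=
  Matrix.nonsing_inv_mul A (isUnit_of_abs h)

theorem mul_inv_self_of {A : M2} (h : |A.det| = 1) : A * A⁻¹ = 1 :=
  Matrix.mul_nonsing_inv A (isUnit_of_abs h)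

theorem inv_inv_of {A : M2} (h : |A.det| = 1) : (A⁻¹)⁻¹ = A :=
  Matrix.nonsing_inv_nonsing_inv A (isUnit_of_abs h)

theorem abs_det_inv {A : M2} (h : |A.det| = 1) : |(A⁻¹).det| = 1 := by
  rw [Matrix.det_nonsing_inv, Ring.inverse_eq_inv', abs_inv, h, inv_one]

theorem det_inv_of {A : M2} (h : A.det = 1) : (A⁻¹).det = 1 := by
  rw [Matrix.det_nonsing_inv, h, Ring.inverse_one]

theorem abs_det_mul {A B : M2} (hA : |A.det| = 1) (hB : |B.det| = 1) : |(A * B).det| = 1 := by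
  rw [Matrix.det_mul, abs_mul, hA, hB, one_mul]

theorem mn_inv {A : M2} (h : |A.det| = 1) : mn A⁻¹ = mn A := by
  have hd : |A.det⁻¹| = 1 := by rw [abs_inv, h, inv_one]
  have e : A⁻¹ = A.det⁻¹ • A.adjugate := by
    rw [Matrix.inv_def, Ring.inverse_eq_inv']
  rw [e, mn_smul, hd, one_mul, Matrix.adjugate_fin_two]
  simp [mn]
  ring

theorem mn_inv' {A : M2} (h : A.det = 1) : mn A⁻¹ = mn A := mn_inv (abs_det_of_det h)

theorem abs_det_le_mn (A : M2) : |A.det| ≤ mn A * mn A := by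
  rw [Matrix.det_fin_two]
  have h0 := abs_sub (A 0 0 * A 1 1) (A 0 1 * A 1 0)
  rw [abs_mul, abs_mul] at h0
  have a := abs_nonneg (A 0 0)
  have b := abs_nonneg (A 0 1)
  have c := abs_nonneg (A 1 0)
  have d := abs_nonneg (A 1 1)
  unfold mn
  nlinarith [mul_nonneg a b, mul_nonneg a c, mul_nonneg a d, mul_nonneg b c, mul_nonneg b d,
    mul_nonneg c d]

theorem one_le_mn {A : M2} (h : |A.det| = 1) : 1 ≤ mn A := by
  have h1 := abs_det_le_mn A
  rw [h] at h1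
  have h2 := mn_nonneg A
  nlinarith

theorem one_le_mn' {A : M2} (h : A.det = 1) : 1 ≤ mn A := one_le_mn (abs_det_of_det h)

/-- `vn (h⁻¹ x) ≤ mn (h⁻¹ h') * vn (h'⁻¹ x)`: change of norms. -/
theorem vn_change {h h' : M2} (H' : |h'.det| = 1) (x : V) :
    vn (h⁻¹ *ᵥ x) ≤ mn (h⁻¹ * h') * vn (h'⁻¹ *ᵥ x) := by
  have e : h⁻¹ *ᵥ x = (h⁻¹ * h') *ᵥ (h'⁻¹ *ᵥ x) := by
    rw [Matrix.mulVec_mulVec, Matrix.mul_assoc, mul_inv_self_of H', Matrix.mul_one]
  rw [e]
  exact vn_mulVec_le _ _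

/-- `mn (h⁻¹ h') = mn (h'⁻¹ h)`. -/
theorem mn_inv_mul_comm {h h' : M2} (H : |h.det| = 1) (H' : |h'.det| = 1) :
    mn (h⁻¹ * h') = mn (h'⁻¹ * h) := by
  have e : (h⁻¹ * h')⁻¹ = h'⁻¹ * h := by
    rw [Matrix.mul_inv_rev, inv_inv_of H]
  rw [← e, mn_inv (abs_det_mul (abs_det_inv H) H')]

/-- `mn (h⁻¹ h'') ≤ mn (h⁻¹ h') * mn (h'⁻¹ h'')`. -/
theorem mn_change {h h' h'' : M2} (H' : |h'.det| = 1) :
    mn (h⁻¹ * h'') ≤ mn (h⁻¹ * h') * mn (h'⁻¹ * h'') := by
  have e : h⁻¹ * h'' = (h⁻¹ * h') * (h'⁻¹ * h'') := by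
    rw [Matrix.mul_assoc, ← Matrix.mul_assoc h' h'⁻¹, mul_inv_self_of H', Matrix.one_mul]
  rw [e]
  exact mn_mul_le _ _

/-- `1 ≤ mn (h⁻¹ h')`. -/
theorem one_le_mn_inv_mul {h h' : M2} (H : |h.det| = 1) (H' : |h'.det| = 1) :
    1 ≤ mn (h⁻¹ * h') := one_le_mn (abs_det_mul (abs_det_inv H) H')

theorem NR_mono {R R' : ℝ} (hR : R ≤ R') {w w' : V} {h h' : M2} (H : NR R w h w' h') :
    NR R' w h w' h' := ⟨H.1.trans hR, H.2.trans hR⟩

theorem NR_nonneg {R : ℝ} {w w' : V} {h h' : M2} (H : NR R w h w' h') : 0 ≤ R :=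
  (mn_nonneg _).trans H.1

theorem NR_symm {R : ℝ} {w w' : V} {h h' : M2} (Hh : h.det = 1) (Hh' : h'.det = 1)
    (H : NR R w h w' h') : NR (R * R) w' h' w h := by
  have a := abs_det_of_det Hh
  have a' := abs_det_of_det Hh'
  have h1 := one_le_mn_inv_mul a a'
  have hR : 1 ≤ R := h1.trans H.1
  have e := mn_inv_mul_comm a a'
  have hm : mn (h'⁻¹ * h) ≤ R := by rw [← e]; exact H.1
  refine ⟨hm.trans (by nlinarith), ?_⟩
  have h2 := vn_change (h := h') (h' := h) a (w - w')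
  have h3 : vn (h⁻¹ *ᵥ (w - w')) ≤ R := by
    have : h⁻¹ *ᵥ (w - w') = -(h⁻¹ *ᵥ (w' - w)) := by
      rw [← Matrix.mulVec_neg, neg_sub]
    rw [this, vn_neg]
    exact H.2
  exact h2.trans (mul_le_mul hm h3 (vn_nonneg _) (by linarith))

theorem NR_trans {R R' : ℝ} {w w' w'' : V} {h h' h'' : M2} (Hh' : h'.det = 1)
    (H : NR R w h w' h') (H' : NR R' w' h' w'' h'') :
    NR (R * R' + R) w h w'' h'' := by
  have a' := abs_det_of_det Hh'
  have hR := NR_nonneg H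
  have hR' := NR_nonneg H'
  constructor
  · have h1 := mn_change (h := h) (h'' := h'') a'
    have h2 := mul_le_mul H.1 H'.1 (mn_nonneg _) hR
    linarith
  · have e : h⁻¹ *ᵥ (w'' - w) = h⁻¹ *ᵥ (w'' - w') + h⁻¹ *ᵥ (w' - w) := by
      rw [← Matrix.mulVec_add]; congr 1; abel
    rw [e]
    have h1 := vn_change (h := h) (h' := h') a' (w'' - w')
    have h2 := mul_le_mul H.1 H'.2 (vn_nonneg _) hR
    have h3 := vn_add_le (h⁻¹ *ᵥ (w'' - w')) (h⁻¹ *ᵥ (w' - w))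
    have h4 := H.2
    linarith

theorem NR_shift {R : ℝ} {w w' : V} {h h' : M2} (v : V) (H : NR R w h w' h') :
    NR R (w + v) h (w' + v) h' := by
  refine ⟨H.1, ?_⟩
  have e : w' + v - (w + v) = w' - w := by abel
  rw [e]
  exact H.2

/-- `NR` for equal matrices. -/
theorem NR_of_vn {R : ℝ} (hR : 2 ≤ R) {w w' : V} {h : M2} (Hh : h.det = 1)
    (H : vn (h⁻¹ *ᵥ (w' - w)) ≤ R) : NR R w h w' h := by
  refine ⟨?_, H⟩
  rw [inv_mul_self_of (abs_det_of_det Hh), mn_one]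
  exact hR

/-- `NR` for equal vectors. -/
theorem NR_of_mn {R : ℝ} {w : V} {h h' : M2} (H : mn (h⁻¹ * h') ≤ R) : NR R w h w h' := by
  refine ⟨H, ?_⟩
  rw [sub_self, Matrix.mulVec_zero, vn_zero]
  exact (mn_nonneg _).trans H

end Pool.Agent.FQI
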