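import Pool.Agent.FQI.Norm

/-!
# Basic facts about `QuasiCoc`

Proofs.
* `rho_inv`: `ρ (a⁻¹) * ρ a = ρ 1 = 1`, `Matrix.inv_eq_left_inv` (take the inverse on the correct
  side).
* `t_mul`: from `Q.q R` (for `s`): `t (a * s) - t a - ρ a (t s) = ρ a ((ρ a)⁻¹ (t (a * s) - t a) - t s)`
  has `vn ≤ mn (ρ a) * C ≤ |R| * |C|`.
* `t_inv`: `t_mul` for `a = b⁻¹`, `s = b` (`mn (ρ b⁻¹) = mn (ρ b)` by `mn_inv`):
  `vn (t 1 - t b⁻¹ - ρ b⁻¹ (t b)) ≤ C`.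
* `expand`: let `R` be the constant of `Q.cob` (`R ≥ 1`: `one_le_mn`). Given `δ ≠ 0` and `M`. There is
  `h` with `det h = 1` and `vn (h⁻¹ *ᵥ δ) ≥ R * (|M| + 1)`: if `δ 0 ≠ 0` take `h = diag(1/T, T)`,
  `h⁻¹ = diag(T, 1/T)`, `vn (h⁻¹ δ) ≥ T |δ 0|`, `T` large; otherwise `δ 1 ≠ 0`, `h = diag(T, 1/T)`.
  Choose `b` with `NR R 0 h (t b) (ρ b)`: `mn (h⁻¹ * ρ b) ≤ R`. Then
  `vn (h⁻¹ δ) = vn ((h⁻¹ * ρ b) ((ρ b)⁻¹ δ)) ≤ R * vn ((ρ b)⁻¹ δ)`; take `a = b⁻¹`.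
* `shrink`: the same with `h⁻¹ δ` small, `vn ((ρ b)⁻¹ δ) ≤ mn ((ρ b)⁻¹ * h) * vn (h⁻¹ δ)
  ≤ R * vn (h⁻¹ δ)` (`mn_inv_mul_comm`). `h` with `det h = 1` and `vn (h⁻¹ δ)` small: if `δ = 0`
  anything; otherwise first find `m` with `det m = 1`, `m δ = (r, 0)` (a rotation: transpose of
  `exists_rot`-type matrix `!![p, q; -q, p]`, `p = δ 0 / r`, `q = δ 1 / r`), then
  `h⁻¹ = diag(1/T, T) * m`, `h = m⁻¹ * diag(T, 1/T)`, `vn (h⁻¹ δ) = r / T`.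
-/

set_option autoImplicit false

namespace Pool.Agent.FQI

open Matrix

variable {Γ : Type} [Group Γ]

theorem rho_inv (Q : QuasiCoc Γ) (a : Γ) : Q.ρ a⁻¹ = (Q.ρ a)⁻¹ := by
  symm
  apply Matrix.inv_eq_left_inv
  rw [← map_mul, inv_mul_cancel, map_one]

theorem t_mul (Q : QuasiCoc Γ) (R : ℝ) :
    ∃ C : ℝ, ∀ a s, mn (Q.ρ a) ≤ R → mn (Q.ρ s) ≤ R →
      vn (Q.t (a * s) - Q.t a - Q.ρ a *ᵥ Q.t s) ≤ C := by
  obtain ⟨C, hC⟩ := Q.q R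
  refine ⟨R * C, fun a s ha hs => ?_⟩
  have h1 := hC a s hs
  have e : Q.t (a * s) - Q.t a - Q.ρ a *ᵥ Q.t s
      = Q.ρ a *ᵥ ((Q.ρ a)⁻¹ *ᵥ (Q.t (a * s) - Q.t a) - Q.t s) := by
    rw [Matrix.mulVec_sub, Matrix.mulVec_mulVec, mul_inv_self_of (Q.det_ρ a), Matrix.one_mulVec]
  rw [e]
  have h2 := vn_mulVec_le (Q.ρ a) ((Q.ρ a)⁻¹ *ᵥ (Q.t (a * s) - Q.t a) - Q.t s)
  have hR : 0 ≤ R := (mn_nonneg _).trans ha
  exact h2.trans (mul_le_mul ha h1 (vn_nonneg _) hR)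

theorem t_inv (Q : QuasiCoc Γ) (R : ℝ) :
    ∃ C : ℝ, ∀ b, mn (Q.ρ b) ≤ R → vn (Q.t b⁻¹ + (Q.ρ b)⁻¹ *ᵥ Q.t b) ≤ C := by
  obtain ⟨C, hC⟩ := t_mul Q R
  refine ⟨C + vn (Q.t 1), fun b hb => ?_⟩
  have hb' : mn (Q.ρ b⁻¹) ≤ R := by
    rw [rho_inv, mn_inv (Q.det_ρ b)]; exact hb
  have h1 := hC b⁻¹ b hb' hb
  rw [inv_mul_cancel, rho_inv] at h1
  have e : Q.t b⁻¹ + (Q.ρ b)⁻¹ *ᵥ Q.t b
      = Q.t 1 - (Q.t 1 - Q.t b⁻¹ - (Q.ρ b)⁻¹ *ᵥ Q.t b) := by abel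
  rw [e]
  have h2 := vn_sub_le (Q.t 1) (Q.t 1 - Q.t b⁻¹ - (Q.ρ b)⁻¹ *ᵥ Q.t b)
  linarith

private theorem qb_diag (T : ℝ) (hT : T ≠ 0) (a b : ℝ) :
    (!![T⁻¹, 0; 0, T] : M2).det = 1 ∧ (!![T⁻¹, 0; 0, T] : M2)⁻¹ = !![T, 0; 0, T⁻¹] ∧
    (!![T, 0; 0, T⁻¹] : M2) *ᵥ ![a, b] = ![T * a, T⁻¹ * b] := by
  refine ⟨?_, ?_, ?_⟩
  · rw [Matrix.det_fin_two_of]; field_simp; ring
  · apply Matrix.inv_eq_left_inv
    rw [Matrix.mul_fin_two]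
    ext i j
    fin_cases i <;> fin_cases j <;> simp [hT]
  · ext i
    fin_cases i <;> simp [Matrix.mulVec, dotProduct, Fin.sum_univ_two]

theorem expand (Q : QuasiCoc Γ) (δ : V) (hδ : δ ≠ 0) (M : ℝ) : ∃ a, M < vn (Q.ρ a *ᵥ δ) := by
  obtain ⟨R, hR⟩ := Q.cob
  -- `h` with `det h = 1` and `vn (h⁻¹ δ)` large
  have key : ∃ h : M2, h.det = 1 ∧ (|R| + 1) * (|M| + 1) ≤ vn (h⁻¹ *ᵥ δ) := by
    have hB : 0 < (|R| + 1) * (|M| + 1) := by positivity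
    set B := (|R| + 1) * (|M| + 1) with hBdef
    have hδe : δ = ![δ 0, δ 1] := by
      ext i; fin_cases i <;> rfl
    by_cases h0 : δ 0 = 0
    · have h1 : δ 1 ≠ 0 := by
        intro h1
        apply hδ
        ext i; fin_cases i
        · exact h0
        · exact h1
      have h1' : 0 < |δ 1| := abs_pos.mpr h1
      set T := |δ 1| / B with hTdef
      have hT : 0 < T := by positivity
      obtain ⟨d1, d2, d3⟩ := qb_diag T (ne_of_gt hT) (δ 0) (δ 1)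
      refine ⟨_, d1, ?_⟩
      rw [d2, hδe, d3]
      unfold vn
      simp only [Matrix.cons_val_zero, Matrix.cons_val_one]
      have e : |T⁻¹ * δ 1| = B := by
        rw [abs_mul, abs_of_pos (inv_pos.mpr hT), hTdef]
        field_simp
      rw [e]
      have := abs_nonneg (T * δ 0)
      linarith
    · have h1' : 0 < |δ 0| := abs_pos.mpr h0
      set T := B / |δ 0| with hTdef
      have hT : 0 < T := by positivity
      obtain ⟨d1, d2, d3⟩ := qb_diag T (ne_of_gt hT) (δ 0) (δ 1)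
      refine ⟨_, d1, ?_⟩
      rw [d2, hδe, d3]
      unfold vn
      simp only [Matrix.cons_val_zero, Matrix.cons_val_one]
      have e : |T * δ 0| = B := by
        rw [abs_mul, abs_of_pos hT, hTdef]
        field_simp
      rw [e]
      have := abs_nonneg (T⁻¹ * δ 1)
      linarith
  obtain ⟨h, hh, hB⟩ := key
  obtain ⟨b, hb1, -⟩ := hR 0 h hh
  refine ⟨b⁻¹, ?_⟩
  rw [rho_inv]
  have h1 := vn_change (h := h) (h' := Q.ρ b) (Q.det_ρ b) δ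
  have hv := vn_nonneg ((Q.ρ b)⁻¹ *ᵥ δ)
  have h2 : mn (h⁻¹ * Q.ρ b) * vn ((Q.ρ b)⁻¹ *ᵥ δ) ≤ (|R| + 1) * vn ((Q.ρ b)⁻¹ *ᵥ δ) := by
    apply mul_le_mul_of_nonneg_right _ hv
    have := le_abs_self R
    linarith
  have h3 : (|R| + 1) * (|M| + 1) ≤ (|R| + 1) * vn ((Q.ρ b)⁻¹ *ᵥ δ) := by linarith
  have h4 : |M| + 1 ≤ vn ((Q.ρ b)⁻¹ *ᵥ δ) := le_of_mul_le_mul_left h3 (by positivity)
  have := le_abs_self M
  linarith

theorem shrink (Q : QuasiCoc Γ) (δ : V) (ε : ℝ) (hε : 0 < ε) : ∃ a, vn (Q.ρ a *ᵥ δ) < ε := by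
  by_cases hδ : δ = 0
  · refine ⟨1, ?_⟩
    rw [hδ, Matrix.mulVec_zero, vn_zero]
    exact hε
  obtain ⟨R, hR⟩ := Q.cob
  have key : ∃ h : M2, h.det = 1 ∧ (|R| + 1) * vn (h⁻¹ *ᵥ δ) ≤ ε / 2 := by
    set s := δ 0 ^ 2 + δ 1 ^ 2 with hs
    have hs0 : 0 < s := by
      by_contra hcon
      apply hδ
      have ha : δ 0 = 0 := by nlinarith [sq_nonneg (δ 0), sq_nonneg (δ 1)]
      have hb : δ 1 = 0 := by nlinarith [sq_nonneg (δ 0), sq_nonneg (δ 1)]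
      ext i; fin_cases i
      · exact ha
      · exact hb
    set e := ε / (2 * (|R| + 1)) with he
    have he0 : 0 < e := by positivity
    -- `g = h⁻¹` sends `δ` to `(e, 0)`
    refine ⟨!![δ 0 / e, -(e * δ 1 / s); δ 1 / e, e * δ 0 / s], ?_, ?_⟩
    · rw [Matrix.det_fin_two_of]
      field_simp
      rw [hs]; ring
    · have hinv : (!![δ 0 / e, -(e * δ 1 / s); δ 1 / e, e * δ 0 / s] : M2)⁻¹
          = !![e * δ 0 / s, e * δ 1 / s; -(δ 1 / e), δ 0 / e] := by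
        apply Matrix.inv_eq_left_inv
        rw [Matrix.mul_fin_two]
        ext i j
        fin_cases i <;> fin_cases j
        · simp; field_simp; rw [hs]
        · simp; field_simp; ring
        · simp; field_simp; ring
        · simp; field_simp; rw [hs]; ring
      have hv : (!![e * δ 0 / s, e * δ 1 / s; -(δ 1 / e), δ 0 / e] : M2) *ᵥ δ = ![e, 0] := by
        ext i
        fin_cases i
        · simp [Matrix.mulVec, dotProduct, Fin.sum_univ_two]; field_simp; rw [hs]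
        · simp [Matrix.mulVec, dotProduct, Fin.sum_univ_two]; field_simp; ring
      rw [hinv, hv]
      have : vn ![e, 0] = e := by
        unfold vn
        simp [abs_of_pos he0]
      rw [this, he]
      apply le_of_eq
      field_simp
  obtain ⟨h, hh, hB⟩ := key
  obtain ⟨b, hb1, -⟩ := hR 0 h hh
  refine ⟨b⁻¹, ?_⟩
  rw [rho_inv]
  have h1 := vn_change (h := Q.ρ b) (h' := h) (abs_det_of_det hh) δ
  rw [mn_inv_mul_comm (Q.det_ρ b) (abs_det_of_det hh)] at h1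
  have hv := vn_nonneg (h⁻¹ *ᵥ δ)
  have h2 : mn (h⁻¹ * Q.ρ b) * vn (h⁻¹ *ᵥ δ) ≤ (|R| + 1) * vn (h⁻¹ *ᵥ δ) := by
    apply mul_le_mul_of_nonneg_right _ hv
    have := le_abs_self R
    linarith
  linarith

end Pool.Agent.FQI
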