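import Pool.Agent.FQI.LinPart
import Pool.Agent.FQI.HomA
import Pool.Agent.FQI.AsmQ

/-!
# From `FibQI` to `QuasiCoc` (complete, assembled by helper55)
-/

set_option autoImplicit false

namespace Pool.Agent.FQI

open Matrix

variable {Γ : Type} [Group Γ]

theorem quasiCoc_of_fibQI (Q : FibQI Γ) : Nonempty (QuasiCoc Γ) := by
  obtain ⟨A, C, H1, H2⟩ := lin_part Q
  have hmul := A_mul Q A C H1
  have hone := A_one Q A C H1
  let ρ : Γ →* M2 := { toFun := A, map_one' := hone, map_mul' := hmul }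
  have hρ : ∀ γ, ρ γ = A γ := fun _ => rfl
  have hbd : ∀ γ, |(ρ γ).det| ≤ C * C := by
    intro γ
    have e : ((Q.g γ)⁻¹ * A γ * Q.g (γ⁻¹ * γ)).det = (A γ).det := by
      rw [Matrix.det_mul, Matrix.det_mul, det_inv_of (Q.det_g γ), Q.det_g, one_mul, mul_one]
    have h := abs_det_le_mn ((Q.g γ)⁻¹ * A γ * Q.g (γ⁻¹ * γ))
    rw [e] at h
    have h2 := H2 γ γ
    have h3 := mn_nonneg ((Q.g γ)⁻¹ * A γ * Q.g (γ⁻¹ * γ))
    exact h.trans (mul_le_mul h2 h2 h3 (h3.trans h2))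
  have hdet : ∀ γ, |(A γ).det| = 1 := abs_det_one ρ (C * C) hbd
  obtain ⟨C', hC'⟩ := gA_near Q A C H2
  have g1 := abs_det_of_det (Q.det_g 1)
  have hC0 : 1 ≤ C' := (one_le_mn_inv_mul (abs_det_of_det (Q.det_g 1)) (hdet 1)).trans (hC' 1)
  refine ⟨⟨ρ, fun a => Q.u a - Q.u 1, hdet, ?_, ?_, ?_⟩⟩
  · intro R
    obtain ⟨D, hD⟩ := q_of Q A C hdet H1 H2 R
    refine ⟨D, fun a s hs => ?_⟩
    have h := hD a s hs
    have e : Q.u (a * s) - Q.u 1 - (Q.u a - Q.u 1) = Q.u (a * s) - Q.u a := by abel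
    rw [e]
    exact h
  · intro R
    have key : ∀ s, mn (ρ s) ≤ R → mn ((Q.g 1)⁻¹ * Q.g s) ≤ mn (Q.g 1) * (|R| * C') := by
      intro s hs
      have h1 : mn (Q.g s) ≤ mn (A s) * mn ((A s)⁻¹ * Q.g s) := by
        have e : Q.g s = A s * ((A s)⁻¹ * Q.g s) := by
          rw [← Matrix.mul_assoc, mul_inv_self_of (hdet s), Matrix.one_mul]
        calc mn (Q.g s) = mn (A s * ((A s)⁻¹ * Q.g s)) := by rw [← e]
          _ ≤ _ := mn_mul_le _ _
      have h2 : mn ((A s)⁻¹ * Q.g s) ≤ C' := by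
        rw [mn_inv_mul_comm (hdet s) (abs_det_of_det (Q.det_g s))]
        exact hC' s
      have h3 : mn (A s) ≤ |R| := hs.trans (le_abs_self R)
      have h4 := mn_mul_le (Q.g 1)⁻¹ (Q.g s)
      rw [mn_inv g1] at h4
      refine h4.trans (mul_le_mul_of_nonneg_left ?_ (mn_nonneg _))
      exact h1.trans (mul_le_mul h3 h2 (mn_nonneg _) (abs_nonneg _))
    set B := max (mn (Q.g 1) * (|R| * C')) (mn (Q.g 1) * |R|) with hB
    obtain ⟨E, hE⟩ := Q.c2 B
    refine (E.finite_toSet).subset ?_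
    rintro s ⟨hs1, hs2⟩
    have h := hE 1 s ⟨(key s hs1).trans (le_max_left _ _), ?_⟩
    · rw [inv_one, one_mul] at h
      exact h
    · have h5 := vn_mulVec_le (Q.g 1)⁻¹ (Q.u s - Q.u 1)
      rw [mn_inv g1] at h5
      refine h5.trans ((mul_le_mul_of_nonneg_left ?_ (mn_nonneg _)).trans (le_max_right _ _))
      exact hs2.trans (le_abs_self R)
  · obtain ⟨R, hR⟩ := Q.c3
    refine ⟨|R| * C' + |R|, fun w h hh => ?_⟩
    obtain ⟨a, ha⟩ := hR (w + Q.u 1) h hh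
    have hR0 : |R| = R := abs_of_nonneg (NR_nonneg ha)
    refine ⟨a, ?_, ?_⟩
    · have h1 := mn_change (h := h) (h' := Q.g a) (h'' := ρ a) (abs_det_of_det (Q.det_g a))
      have h2 := mul_le_mul ha.1 (hC' a) (mn_nonneg _) (NR_nonneg ha)
      rw [hR0]
      have h3 := NR_nonneg ha
      exact h1.trans (h2.trans (by linarith))
    · have e : Q.u a - Q.u 1 - w = Q.u a - (w + Q.u 1) := by abel
      rw [e, hR0]
      refine ha.2.trans ?_
      have h3 := NR_nonneg ha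
      nlinarith

end Pool.Agent.FQI
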