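import Pool.Agent.FQI.Fb

/-!
# The displacement `sh Q γ v a = u (F Q γ v a) - u a`

Proofs.
* `sh_near`: `sh b - sh a = (u (F b) - u (F a)) - (u b - u a)` (with `F = F Q γ v`). By hypothesis
  `vn ((g a)⁻¹ (u b - u a)) ≤ R`. By `F_near`, `near Q R' (F a) (F b)`, so
  `vn ((g (F a))⁻¹ (u (F b) - u (F a))) ≤ R'`, and by `F_fib` and `near_vn` (or `vn_change`)
  `vn ((g a)⁻¹ (u (F b) - u (F a))) ≤ R_fib * R'`. The constant is `R_fib * R' + R`.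
* `sh_small`: this is the second component of `F_small`.
-/

set_option autoImplicit false

namespace Pool.Agent.FQI

open Matrix

variable {Γ : Type} [Group Γ]

theorem sh_near (Q : FibQI Γ) (R : ℝ) :
    ∃ R' : ℝ, ∀ γ v a b, near Q R a b →
      vn ((Q.g a)⁻¹ *ᵥ (sh Q γ v b - sh Q γ v a)) ≤ R' := by
  obtain ⟨R1, h1⟩ := F_near Q R
  obtain ⟨R2, h2⟩ := F_fib Q
  refine ⟨R2 * R1 + R, ?_⟩
  intro γ v a b H
  have h3 := h1 γ v a b H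
  have h4 := h2 γ v a
  have e : sh Q γ v b - sh Q γ v a =
      (Q.u (F Q γ v b) - Q.u (F Q γ v a)) - (Q.u b - Q.u a) := by
    unfold sh; abel
  rw [e, Matrix.mulVec_sub]
  have h5 := vn_sub_le ((Q.g a)⁻¹ *ᵥ (Q.u (F Q γ v b) - Q.u (F Q γ v a)))
    ((Q.g a)⁻¹ *ᵥ (Q.u b - Q.u a))
  have h6 := (near_vn Q h4 (Q.u (F Q γ v b) - Q.u (F Q γ v a))).1
  have h7 : 0 ≤ R2 := (mn_nonneg _).trans h4
  have h8 := mul_le_mul_of_nonneg_left h3.2 h7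
  have h9 := H.2
  linarith

theorem sh_small (Q : FibQI Γ) (R : ℝ) :
    ∃ R' : ℝ, ∀ γ v a, vn ((Q.g (γ⁻¹ * a))⁻¹ *ᵥ v) ≤ R →
      vn ((Q.g a)⁻¹ *ᵥ sh Q γ v a) ≤ R' := by
  obtain ⟨R1, h1⟩ := F_small Q R
  exact ⟨R1, fun γ v a H => (h1 γ v a H).2⟩

end Pool.Agent.FQI
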