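import Pool.Agent.FQI.ShPt

/-!
# The displacement is coarsely constant along neighbourhoods of fibres; coarse additivity

Proofs.
* `sh_fib`: let `h = g a`. `a` is near `pt Q (u a) h` (`near_of_NR`, `NR 2 (u a) h (u a) h`), with a
  constant depending only on `Q`; `b` is near `pt Q (u b) h`: `NR R (u b) h (u b) (g b)`
  (`NR_of_mn`) and `near_of_NR`, constant depending on `R`. By `sh_near` (and `near_symm`) the
  differences `sh a - sh (pt Q (u a) h)` and `sh b - sh (pt Q (u b) h)` are bounded in the norm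
  `vn (h⁻¹ *ᵥ ·)` (change of norm: `near_vn`, `mn (h⁻¹ * g b) ≤ R`; `mn (h⁻¹ * g (pt Q w h)) ≤ R0`),
  and `sh_pt` bounds the difference of the two `pt` values.
* `sh_add`: let `b = F Q γ v' a`, `e = F Q γ v b`, `e' = F Q γ (v + v') a`; `F_comp`:
  `vn ((g e)⁻¹ *ᵥ (u e' - u e)) ≤ R`, and `mn ((g a)⁻¹ * g e) ≤ mn ((g a)⁻¹ * g b) * mn ((g b)⁻¹ * g e)`
  is bounded by `F_fib` (`mn_change`), so `vn ((g a)⁻¹ *ᵥ (u e' - u e))` is bounded. Here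
  `u e' - u a = sh (v+v') a`, `u e - u a = sh v' a + sh v b`, and `sh v b - sh v a` is bounded in the
  norm at `a` by `sh_fib` and `F_fib`.
-/

set_option autoImplicit false

namespace Pool.Agent.FQI

open Matrix

variable {Γ : Type} [Group Γ]

theorem sh_fib (Q : FibQI Γ) (R : ℝ) :
    ∃ C : ℝ, ∀ γ v a b, mn ((Q.g a)⁻¹ * Q.g b) ≤ R →
      vn ((Q.g a)⁻¹ *ᵥ (sh Q γ v b - sh Q γ v a)) ≤ C := by
  obtain ⟨R1, hR1⟩ := near_of_NR Q (max 2 R)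
  obtain ⟨R2, hR2⟩ := sh_near Q R1
  obtain ⟨C, hC⟩ := sh_pt Q
  refine ⟨R0 Q * R2 + R0 Q * R2 + C, ?_⟩
  intro γ v a b hab
  have hR0 : 0 ≤ R0 Q := (mn_nonneg _).trans (pt_spec Q 0 (Q.g a) (Q.det_g a)).1
  -- `a` is near `pt Q (u a) (g a)`
  have k1 : near Q R1 (pt Q (Q.u a) (Q.g a)) a := by
    refine hR1 _ _ _ (Q.det_g a) (NR_mono (le_max_left _ _) ?_)
    exact near_self Q a
  have k2 : near Q R1 (pt Q (Q.u b) (Q.g a)) b := by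
    refine hR1 _ _ _ (Q.det_g a) (NR_of_mn (hab.trans (le_max_right _ _)))
  have s1 := hR2 γ v _ _ k1
  have s2 := hR2 γ v _ _ k2
  have s3 := hC γ v (Q.g a) (Q.det_g a) (Q.u a) (Q.u b)
  have t1 : ∀ w x, vn ((Q.g a)⁻¹ *ᵥ x) ≤ R0 Q * vn ((Q.g (pt Q w (Q.g a)))⁻¹ *ᵥ x) := by
    intro w x
    refine (vn_change (abs_det_of_det (Q.det_g (pt Q w (Q.g a)))) x).trans ?_
    exact mul_le_mul_of_nonneg_right (pt_spec Q w (Q.g a) (Q.det_g a)).1 (vn_nonneg _)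
  have u1 := (t1 (Q.u a) (sh Q γ v a - sh Q γ v (pt Q (Q.u a) (Q.g a)))).trans
    (mul_le_mul_of_nonneg_left s1 hR0)
  have u2 := (t1 (Q.u b) (sh Q γ v b - sh Q γ v (pt Q (Q.u b) (Q.g a)))).trans
    (mul_le_mul_of_nonneg_left s2 hR0)
  have e : (Q.g a)⁻¹ *ᵥ (sh Q γ v b - sh Q γ v a) =
      -((Q.g a)⁻¹ *ᵥ (sh Q γ v a - sh Q γ v (pt Q (Q.u a) (Q.g a)))) +
        (Q.g a)⁻¹ *ᵥ (sh Q γ v b - sh Q γ v (pt Q (Q.u b) (Q.g a))) +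
        (Q.g a)⁻¹ *ᵥ (sh Q γ v (pt Q (Q.u b) (Q.g a)) - sh Q γ v (pt Q (Q.u a) (Q.g a))) := by
    rw [← Matrix.mulVec_neg, ← Matrix.mulVec_add, ← Matrix.mulVec_add]
    congr 1
    abel
  rw [e]
  refine (vn_add_le _ _).trans (add_le_add ((vn_add_le _ _).trans (add_le_add ?_ u2)) s3)
  rw [vn_neg]
  exact u1

theorem sh_add (Q : FibQI Γ) :
    ∃ C : ℝ, ∀ γ v v' a,
      vn ((Q.g a)⁻¹ *ᵥ (sh Q γ (v + v') a - sh Q γ v a - sh Q γ v' a)) ≤ C := by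
  obtain ⟨R1, hR1⟩ := F_fib Q
  obtain ⟨R2, hR2⟩ := F_comp Q
  obtain ⟨C, hC⟩ := sh_fib Q R1
  refine ⟨R1 * R1 * R2 + C, ?_⟩
  intro γ v v' a
  set b := F Q γ v' a with hb
  have h1 := hR1 γ v' a
  rw [← hb] at h1
  have h2 := hR1 γ v b
  have hR1' : 0 ≤ R1 := (mn_nonneg _).trans h1
  have h3 : mn ((Q.g a)⁻¹ * Q.g (F Q γ v b)) ≤ R1 * R1 :=
    (mn_change (abs_det_of_det (Q.det_g b))).trans
      (mul_le_mul h1 h2 (mn_nonneg _) hR1')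
  have h4 := (hR2 γ v v' a).2
  rw [← hb] at h4
  have h5 := (near_vn Q h3 (Q.u (F Q γ (v + v') a) - Q.u (F Q γ v b))).1
  have h6 : vn ((Q.g a)⁻¹ *ᵥ (Q.u (F Q γ (v + v') a) - Q.u (F Q γ v b))) ≤ R1 * R1 * R2 :=
    h5.trans (mul_le_mul_of_nonneg_left h4 (by positivity))
  have h7 := hC γ v a b h1
  have e : (Q.g a)⁻¹ *ᵥ (sh Q γ (v + v') a - sh Q γ v a - sh Q γ v' a) =
      (Q.g a)⁻¹ *ᵥ (Q.u (F Q γ (v + v') a) - Q.u (F Q γ v b)) +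
        (Q.g a)⁻¹ *ᵥ (sh Q γ v b - sh Q γ v a) := by
    rw [← Matrix.mulVec_add]
    congr 1
    unfold sh
    rw [← hb]
    abel
  rw [e]
  exact (vn_add_le _ _).trans (add_le_add h6 h7)

end Pool.Agent.FQI
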