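import Pool.Agent.FQI.Lam
import Pool.Agent.FQI.Mult
import Pool.Agent.FQI.LamMul
import Pool.Agent.FQI.LamBdd

/-!
# The displacement is coarsely constant on fibres (complete, assembled by helper55)
-/

set_option autoImplicit false

namespace Pool.Agent.FQI

open Matrix

variable {Γ : Type} [Group Γ]

theorem sh_pt (Q : FibQI Γ) :
    ∃ C : ℝ, ∀ γ v h, h.det = 1 → ∀ w0 w1 : V,
      vn (h⁻¹ *ᵥ (sh Q γ v (pt Q w1 h) - sh Q γ v (pt Q w0 h))) ≤ C := by
  obtain ⟨C, l, H⟩ := lam_sh Q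
  obtain ⟨B, hB⟩ := lam_bdd Q C l H
  refine ⟨C, fun γ v h hh w0 w1 => ?_⟩
  have h1 : 1 + l γ v = 1 := by
    refine mult_one (fun v => 1 + l γ v) (1 + B) ?_ (lam_mul Q C l H γ) ?_ v
    · simp only [lam_at_zero Q C l H γ, add_zero]
    · intro v
      have h2 := hB γ v
      have h3 := abs_add_le (1 : ℝ) (l γ v)
      rw [abs_one] at h3
      linarith
  have h2 : l γ v = 0 := by linarith
  have h3 := H γ v h hh w0 w1
  rw [h2, zero_smul, sub_zero] at h3
  exact h3

end Pool.Agent.FQI
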