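import Pool.Agent.FQI.QBasic

/-!
# Homogenization on the kernel (proof by helper18)

Proof of `tau_hom`. For `k`, `l` in the kernel of `ρ`, `Q.q 2` (`mn (ρ l) = mn 1 = 2`,
`(ρ k)⁻¹ = 1`) gives `vn (t (k * l) - t k - t l) ≤ C`. Hence
`vn (t (k ^ (2 * n)) - 2 • t (k ^ n)) ≤ C` (`k ^ (2 n) = k ^ n * k ^ n`), so
`a n := (2 ^ n)⁻¹ • t (k ^ (2 ^ n))` satisfies `vn (a (n + 1) - a n) ≤ C / 2 ^ (n + 1)` and is Cauchy.
`τ k := lim a n` (for `ρ k = 1`; anything otherwise), and `vn (τ k - t k) ≤ 2 C`.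
`τ (k ^ m) = m • τ k`: by induction on `m`, `vn (t (k ^ m) - m • t k) ≤ m * C + vn (t 1)` for all `k` in
the kernel. Apply this to `k ^ (2 ^ n)` and divide by `2 ^ n`
(`(k ^ (2 ^ n)) ^ m = (k ^ m) ^ (2 ^ n)`), and let `n → ∞`.
-/

set_option autoImplicit false

namespace Pool.Agent.FQI

open Matrix

variable {Γ : Type} [Group Γ]

private theorem norm_le_vn (v : V) : ‖v‖ ≤ vn v := by
  rw [pi_norm_le_iff_of_nonneg (vn_nonneg v)]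
  intro i
  rw [Real.norm_eq_abs]
  exact abs_le_vn v i

private theorem vn_le_norm (v : V) : vn v ≤ 2 * ‖v‖ := by
  have h0 := norm_le_pi_norm v 0
  have h1 := norm_le_pi_norm v 1
  rw [Real.norm_eq_abs] at h0 h1
  unfold vn
  linarith

private theorem ker_mul (Q : QuasiCoc Γ) : ∃ C : ℝ, ∀ k l, Q.ρ k = 1 → Q.ρ l = 1 →
    vn (Q.t (k * l) - Q.t k - Q.t l) ≤ C := by
  obtain ⟨C, hC⟩ := Q.q 2
  refine ⟨C, fun k l hk hl => ?_⟩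
  have h1 := hC k l (by rw [hl, mn_one])
  rwa [hk, inv_one, Matrix.one_mulVec] at h1

private theorem ker_pow (Q : QuasiCoc Γ) (C : ℝ) (hC : ∀ k l, Q.ρ k = 1 → Q.ρ l = 1 →
    vn (Q.t (k * l) - Q.t k - Q.t l) ≤ C) (k : Γ) (hk : Q.ρ k = 1) (m : ℕ) :
    vn (Q.t (k ^ m) - (m : ℝ) • Q.t k) ≤ m * C + vn (Q.t 1) := by
  induction m with
  | zero => simp
  | succ m ih =>
    have h1 := hC (k ^ m) k (by rw [map_pow, hk, one_pow]) hk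
    have e : Q.t (k ^ (m + 1)) - ((m + 1 : ℕ) : ℝ) • Q.t k =
        (Q.t (k ^ m * k) - Q.t (k ^ m) - Q.t k) + (Q.t (k ^ m) - (m : ℝ) • Q.t k) := by
      rw [pow_succ, Nat.cast_succ, add_smul, one_smul]
      abel
    rw [e]
    refine (vn_add_le _ _).trans ?_
    push_cast
    linarith

private theorem tau_exists (Q : QuasiCoc Γ) (C : ℝ) (hC : ∀ k l, Q.ρ k = 1 → Q.ρ l = 1 →
    vn (Q.t (k * l) - Q.t k - Q.t l) ≤ C) (k : Γ) (hk : Q.ρ k = 1) :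
    ∃ x : V, Filter.Tendsto (fun n : ℕ => ((2 : ℝ) ^ n)⁻¹ • Q.t (k ^ 2 ^ n)) Filter.atTop (nhds x) ∧
      vn (x - Q.t k) ≤ 2 * C := by
  have hd : ∀ n : ℕ, dist (((2 : ℝ) ^ n)⁻¹ • Q.t (k ^ 2 ^ n))
      (((2 : ℝ) ^ (n + 1))⁻¹ • Q.t (k ^ 2 ^ (n + 1))) ≤ C / 2 / 2 ^ n := by
    intro n
    rw [dist_comm, dist_eq_norm]
    refine (norm_le_vn _).trans ?_
    have hk' : Q.ρ (k ^ 2 ^ n) = 1 := by rw [map_pow, hk, one_pow]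
    have h1 := hC (k ^ 2 ^ n) (k ^ 2 ^ n) hk' hk'
    have h2 : k ^ 2 ^ n * k ^ 2 ^ n = k ^ 2 ^ (n + 1) := by
      rw [← pow_add, ← two_mul, ← pow_succ']
    rw [h2] at h1
    have e : ((2 : ℝ) ^ (n + 1))⁻¹ • Q.t (k ^ 2 ^ (n + 1)) - ((2 : ℝ) ^ n)⁻¹ • Q.t (k ^ 2 ^ n) =
        ((2 : ℝ) ^ (n + 1))⁻¹ • (Q.t (k ^ 2 ^ (n + 1)) - Q.t (k ^ 2 ^ n) - Q.t (k ^ 2 ^ n)) := by
      have e1 : ((2 : ℝ) ^ n)⁻¹ = ((2 : ℝ) ^ (n + 1))⁻¹ + ((2 : ℝ) ^ (n + 1))⁻¹ := by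
        rw [pow_succ]
        field_simp
        norm_num
      rw [e1, smul_sub, smul_sub, add_smul]
      abel
    rw [e, vn_smul, abs_of_pos (by positivity)]
    calc ((2 : ℝ) ^ (n + 1))⁻¹ * vn (Q.t (k ^ 2 ^ (n + 1)) - Q.t (k ^ 2 ^ n) - Q.t (k ^ 2 ^ n))
        ≤ ((2 : ℝ) ^ (n + 1))⁻¹ * C := by gcongr
      _ = C / 2 / 2 ^ n := by rw [pow_succ]; field_simp
  obtain ⟨x, hx⟩ := cauchySeq_tendsto_of_complete (cauchySeq_of_le_geometric_two hd)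
  refine ⟨x, hx, ?_⟩
  have h3 := dist_le_of_le_geometric_two_of_tendsto₀ hd hx
  rw [pow_zero, inv_one, one_smul, pow_zero, pow_one, dist_comm, dist_eq_norm] at h3
  have h4 := vn_le_norm (x - Q.t k)
  linarith

theorem tau_hom (Q : QuasiCoc Γ) :
    ∃ (τ : Γ → V) (C : ℝ), (∀ k, Q.ρ k = 1 → vn (τ k - Q.t k) ≤ C) ∧
      (∀ k, Q.ρ k = 1 → ∀ n : ℕ, τ (k ^ n) = (n : ℝ) • τ k) := by
  obtain ⟨C, hC⟩ := ker_mul Q
  have hex : ∀ k : Γ, ∃ x : V, Q.ρ k = 1 →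
      (Filter.Tendsto (fun n : ℕ => ((2 : ℝ) ^ n)⁻¹ • Q.t (k ^ 2 ^ n)) Filter.atTop (nhds x) ∧
      vn (x - Q.t k) ≤ 2 * C) := by
    intro k
    by_cases hk : Q.ρ k = 1
    · obtain ⟨x, hx⟩ := tau_exists Q C hC k hk
      exact ⟨x, fun _ => hx⟩
    · exact ⟨0, fun h => absurd h hk⟩
  choose τ hτ using hex
  refine ⟨τ, 2 * C, fun k hk => (hτ k hk).2, fun k hk m => ?_⟩
  have hkm : Q.ρ (k ^ m) = 1 := by rw [map_pow, hk, one_pow]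
  have h1 := (hτ (k ^ m) hkm).1
  have h2 := (hτ k hk).1.const_smul (m : ℝ)
  have h3 := h1.sub h2
  have h4 : Filter.Tendsto (fun n : ℕ => ((2 : ℝ) ^ n)⁻¹ • Q.t ((k ^ m) ^ 2 ^ n) -
      (m : ℝ) • (((2 : ℝ) ^ n)⁻¹ • Q.t (k ^ 2 ^ n))) Filter.atTop (nhds 0) := by
    apply squeeze_zero_norm (a := fun n : ℕ => (m * C + vn (Q.t 1)) * ((1 / 2 : ℝ)) ^ n)
    · intro n
      refine (norm_le_vn _).trans ?_
      have hk' : Q.ρ (k ^ 2 ^ n) = 1 := by rw [map_pow, hk, one_pow]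
      have h5 := ker_pow Q C hC (k ^ 2 ^ n) hk' m
      have e : ((2 : ℝ) ^ n)⁻¹ • Q.t ((k ^ m) ^ 2 ^ n) -
          (m : ℝ) • (((2 : ℝ) ^ n)⁻¹ • Q.t (k ^ 2 ^ n)) =
          ((2 : ℝ) ^ n)⁻¹ • (Q.t ((k ^ 2 ^ n) ^ m) - (m : ℝ) • Q.t (k ^ 2 ^ n)) := by
        rw [← pow_mul, mul_comm m, pow_mul, smul_sub, smul_comm]
      rw [e, vn_smul, abs_of_pos (by positivity)]
      calc ((2 : ℝ) ^ n)⁻¹ * vn (Q.t ((k ^ 2 ^ n) ^ m) - (m : ℝ) • Q.t (k ^ 2 ^ n))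
          ≤ ((2 : ℝ) ^ n)⁻¹ * (m * C + vn (Q.t 1)) := by gcongr
        _ = (m * C + vn (Q.t 1)) * (1 / 2 : ℝ) ^ n := by
          rw [one_div, inv_pow]; ring
    · have := (tendsto_pow_atTop_nhds_zero_of_lt_one (r := (1 / 2 : ℝ)) (by norm_num)
        (by norm_num)).const_mul (m * C + vn (Q.t 1))
      rwa [mul_zero] at this
  have h5 := tendsto_nhds_unique h3 h4
  exact sub_eq_zero.1 h5

end Pool.Agent.FQI
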